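import Mathlib

/-!
Continuous first-order logic for Banach spaces presented through their closed balls, with
additional constant symbols and predicate symbols.
-/

namespace Pool.Agent.Helper302.CL

/-- A signature containing the signature of real Banach spaces. The symbols of the Banach space
signature (zero, addition, multiplication by each real scalar, norm) are always present and are not
listed. The additional symbols are constants, each with a sort (a natural number `n`: the constant lies
in the closed ball of radius `n`), and predicate symbols, each with an arity and, for every closed ball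
of radius `n`, a bound and a modulus of uniform continuity on that ball. -/
structure Signature where
  Const : Type
  sort : Const → ℕ
  Pred : Type
  arity : Pred → ℕ
  bound : Pred → ℕ → ℝ
  modulus : Pred → ℕ → ℝ → ℝ
  modulus_pos : ∀ P n ε, 0 < ε → 0 < modulus P n ε

variable {L : Signature}

/-- A structure of signature `L` whose underlying Banach space is `V`. -/
structure Structure (L : Signature) (V : Type) [NormedAddCommGroup V] [NormedSpace ℝ V] where
  const : L.Const → V
  norm_const_le : ∀ c, ‖const c‖ ≤ L.sort c
  pred : (P : L.Pred) → (Fin (L.arity P) → V) → ℝ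
  pred_bound : ∀ P (n : ℕ) (v : Fin (L.arity P) → V), (∀ i, ‖v i‖ ≤ n) → |pred P v| ≤ L.bound P n
  pred_uniform : ∀ P (n : ℕ) (ε : ℝ), 0 < ε → ∀ v w : Fin (L.arity P) → V,
    (∀ i, ‖v i‖ ≤ n) → (∀ i, ‖w i‖ ≤ n) → (∀ i, ‖v i - w i‖ < L.modulus P n ε) →
      |pred P v - pred P w| ≤ ε

/-- Terms in the variables `x_0, ..., x_{k-1}`. -/
inductive Term (L : Signature) (k : ℕ) : Type
  | var : Fin k → Term L k
  | const : L.Const → Term L k
  | zero : Term L k
  | add : Term L k → Term L k → Term L k
  | smul : ℝ → Term L k → Term L k

/-- Formulas of continuous logic with free variables among `x_0, ..., x_{k-1}`: norms of terms,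
predicates applied to terms, continuous connectives, and quantifiers `sup`, `inf` over the closed ball of
radius `r`. -/
inductive Formula (L : Signature) : ℕ → Type
  | norm {k : ℕ} : Term L k → Formula L k
  | pred {k : ℕ} (P : L.Pred) : (Fin (L.arity P) → Term L k) → Formula L k
  | conn {k m : ℕ} : C(Fin m → ℝ, ℝ) → (Fin m → Formula L k) → Formula L k
  | sup {k : ℕ} (r : ℕ) : Formula L (k + 1) → Formula L k
  | inf {k : ℕ} (r : ℕ) : Formula L (k + 1) → Formula L k

section Semantics

variable {V : Type} [NormedAddCommGroup V] [NormedSpace ℝ V]

/-- Value of a term. -/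
def Term.eval (M : Structure L V) {k : ℕ} (v : Fin k → V) : Term L k → V
  | var i => v i
  | const c => M.const c
  | zero => 0
  | add s t => s.eval M v + t.eval M v
  | smul r t => r • t.eval M v

/-- Value of a formula. -/
noncomputable def Formula.eval (M : Structure L V) : {k : ℕ} → Formula L k → (Fin k → V) → ℝ
  | _, norm t, v => ‖t.eval M v‖
  | _, pred P ts, v => M.pred P (fun i => (ts i).eval M v)
  | _, conn u φ, v => u (fun i => (φ i).eval M v)
  | _, sup r φ, v => ⨆ x : Metric.closedBall (0 : V) r, φ.eval M (Fin.snoc v x.1)
  | _, inf r φ, v => ⨅ x : Metric.closedBall (0 : V) r, φ.eval M (Fin.snoc v x.1)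

/-- `M` is a model of the theory `T`, a set of closed conditions `φ = 0` for sentences `φ`. -/
def Models (M : Structure L V) (T : Set (Formula L 0)) : Prop :=
  ∀ φ ∈ T, φ.eval M Fin.elim0 = 0

end Semantics

/-- The theory `T` is separably categorical up to linear homeomorphism: the underlying Banach spaces of
any two separable models are linearly homeomorphic. -/
def SeparablyCategorical (T : Set (Formula L 0)) : Prop :=
  ∀ (V W : Type) [NormedAddCommGroup V] [NormedSpace ℝ V] [CompleteSpace V]
    [TopologicalSpace.SeparableSpace V] [NormedAddCommGroup W] [NormedSpace ℝ W] [CompleteSpace W]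
    [TopologicalSpace.SeparableSpace W] (M : Structure L V) (N : Structure L W),
    Models M T → Models N T → Nonempty (V ≃L[ℝ] W)

/-- Any two separable models of `T` admit a linear homeomorphism of distortion at most `C`. -/
def DistortionAtMost (T : Set (Formula L 0)) (C : ℝ) : Prop :=
  ∀ (V W : Type) [NormedAddCommGroup V] [NormedSpace ℝ V] [CompleteSpace V]
    [TopologicalSpace.SeparableSpace V] [NormedAddCommGroup W] [NormedSpace ℝ W] [CompleteSpace W]
    [TopologicalSpace.SeparableSpace W] (M : Structure L V) (N : Structure L W),
    Models M T → Models N T →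
      ∃ S : V ≃L[ℝ] W, ‖(S : V →L[ℝ] W)‖ * ‖(S.symm : W →L[ℝ] V)‖ ≤ C

end Pool.Agent.Helper302.CL
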