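import Pool.Agent.Helper302.CLDefs

open scoped InnerProductSpace

namespace Pool.Agent.Helper302.CL


section Bounds

variable {L : Signature} {V : Type} [NormedAddCommGroup V] [NormedSpace ℝ V] (M : Structure L V)

theorem Term.eval_bound {k : ℕ} (t : Term L k) (n : ℕ) :
    ∃ K : ℕ, ∀ v : Fin k → V, (∀ i, ‖v i‖ ≤ n) → ‖t.eval M v‖ ≤ K := by
  induction t with
  | var i => exact ⟨n, fun v hv => hv i⟩
  | const c => exact ⟨L.sort c, fun v _ => M.norm_const_le c⟩
  | zero => exact ⟨0, fun v _ => by simp [Term.eval]⟩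
  | add s t ihs iht =>
    obtain ⟨K1, h1⟩ := ihs
    obtain ⟨K2, h2⟩ := iht
    refine ⟨K1 + K2, fun v hv => ?_⟩
    rw [Term.eval]
    push_cast
    exact (norm_add_le _ _).trans (add_le_add (h1 v hv) (h2 v hv))
  | smul r t iht =>
    obtain ⟨K, h⟩ := iht
    refine ⟨⌈|r| * K⌉₊, fun v hv => ?_⟩
    rw [Term.eval, norm_smul, Real.norm_eq_abs]
    exact (mul_le_mul_of_nonneg_left (h v hv) (abs_nonneg r)).trans (Nat.le_ceil _)

theorem Formula.eval_bound {k : ℕ} (φ : Formula L k) : ∀ (n : ℕ),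
    ∃ K : ℝ, ∀ v : Fin k → V, (∀ i, ‖v i‖ ≤ n) → |φ.eval M v| ≤ K := by
  induction φ with
  | norm t =>
    intro n
    obtain ⟨K, h⟩ := t.eval_bound M n
    refine ⟨K, fun v hv => ?_⟩
    rw [Formula.eval, abs_of_nonneg (norm_nonneg _)]
    exact h v hv
  | pred P ts =>
    intro n
    choose K hK using fun i => (ts i).eval_bound M n
    refine ⟨L.bound P (∑ i, K i), fun v hv => ?_⟩
    rw [Formula.eval]
    refine M.pred_bound P _ _ fun i => (hK i v hv).trans ?_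
    exact_mod_cast Finset.single_le_sum (f := K) (fun j _ => Nat.zero_le _) (Finset.mem_univ i)
  | @conn k m u φ ih =>
    intro n
    choose K hK using fun i => ih i n
    have hc : IsCompact (Set.univ.pi fun i : Fin m => Set.Icc (-(K i)) (K i)) :=
      isCompact_univ_pi fun i => isCompact_Icc
    obtain ⟨C, hC⟩ := hc.exists_bound_of_continuousOn (f := u) u.continuous.continuousOn
    refine ⟨C, fun v hv => ?_⟩
    rw [Formula.eval]
    refine hC _ ?_
    intro i _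
    exact abs_le.1 (hK i v hv)
  | @sup k r φ ih =>
    intro n
    obtain ⟨K, hK⟩ := ih (max n r)
    refine ⟨K, fun v hv => ?_⟩
    have hb : ∀ x : Metric.closedBall (0 : V) r, |φ.eval M (Fin.snoc v x.1)| ≤ K := by
      intro x
      apply hK
      intro i
      refine Fin.lastCases ?_ (fun j => ?_) i
      · rw [Fin.snoc_last]
        have := mem_closedBall_zero_iff.1 x.2
        push_cast
        exact this.trans (le_max_right _ _)
      · rw [Fin.snoc_castSucc]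
        push_cast
        exact (hv j).trans (le_max_left _ _)
    have hne : Nonempty (Metric.closedBall (0 : V) (r : ℝ)) := ⟨⟨0, by simp⟩⟩
    rw [Formula.eval, abs_le]
    have hbd : BddAbove (Set.range fun x : Metric.closedBall (0 : V) r => φ.eval M (Fin.snoc v x.1)) :=
      ⟨K, by rintro _ ⟨x, rfl⟩; exact (abs_le.1 (hb x)).2⟩
    exact ⟨(abs_le.1 (hb hne.some)).1.trans (le_ciSup hbd hne.some), ciSup_le fun x => (abs_le.1 (hb x)).2⟩
  | @inf k r φ ih =>
    intro n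
    obtain ⟨K, hK⟩ := ih (max n r)
    refine ⟨K, fun v hv => ?_⟩
    have hb : ∀ x : Metric.closedBall (0 : V) r, |φ.eval M (Fin.snoc v x.1)| ≤ K := by
      intro x
      apply hK
      intro i
      refine Fin.lastCases ?_ (fun j => ?_) i
      · rw [Fin.snoc_last]
        have := mem_closedBall_zero_iff.1 x.2
        push_cast
        exact this.trans (le_max_right _ _)
      · rw [Fin.snoc_castSucc]
        push_cast
        exact (hv j).trans (le_max_left _ _)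
    have hne : Nonempty (Metric.closedBall (0 : V) (r : ℝ)) := ⟨⟨0, by simp⟩⟩
    rw [Formula.eval, abs_le]
    have hbd : BddBelow (Set.range fun x : Metric.closedBall (0 : V) r => φ.eval M (Fin.snoc v x.1)) :=
      ⟨-K, by rintro _ ⟨x, rfl⟩; exact (abs_le.1 (hb x)).1⟩
    exact ⟨le_ciInf fun x => (abs_le.1 (hb x)).1, (ciInf_le hbd hne.some).trans (abs_le.1 (hb hne.some)).2⟩

theorem bdd_sup {k : ℕ} (φ : Formula L (k + 1)) (r : ℕ) (v : Fin k → V) :
    BddAbove (Set.range fun x : Metric.closedBall (0 : V) r => φ.eval M (Fin.snoc v x.1)) := by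
  obtain ⟨n, hn⟩ : ∃ n : ℕ, ∀ i, ‖v i‖ ≤ n := by
    refine ⟨∑ i, ⌈‖v i‖⌉₊, fun i => (Nat.le_ceil _).trans ?_⟩
    exact_mod_cast Finset.single_le_sum (f := fun i => ⌈‖v i‖⌉₊) (fun j _ => Nat.zero_le _) (Finset.mem_univ i)
  obtain ⟨K, hK⟩ := φ.eval_bound M (max n r)
  refine ⟨K, ?_⟩
  rintro _ ⟨x, rfl⟩
  refine (abs_le.1 (hK _ ?_)).2
  intro i
  refine Fin.lastCases ?_ (fun j => ?_) i
  · rw [Fin.snoc_last]
    have := mem_closedBall_zero_iff.1 x.2
    push_cast
    exact this.trans (le_max_right _ _)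
  · rw [Fin.snoc_castSucc]
    push_cast
    exact (hn j).trans (le_max_left _ _)

theorem le_sup {k : ℕ} (φ : Formula L (k + 1)) (r : ℕ) (v : Fin k → V) (x : V) (hx : ‖x‖ ≤ r) :
    φ.eval M (Fin.snoc v x) ≤ (Formula.sup r φ).eval M v := by
  rw [Formula.eval]
  exact le_ciSup (bdd_sup M φ r v) (⟨x, mem_closedBall_zero_iff.2 hx⟩ : Metric.closedBall (0 : V) (r : ℝ))

theorem sup_nonneg {k : ℕ} (φ : Formula L (k + 1)) (r : ℕ) (v : Fin k → V) (h : ∀ w, 0 ≤ φ.eval M w) :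
    0 ≤ (Formula.sup r φ).eval M v :=
  (h _).trans (le_sup M φ r v 0 (by simp))

theorem sup_eq_zero {k : ℕ} (φ : Formula L (k + 1)) (r : ℕ) (v : Fin k → V)
    (h : ∀ x : V, ‖x‖ ≤ r → φ.eval M (Fin.snoc v x) = 0) : (Formula.sup r φ).eval M v = 0 := by
  rw [Formula.eval]
  have : (fun x : Metric.closedBall (0 : V) r => φ.eval M (Fin.snoc v x.1)) = fun _ => 0 := by
    funext x
    exact h x.1 (mem_closedBall_zero_iff.1 x.2)
  rw [this]
  simp

theorem sup_le {k : ℕ} (φ : Formula L (k + 1)) (r : ℕ) (v : Fin k → V) (C : ℝ)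
    (h : ∀ x : V, ‖x‖ ≤ r → φ.eval M (Fin.snoc v x) ≤ C) : (Formula.sup r φ).eval M v ≤ C := by
  have hne : Nonempty (Metric.closedBall (0 : V) (r : ℝ)) := ⟨⟨0, by simp⟩⟩
  rw [Formula.eval]
  exact ciSup_le fun x => h x.1 (mem_closedBall_zero_iff.1 x.2)

end Bounds

section Theory

/-- One binary predicate symbol and countably many constants. -/
noncomputable def S0 : Signature where
  Const := ℕ
  sort := fun _ => 1
  Pred := Unit
  arity := fun _ => 2
  bound := fun _ n => (n : ℝ) * n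
  modulus := fun _ n ε => ε / (2 * n + 1)
  modulus_pos := fun _ n ε h => by positivity

/-- predicate applied to two terms -/
def P {k : ℕ} (s t : Term S0 k) : Formula S0 k := Formula.pred (L := S0) () ![s, t]

/-- the constants -/
def cst {k : ℕ} (i : ℕ) : Term S0 k := Term.const (L := S0) i

/-- last variable -/
def v0 {k : ℕ} : Term S0 (k+1) := Term.var (Fin.last k)
/-- last but one variable -/
def v1 {k : ℕ} : Term S0 (k+2) := Term.var (Fin.castSucc (Fin.last k))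
/-- last but two variable -/
def v2 {k : ℕ} : Term S0 (k+3) := Term.var (Fin.castSucc (Fin.castSucc (Fin.last k)))

def uDiff : C(Fin 3 → ℝ, ℝ) := ⟨fun a => |a 0 - a 1 - a 2|, by fun_prop⟩
def uSmul (r : ℝ) : C(Fin 2 → ℝ, ℝ) := ⟨fun a => |a 0 - r * a 1|, by fun_prop⟩
def uUp : C(Fin 2 → ℝ, ℝ) := ⟨fun a => max (a 1 - a 0 ^ 2) 0, by fun_prop⟩
def uLow : C(Fin 3 → ℝ, ℝ) := ⟨fun a => max (min (a 0) 1 * a 1 ^ 2 - a 2) 0, by fun_prop⟩
def uPar : C(Fin 4 → ℝ, ℝ) := ⟨fun a => |a 0 ^ 2 + a 1 ^ 2 - 2 * a 2 ^ 2 - 2 * a 3 ^ 2|, by fun_prop⟩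
def uSep : C(Fin 1 → ℝ, ℝ) := ⟨fun a => max (1 - a 0) 0, by fun_prop⟩

/-- additivity of `P` in the first variable on the ball of radius `n` -/
def axAdd (n : ℕ) : Formula S0 0 :=
  .sup n (.sup n (.sup n (.conn uDiff ![P (.add v2 v1) v0, P v2 v0, P v1 v0])))

/-- homogeneity of `P` in the first variable on the ball of radius `n` -/
def axSmul (r : ℝ) (n : ℕ) : Formula S0 0 :=
  .sup n (.sup n (.conn (uSmul r) ![P (.smul r v1) v0, P v1 v0]))

/-- symmetry of `P` on the ball of radius `n` -/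
def axSymm (n : ℕ) : Formula S0 0 :=
  .sup n (.sup n (.conn (uSmul 1) ![P v1 v0, P v0 v1]))

/-- `P(x, x) ≤ ‖x‖²` on the ball of radius `n` -/
def axUp (n : ℕ) : Formula S0 0 :=
  .sup n (.conn uUp ![.norm v0, P v0 v0])

/-- the defect in the parallelogram law on the unit ball -/
def par (k : ℕ) : Formula S0 k :=
  .sup 1 (.sup 1 (.conn uPar ![.norm (.add v1 v0), .norm (.add v1 (.smul (-1) v0)), .norm v1, .norm v0]))

/-- `min (par, 1) ‖x‖² ≤ P(x, x)` on the ball of radius `n` -/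
def axLow (n : ℕ) : Formula S0 0 :=
  .sup n (.conn uLow ![par 1, .norm v0, P v0 v0])

/-- the constants `i` and `j` have distance at least `1` -/
def axSep (i j : ℕ) : Formula S0 0 :=
  .conn uSep ![.norm (.add (cst i) (.smul (-1) (cst j)))]

/-- The theory. -/
def T0 : Set (Formula S0 0) :=
  {φ | (∃ n, φ = axAdd n) ∨ (∃ r n, φ = axSmul r n) ∨ (∃ n, φ = axSymm n) ∨ (∃ n, φ = axUp n) ∨
    (∃ n, φ = axLow n) ∨ (∃ i j, i ≠ j ∧ φ = axSep i j)}

variable {V : Type} [NormedAddCommGroup V] [NormedSpace ℝ V] (M : Structure S0 V)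

/-- the form of a structure -/
def form (x y : V) : ℝ := M.pred () (![x, y] : Fin 2 → V)

theorem eval_P {k : ℕ} (s t : Term S0 k) (v : Fin k → V) :
    (P s t).eval M v = form M (s.eval M v) (t.eval M v) := by
  have h : (fun i : Fin 2 => ((![s, t] : Fin 2 → Term S0 k) i).eval M v) = ![s.eval M v, t.eval M v] := by
    funext i
    match i with
    | 0 => rfl
    | 1 => rfl
  show M.pred () (fun i : Fin 2 => ((![s, t] : Fin 2 → Term S0 k) i).eval M v) = M.pred () (![s.eval M v, t.eval M v] : Fin 2 → V)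
  rw [h]

theorem eval_v0 {k : ℕ} (v : Fin k → V) (x : V) : (v0 : Term S0 (k+1)).eval M (Fin.snoc v x) = x := by
  simp [v0, Term.eval]

theorem eval_v1 {k : ℕ} (v : Fin k → V) (x y : V) :
    (v1 : Term S0 (k+2)).eval M (Fin.snoc (Fin.snoc v x : Fin (k+1) → V) y) = x := by
  simp [v1, Term.eval]

theorem eval_v2 {k : ℕ} (v : Fin k → V) (x y z : V) :
    (v2 : Term S0 (k+3)).eval M (Fin.snoc (Fin.snoc (Fin.snoc v x : Fin (k+1) → V) y : Fin (k+2) → V) z) = x := by
  simp [v2, Term.eval]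

/-- parallelogram defect -/
def pdef (x y : V) : ℝ := |‖x + y‖ ^ 2 + ‖x - y‖ ^ 2 - 2 * ‖x‖ ^ 2 - 2 * ‖y‖ ^ 2|

theorem eval_par_inner {k : ℕ} (v : Fin k → V) (x y : V) :
    (Formula.conn uPar ![.norm (.add v1 v0), .norm (.add v1 (.smul (-1) v0)), .norm v1, .norm v0] : Formula S0 (k+2)).eval M
      (Fin.snoc (Fin.snoc v x : Fin (k+1) → V) y) = pdef x y := by
  rw [Formula.eval]
  simp [uPar, Formula.eval, Term.eval, eval_v0, eval_v1, pdef, ← sub_eq_add_neg]

theorem par_nonneg {k : ℕ} (v : Fin k → V) : 0 ≤ (par k).eval M v := by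
  refine sup_nonneg M _ _ _ fun w => sup_nonneg M _ _ _ fun w => ?_
  rw [Formula.eval]
  exact abs_nonneg _

theorem le_par {k : ℕ} (v : Fin k → V) {x y : V} (hx : ‖x‖ ≤ 1) (hy : ‖y‖ ≤ 1) :
    pdef x y ≤ (par k).eval M v := by
  rw [← eval_par_inner M v x y]
  refine (le_sup M _ 1 _ y (by simpa using hy)).trans ?_
  exact le_sup M _ 1 _ x (by simpa using hx)

theorem par_le {k : ℕ} (v : Fin k → V) (C : ℝ) (h : ∀ x y : V, ‖x‖ ≤ 1 → ‖y‖ ≤ 1 → pdef x y ≤ C) :
    (par k).eval M v ≤ C := by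
  refine sup_le M _ _ _ _ fun x hx => sup_le M _ _ _ _ fun y hy => ?_
  rw [eval_par_inner]
  exact h _ _ (by simpa using hx) (by simpa using hy)

variable (V) in
/-- the properties expressed by the theory -/
structure IsForm (B : V → V → ℝ) (δ : ℝ) : Prop where
  add : ∀ x y z, B (x + y) z = B x z + B y z
  smul : ∀ (r : ℝ) x y, B (r • x) y = r * B x y
  symm : ∀ x y, B x y = B y x
  up : ∀ x, B x x ≤ ‖x‖ ^ 2
  low : ∀ x, min δ 1 * ‖x‖ ^ 2 ≤ B x x

theorem models_iff : Models M T0 ↔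
    IsForm V (form M) ((par 0).eval M Fin.elim0) ∧ ∀ i j : ℕ, i ≠ j → 1 ≤ ‖M.const (i : ℕ) - M.const (j : ℕ)‖ := by
  have hpar : ∀ x : V, (par 1).eval M (Fin.snoc (Fin.elim0 : Fin 0 → V) x) = (par 0).eval M Fin.elim0 := by
    intro x
    apply le_antisymm
    · exact par_le M _ _ fun x y hx hy => le_par M _ hx hy
    · exact par_le M _ _ fun x y hx hy => le_par M _ hx hy
  have eAdd : ∀ x y z : V, (Formula.conn uDiff ![P (.add v2 v1) v0, P v2 v0, P v1 v0] : Formula S0 3).eval M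
      (Fin.snoc (Fin.snoc (Fin.snoc (Fin.elim0 : Fin 0 → V) x : Fin 1 → V) y : Fin 2 → V) z) =
      |form M (x + y) z - form M x z - form M y z| := by
    intro x y z
    rw [Formula.eval]
    simp [uDiff, eval_P, Term.eval, eval_v0, eval_v1, eval_v2]
  have eSmul : ∀ (r : ℝ) (x y : V), (Formula.conn (uSmul r) ![P (.smul r v1) v0, P v1 v0] : Formula S0 2).eval M
      (Fin.snoc (Fin.snoc (Fin.elim0 : Fin 0 → V) x : Fin 1 → V) y) =
      |form M (r • x) y - r * form M x y| := by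
    intro r x y
    rw [Formula.eval]
    simp [uSmul, eval_P, Term.eval, eval_v0, eval_v1]
  have eSymm : ∀ (x y : V), (Formula.conn (uSmul 1) ![P v1 v0, P v0 v1] : Formula S0 2).eval M
      (Fin.snoc (Fin.snoc (Fin.elim0 : Fin 0 → V) x : Fin 1 → V) y) =
      |form M x y - form M y x| := by
    intro x y
    rw [Formula.eval]
    simp [uSmul, eval_P, eval_v0, eval_v1]
  have eUp : ∀ (x : V), (Formula.conn uUp ![.norm v0, P v0 v0] : Formula S0 1).eval M
      (Fin.snoc (Fin.elim0 : Fin 0 → V) x : Fin 1 → V) = max (form M x x - ‖x‖ ^ 2) 0 := by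
    intro x
    rw [Formula.eval]
    simp [uUp, eval_P, eval_v0, Formula.eval]
  have eLow : ∀ (x : V), (Formula.conn uLow ![par 1, .norm v0, P v0 v0] : Formula S0 1).eval M
      (Fin.snoc (Fin.elim0 : Fin 0 → V) x : Fin 1 → V) =
      max (min ((par 0).eval M Fin.elim0) 1 * ‖x‖ ^ 2 - form M x x) 0 := by
    intro x
    rw [Formula.eval]
    simp [uLow, eval_P, eval_v0, Formula.eval, hpar]
  have eSep : ∀ i j : ℕ, (axSep i j).eval M Fin.elim0 = max (1 - ‖M.const (i : ℕ) - M.const (j : ℕ)‖) 0 := by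
    intro i j
    rw [axSep, Formula.eval]
    simp [uSep, Formula.eval, Term.eval, cst, ← sub_eq_add_neg]
  have hball : ∀ x : V, ∃ n : ℕ, ‖x‖ ≤ n := fun x => ⟨⌈‖x‖⌉₊, Nat.le_ceil _⟩
  have nn : ∀ {k m : ℕ} (u : C(Fin m → ℝ, ℝ)) (hu : ∀ a, 0 ≤ u a) (φ : Fin m → Formula S0 k) (w : Fin k → V),
      0 ≤ (Formula.conn u φ).eval M w := fun u hu φ w => by rw [Formula.eval]; exact hu _
  constructor
  · intro h
    refine ⟨⟨?_, ?_, ?_, ?_, ?_⟩, ?_⟩
    · intro x y z
      obtain ⟨n, hn⟩ : ∃ n : ℕ, ‖x‖ ≤ n ∧ ‖y‖ ≤ n ∧ ‖z‖ ≤ n := by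
        refine ⟨⌈max ‖x‖ (max ‖y‖ ‖z‖)⌉₊, ?_, ?_, ?_⟩
        · exact (le_max_left _ _).trans (Nat.le_ceil _)
        · exact ((le_max_left _ _).trans (le_max_right _ _)).trans (Nat.le_ceil _)
        · exact ((le_max_right _ _).trans (le_max_right _ _)).trans (Nat.le_ceil _)
      have h0 := h (axAdd n) (Or.inl ⟨n, rfl⟩)
      have h1 : |form M (x + y) z - form M x z - form M y z| ≤ 0 := by
        rw [← eAdd, ← h0]
        refine (le_sup M _ n _ z hn.2.2).trans ?_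
        refine (le_sup M _ n _ y hn.2.1).trans ?_
        exact le_sup M _ n _ x hn.1
      have := abs_nonpos_iff.1 h1
      linarith
    · intro r x y
      obtain ⟨n, hn⟩ : ∃ n : ℕ, ‖x‖ ≤ n ∧ ‖y‖ ≤ n := by
        refine ⟨⌈max ‖x‖ ‖y‖⌉₊, ?_, ?_⟩
        · exact (le_max_left _ _).trans (Nat.le_ceil _)
        · exact (le_max_right _ _).trans (Nat.le_ceil _)
      have h0 := h (axSmul r n) (Or.inr (Or.inl ⟨r, n, rfl⟩))
      have h1 : |form M (r • x) y - r * form M x y| ≤ 0 := by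
        rw [← eSmul, ← h0]
        refine (le_sup M _ n _ y hn.2).trans ?_
        exact le_sup M _ n _ x hn.1
      have := abs_nonpos_iff.1 h1
      linarith
    · intro x y
      obtain ⟨n, hn⟩ : ∃ n : ℕ, ‖x‖ ≤ n ∧ ‖y‖ ≤ n := by
        refine ⟨⌈max ‖x‖ ‖y‖⌉₊, ?_, ?_⟩
        · exact (le_max_left _ _).trans (Nat.le_ceil _)
        · exact (le_max_right _ _).trans (Nat.le_ceil _)
      have h0 := h (axSymm n) (Or.inr (Or.inr (Or.inl ⟨n, rfl⟩)))
      have h1 : |form M x y - form M y x| ≤ 0 := by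
        rw [← eSymm, ← h0]
        refine (le_sup M _ n _ y hn.2).trans ?_
        exact le_sup M _ n _ x hn.1
      have := abs_nonpos_iff.1 h1
      linarith
    · intro x
      obtain ⟨n, hn⟩ := hball x
      have h0 := h (axUp n) (Or.inr (Or.inr (Or.inr (Or.inl ⟨n, rfl⟩))))
      have h1 : max (form M x x - ‖x‖ ^ 2) 0 ≤ 0 := by
        rw [← eUp, ← h0]
        exact le_sup M _ n _ x hn
      have := (le_max_left _ _).trans h1
      linarith
    · intro x
      obtain ⟨n, hn⟩ := hball x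
      have h0 := h (axLow n) (Or.inr (Or.inr (Or.inr (Or.inr (Or.inl ⟨n, rfl⟩)))))
      have h1 : max (min ((par 0).eval M Fin.elim0) 1 * ‖x‖ ^ 2 - form M x x) 0 ≤ 0 := by
        rw [← eLow, ← h0]
        exact le_sup M _ n _ x hn
      have := (le_max_left _ _).trans h1
      linarith
    · intro i j hij
      have h0 := h (axSep i j) (Or.inr (Or.inr (Or.inr (Or.inr (Or.inr ⟨i, j, hij, rfl⟩)))))
      rw [eSep] at h0
      have := (le_max_left (1 - ‖M.const (i : ℕ) - M.const (j : ℕ)‖) 0).trans h0.le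
      linarith
  · rintro ⟨hB, hc⟩ φ hφ
    rcases hφ with ⟨n, rfl⟩ | ⟨r, n, rfl⟩ | ⟨n, rfl⟩ | ⟨n, rfl⟩ | ⟨n, rfl⟩ | ⟨i, j, hij, rfl⟩
    · refine sup_eq_zero M _ _ _ fun x _ => sup_eq_zero M _ _ _ fun y _ => sup_eq_zero M _ _ _ fun z _ => ?_
      rw [eAdd, hB.add]; simp
    · refine sup_eq_zero M _ _ _ fun x _ => sup_eq_zero M _ _ _ fun y _ => ?_
      rw [eSmul, hB.smul]; simp
    · refine sup_eq_zero M _ _ _ fun x _ => sup_eq_zero M _ _ _ fun y _ => ?_
      rw [eSymm, hB.symm x y]; simp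
    · refine sup_eq_zero M _ _ _ fun x _ => ?_
      rw [eUp]
      exact max_eq_right (by linarith [hB.up x])
    · refine sup_eq_zero M _ _ _ fun x _ => ?_
      rw [eLow]
      exact max_eq_right (by linarith [hB.low x])
    · rw [eSep]
      exact max_eq_right (by linarith [hc i j hij])

end Theory

section Ineq

theorem add_rpow_le (r : ℝ) (hr : 1 ≤ r) (a b : ℝ) (ha : 0 ≤ a) (hb : 0 ≤ b) :
    (a + b) ^ r ≤ 2 ^ (r - 1) * (a ^ r + b ^ r) := by
  lift a to NNReal using ha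
  lift b to NNReal using hb
  exact_mod_cast NNReal.rpow_add_le_mul_rpow_add_rpow a b hr

theorem two_term (r : ℝ) (hr : 1 ≤ r) (a b c d : ℝ) (ha : 0 ≤ a) (hb : 0 ≤ b) (hc : 0 ≤ c) (hd : 0 ≤ d)
    (h : a ^ r + b ^ r = 2 * (c ^ r + d ^ r)) : a + b ≤ 2 * (c + d) := by
  have h1 : (a + b) ^ r ≤ (2 * (c + d)) ^ r := by
    refine (add_rpow_le r hr a b ha hb).trans ?_
    rw [h, Real.mul_rpow (by norm_num) (by positivity)]
    have h2 : (2:ℝ) ^ (r - 1) * (2 * (c ^ r + d ^ r)) = 2 ^ r * (c ^ r + d ^ r) := by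
      rw [← mul_assoc]
      congr 1
      rw [Real.rpow_sub_one (by norm_num)]
      ring
    rw [h2]
    exact mul_le_mul_of_nonneg_left (Real.add_rpow_le_rpow_add hc hd hr) (by positivity)
  exact (Real.rpow_le_rpow_iff (by positivity) (by positivity) (by linarith)).1 h1

theorem sum_rpow_le {ι : Type} (s : Finset ι) (r : ℝ) (hr : 1 ≤ r) (a : ι → ℝ) (ha : ∀ i, 0 ≤ a i) :
    ∑ i ∈ s, a i ^ r ≤ (∑ i ∈ s, a i) ^ r := by
  classical
  induction s using Finset.induction_on with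
  | empty => simp [Real.zero_rpow (by linarith : r ≠ 0)]
  | insert i s hi ih =>
    rw [Finset.sum_insert hi, Finset.sum_insert hi]
    have h0 : 0 ≤ ∑ i ∈ s, a i := Finset.sum_nonneg fun i _ => ha i
    exact (add_le_add le_rfl ih).trans (Real.add_rpow_le_rpow_add (ha i) h0 hr)

end Ineq

section Space

open scoped InnerProductSpace ENNReal

/-- the Hilbert space -/
abbrev H : Type := lp (fun _ : ℕ => ℝ) 2

/-- its basis -/
noncomputable def bas : HilbertBasis ℕ ℝ H := HilbertBasis.ofRepr (LinearIsometryEquiv.refl ℝ H)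

instance : TopologicalSpace.SeparableSpace H := by
  have h1 : TopologicalSpace.IsSeparable (Set.range bas) := (Set.countable_range _).isSeparable
  have h2 : TopologicalSpace.IsSeparable (Submodule.span ℝ (Set.range bas) : Set H) := h1.span
  have h3 := h2.closure
  have h4 : closure (Submodule.span ℝ (Set.range bas) : Set H) = Set.univ := by
    rw [← Submodule.topologicalClosure_coe, bas.dense_span]
    rfl
  rw [h4] at h3
  exact TopologicalSpace.isSeparable_univ_iff.1 h3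

/-- `q = 2k/(k+1)` -/
noncomputable def qq (k : ℕ) : ℝ≥0∞ := ENNReal.ofReal (2 * (k + 1) / (k + 2))

theorem qq_toReal (k : ℕ) : (qq k).toReal = 2 * (k + 1) / (k + 2) := by
  unfold qq
  rw [ENNReal.toReal_ofReal]
  positivity

instance (k : ℕ) : Fact (1 ≤ qq k) := ⟨by
  unfold qq
  rw [ENNReal.one_le_ofReal, le_div_iff₀ (by positivity)]
  have : (0:ℝ) ≤ k := Nat.cast_nonneg k
  linarith⟩

/-- the space `ℓ_q^m(H)` -/
abbrev Sp (k m : ℕ) : Type := PiLp (qq k) (fun _ : Fin m => H)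

/-- `r = 2 / q = 1 + 1 / (k+1)` -/
noncomputable def rr (k : ℕ) : ℝ := 1 + 1 / (k + 1)

theorem one_le_rr (k : ℕ) : 1 ≤ rr k := by
  unfold rr
  have : (0:ℝ) ≤ 1 / (k + 1) := by positivity
  linarith

theorem qq_mul_rr (k : ℕ) : (qq k).toReal * rr k = 2 := by
  rw [qq_toReal, rr]
  field_simp
  ring

theorem qq_pos (k : ℕ) : 0 < (qq k).toReal := by rw [qq_toReal]; positivity

/-- the sum of the `q`-th powers -/
noncomputable def NN {k m : ℕ} (x : Sp k m) : ℝ := ∑ i, ‖x i‖ ^ (qq k).toReal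

theorem NN_nonneg {k m : ℕ} (x : Sp k m) : 0 ≤ NN x := Finset.sum_nonneg fun i _ => by positivity

theorem norm_sq {k m : ℕ} (x : Sp k m) : ‖x‖ ^ 2 = NN x ^ rr k := by
  rw [PiLp.norm_eq_sum (qq_pos k)]
  show (NN x ^ (1 / (qq k).toReal)) ^ 2 = _
  rw [← Real.rpow_natCast, ← Real.rpow_mul (NN_nonneg x)]
  congr 1
  have h := qq_mul_rr k
  have h2 := qq_pos k
  field_simp
  push_cast
  linarith

theorem pow_rr (k : ℕ) (a : ℝ) (ha : 0 ≤ a) : (a ^ (qq k).toReal) ^ rr k = a ^ 2 := by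
  rw [← Real.rpow_mul ha, qq_mul_rr]
  exact Real.rpow_two a

/-- the Hilbert form -/
noncomputable def ip {k m : ℕ} (x y : Sp k m) : ℝ := ∑ i, ⟪x i, y i⟫_ℝ

theorem ip_self {k m : ℕ} (x : Sp k m) : ip x x = ∑ i, ‖x i‖ ^ 2 := by
  unfold ip
  refine Finset.sum_congr rfl fun i _ => ?_
  exact real_inner_self_eq_norm_sq _

theorem ip_up {k m : ℕ} (x : Sp k m) : ip x x ≤ ‖x‖ ^ 2 := by
  rw [ip_self, norm_sq, NN]
  have := sum_rpow_le Finset.univ (rr k) (one_le_rr k) (fun i => ‖x i‖ ^ (qq k).toReal) (fun i => by positivity)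
  refine le_trans (le_of_eq ?_) this
  refine Finset.sum_congr rfl fun i _ => ?_
  rw [pow_rr k _ (norm_nonneg _)]

theorem ip_low {k m : ℕ} (x : Sp k m) : ‖x‖ ^ 2 ≤ (m : ℝ) ^ (1 / ((k : ℝ) + 1)) * ip x x := by
  rw [ip_self, norm_sq, NN]
  have := Real.rpow_sum_le_const_mul_sum_rpow_of_nonneg (s := Finset.univ) (f := fun i : Fin m => ‖x i‖ ^ (qq k).toReal)
    (one_le_rr k) (fun i _ => by positivity)
  refine this.trans (le_of_eq ?_)
  congr 1
  · simp [rr]
  · refine Finset.sum_congr rfl fun i _ => ?_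
    rw [pow_rr k _ (norm_nonneg _)]

theorem par_up {k m : ℕ} (x y : Sp k m) :
    ‖x + y‖ ^ 2 + ‖x - y‖ ^ 2 ≤ 2 * (4 : ℝ) ^ (1 / ((k : ℝ) + 1)) * (‖x‖ ^ 2 + ‖y‖ ^ 2) := by
  have h1 : NN (x + y) + NN (x - y) ≤ 2 * (NN x + NN y) := by
    unfold NN
    rw [← Finset.sum_add_distrib, ← Finset.sum_add_distrib, Finset.mul_sum]
    refine Finset.sum_le_sum fun i _ => ?_
    refine two_term (rr k) (one_le_rr k) _ _ _ _ (by positivity) (by positivity) (by positivity) (by positivity) ?_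
    rw [pow_rr k _ (norm_nonneg _), pow_rr k _ (norm_nonneg _), pow_rr k _ (norm_nonneg _), pow_rr k _ (norm_nonneg _)]
    have := parallelogram_law_with_norm ℝ (x i) (y i)
    simp only [PiLp.add_apply, PiLp.sub_apply]
    nlinarith [this]
  rw [norm_sq, norm_sq, norm_sq, norm_sq]
  have hr := one_le_rr k
  calc NN (x + y) ^ rr k + NN (x - y) ^ rr k ≤ (NN (x + y) + NN (x - y)) ^ rr k :=
        Real.add_rpow_le_rpow_add (NN_nonneg _) (NN_nonneg _) hr
    _ ≤ (2 * (NN x + NN y)) ^ rr k :=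
        Real.rpow_le_rpow (add_nonneg (NN_nonneg _) (NN_nonneg _)) h1 (by linarith)
    _ = 2 ^ rr k * (NN x + NN y) ^ rr k := by
        rw [Real.mul_rpow (by norm_num) (add_nonneg (NN_nonneg _) (NN_nonneg _))]
    _ ≤ 2 ^ rr k * (2 ^ (rr k - 1) * (NN x ^ rr k + NN y ^ rr k)) :=
        mul_le_mul_of_nonneg_left (add_rpow_le _ hr _ _ (NN_nonneg _) (NN_nonneg _)) (by positivity)
    _ = 2 * (4 : ℝ) ^ (1 / ((k : ℝ) + 1)) * (NN x ^ rr k + NN y ^ rr k) := by
        rw [← mul_assoc]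
        congr 1
        have e1 : rr k - 1 = 1 / ((k : ℝ) + 1) := by unfold rr; ring
        rw [e1]
        have e2 : (2:ℝ) ^ rr k = 2 * 2 ^ (1 / ((k : ℝ) + 1)) := by
          rw [rr, Real.rpow_add (by norm_num), Real.rpow_one]
        rw [e2, mul_assoc, ← Real.mul_rpow (by norm_num) (by norm_num)]
        norm_num

theorem pdef_le {k m : ℕ} (x y : Sp k m) (hx : ‖x‖ ≤ 1) (hy : ‖y‖ ≤ 1) :
    pdef x y ≤ 4 * ((4 : ℝ) ^ (1 / ((k : ℝ) + 1)) - 1) := by
  set K := (4 : ℝ) ^ (1 / ((k : ℝ) + 1)) with hK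
  have hK1 : 1 ≤ K := Real.one_le_rpow (by norm_num) (by positivity)
  have h1 := par_up x y
  have h2 := par_up (x + y) (x - y)
  have e1 : (x + y) + (x - y) = (2 : ℝ) • x := by rw [two_smul]; abel
  have e2 : (x + y) - (x - y) = (2 : ℝ) • y := by rw [two_smul]; abel
  rw [e1, e2, norm_smul, norm_smul] at h2
  rw [← hK] at h1 h2
  have hx2 : ‖x‖ ^ 2 ≤ 1 := by nlinarith [norm_nonneg x]
  have hy2 : ‖y‖ ^ 2 ≤ 1 := by nlinarith [norm_nonneg y]
  have hx0 : 0 ≤ ‖x‖ ^ 2 := by positivity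
  have hy0 : 0 ≤ ‖y‖ ^ 2 := by positivity
  have n2 : ‖(2:ℝ)‖ = 2 := by simp
  rw [n2] at h2
  set S := ‖x + y‖ ^ 2 + ‖x - y‖ ^ 2 with hS
  set T := ‖x‖ ^ 2 + ‖y‖ ^ 2 with hT
  have h2' : 4 * T ≤ 2 * K * S := by nlinarith
  have hT2 : T ≤ 2 := by linarith
  have hT0 : 0 ≤ T := by linarith
  have e3 : pdef x y = |S - 2 * T| := by
    unfold pdef
    congr 1
    rw [hS, hT]; ring
  rw [e3, abs_le]
  constructor
  · -- 2T - S ≤ 4 (K-1)
    have h3 : 2 * T ≤ K * S := by linarith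
    -- S ≥ 2T/K ≥ 2T (2-K)
    have h4 : (2 - K) * K ≤ 1 := by nlinarith [sq_nonneg (K - 1)]
    by_contra hcon
    push Not at hcon
    -- S < 2T - 4(K-1)
    have h5 : S < 2 * T - 4 * (K - 1) := by linarith
    have h6 : K * S < K * (2 * T - 4 * (K - 1)) := by
      apply mul_lt_mul_of_pos_left h5; linarith
    nlinarith
  · nlinarith

end Space
theorem exists_basis_nat (E : Type) [NormedAddCommGroup E] [InnerProductSpace ℝ E] [CompleteSpace E]
    [TopologicalSpace.SeparableSpace E] (hinf : ¬ FiniteDimensional ℝ E) :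
    Nonempty (HilbertBasis ℕ ℝ E) := by
  obtain ⟨w, b, hb⟩ := exists_hilbertBasis ℝ E
  have hon : Orthonormal ℝ (fun x : w => (x : E)) := by rw [← hb]; exact b.orthonormal
  have hcount : w.Countable := by
    have hd : w.PairwiseDisjoint (fun x => Metric.ball x (1/2)) := by
      intro x hx y hy hxy
      apply Metric.ball_disjoint_ball
      have h1 : ‖x‖ = 1 := hon.1 ⟨x, hx⟩
      have h2 : ‖y‖ = 1 := hon.1 ⟨y, hy⟩
      have h3 : ⟪x, y⟫_ℝ = 0 := hon.2 (i := ⟨x, hx⟩) (j := ⟨y, hy⟩) (by simpa using hxy)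
      have h4 : ‖x - y‖ ^ 2 = 2 := by
        rw [norm_sub_sq_real, h3, h1, h2]; norm_num
      rw [dist_eq_norm]
      nlinarith [norm_nonneg (x - y)]
    exact hd.countable_of_isOpen (fun x _ => Metric.isOpen_ball) (fun x _ => ⟨x, Metric.mem_ball_self (by norm_num)⟩)
  have hinfw : w.Infinite := by
    intro hfin
    apply hinf
    have : Fintype w := hfin.fintype
    exact (b.toOrthonormalBasis).toBasis.finiteDimensional_of_finite
  have : Countable w := hcount.to_subtype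
  have : Infinite w := hinfw.to_subtype
  obtain ⟨e⟩ := nonempty_equiv_of_countable (α := ℕ) (β := w)
  have hon' : Orthonormal ℝ (fun n : ℕ => ((e n : w) : E)) := hon.comp e e.injective
  refine ⟨HilbertBasis.mk hon' ?_⟩
  have hr : Set.range (fun n : ℕ => ((e n : w) : E)) = Set.range b := by
    rw [hb]
    exact e.surjective.range_comp (fun x : w => (x : E))
  rw [hr, b.dense_span]

theorem hilbert_equiv (E F : Type) [NormedAddCommGroup E] [InnerProductSpace ℝ E] [CompleteSpace E]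
    [TopologicalSpace.SeparableSpace E] [NormedAddCommGroup F] [InnerProductSpace ℝ F] [CompleteSpace F]
    [TopologicalSpace.SeparableSpace F] (hE : ¬ FiniteDimensional ℝ E) (hF : ¬ FiniteDimensional ℝ F) :
    Nonempty (E ≃ₗᵢ[ℝ] F) := by
  obtain ⟨b⟩ := exists_basis_nat E hE
  obtain ⟨c⟩ := exists_basis_nat F hF
  exact ⟨b.repr.trans c.repr.symm⟩

/-- copy of `V`, to be renormed -/
def Cp (V : Type) : Type := V

instance Cp.instAdd (V : Type) [AddCommGroup V] : AddCommGroup (Cp V) := inferInstanceAs (AddCommGroup V)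

instance Cp.instMod (V : Type) [AddCommGroup V] [Module ℝ V] : Module ℝ (Cp V) := inferInstanceAs (Module ℝ V)

/-- the identity map -/
def toCp (V : Type) [AddCommGroup V] [Module ℝ V] : V ≃ₗ[ℝ] Cp V := LinearEquiv.refl ℝ V

theorem renorm (V : Type) [NormedAddCommGroup V] [NormedSpace ℝ V] [CompleteSpace V]
    [TopologicalSpace.SeparableSpace V] (hinf : ¬ FiniteDimensional ℝ V) (B : V → V → ℝ)
    (hsymm : ∀ x y, B x y = B y x) (hadd : ∀ x y z, B (x + y) z = B x z + B y z)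
    (hsmul : ∀ (r : ℝ) x y, B (r • x) y = r * B x y) (c : ℝ) (hc : 0 < c)
    (hlow : ∀ x, c * ‖x‖ ^ 2 ≤ B x x) (hup : ∀ x, B x x ≤ ‖x‖ ^ 2) :
    ∃ (E : Type) (_ : NormedAddCommGroup E) (_ : InnerProductSpace ℝ E) (_ : CompleteSpace E)
      (_ : TopologicalSpace.SeparableSpace E), (¬ FiniteDimensional ℝ E) ∧ Nonempty (V ≃L[ℝ] E) := by
  let core : InnerProductSpace.Core ℝ (Cp V) :=
    { inner := fun x y => B ((toCp V).symm x) ((toCp V).symm y)
      conj_inner_symm := fun x y => hsymm _ _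
      re_inner_nonneg := fun x => by
        have := hlow ((toCp V).symm x)
        have h2 : 0 ≤ c * ‖(toCp V).symm x‖ ^ 2 := by positivity
        exact h2.trans this
      add_left := fun x y z => by
        simp only [map_add]
        exact hadd _ _ _
      smul_left := fun x y r => by
        simp only [map_smul]
        exact hsmul _ _ _
      definite := fun x hx => by
        have h1 := hlow ((toCp V).symm x)
        have hx' : B ((toCp V).symm x) ((toCp V).symm x) = 0 := hx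
        rw [hx'] at h1
        have h2 : ‖(toCp V).symm x‖ ^ 2 ≤ 0 := by
          by_contra h
          push Not at h
          have := mul_pos hc h
          linarith
        have h3 : ‖(toCp V).symm x‖ = 0 := by nlinarith [norm_nonneg ((toCp V).symm x)]
        have h4 := norm_eq_zero.1 h3
        simpa using h4 }
  let N : NormedAddCommGroup (Cp V) := core.toNormedAddCommGroup
  let I : InnerProductSpace ℝ (Cp V) := InnerProductSpace.ofCore core.toCore
  have hn : ∀ x : Cp V, ‖x‖ = Real.sqrt (B ((toCp V).symm x) ((toCp V).symm x)) := fun x => rfl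
  have h1 : ∀ x : V, ‖toCp V x‖ ≤ 1 * ‖x‖ := by
    intro x
    rw [hn, one_mul, Real.sqrt_le_left (norm_nonneg x)]
    simpa using hup x
  have h2 : ∀ x : Cp V, ‖(toCp V).symm x‖ ≤ (Real.sqrt c)⁻¹ * ‖x‖ := by
    intro x
    rw [hn]
    have h4 := Real.sqrt_le_sqrt (hlow ((toCp V).symm x))
    rw [Real.sqrt_mul hc.le, Real.sqrt_sq (norm_nonneg _)] at h4
    have h5 : 0 < Real.sqrt c := Real.sqrt_pos.2 hc
    rw [inv_mul_eq_div, le_div_iff₀ h5]
    linarith
  let E : V ≃L[ℝ] Cp V := (toCp V).toContinuousLinearEquivOfBounds 1 (Real.sqrt c)⁻¹ h1 h2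
  have hcomp : CompleteSpace (Cp V) :=
    (completeSpace_congr (e := E.toEquiv) E.isUniformEmbedding).1 inferInstance
  refine ⟨Cp V, N, I, hcomp, ?_, ?_, ⟨E⟩⟩
  · exact E.surjective.denseRange.separableSpace E.continuous
  · intro h
    exact hinf (E.toLinearEquiv.symm.finiteDimensional)


section Models

variable {V : Type} [NormedAddCommGroup V] [NormedSpace ℝ V]

theorem cs_of_form (B : V → V → ℝ) (hadd : ∀ x y z, B (x + y) z = B x z + B y z)
    (hsmul : ∀ (r : ℝ) x y, B (r • x) y = r * B x y) (hsymm : ∀ x y, B x y = B y x)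
    (hnn : ∀ x, 0 ≤ B x x) (hup : ∀ x, B x x ≤ ‖x‖ ^ 2) (x y : V) : |B x y| ≤ ‖x‖ * ‖y‖ := by
  have hadd' : ∀ x y z, B x (y + z) = B x y + B x z := fun x y z => by
    rw [hsymm, hadd, hsymm y, hsymm z]
  have hsmul' : ∀ (r : ℝ) x y, B x (r • y) = r * B x y := fun r x y => by
    rw [hsymm, hsmul, hsymm y]
  have hzero : ∀ y, B 0 y = 0 := fun y => by
    have := hsmul 0 0 y
    simpa using this
  have key : ∀ u w : V, ‖u‖ = 1 → ‖w‖ = 1 → B u w ≤ 1 := by
    intro u w hu hw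
    have h := hnn (u + (-1 : ℝ) • w)
    rw [hadd, hadd', hadd', hsmul, hsmul', hsmul, hsmul', hsymm w u] at h
    have h1 := hup u
    have h2 := hup w
    rw [hu] at h1
    rw [hw] at h2
    nlinarith
  by_cases hx : x = 0
  · subst hx; simp [hzero]
  by_cases hy : y = 0
  · subst hy; rw [hsymm]; simp [hzero]
  have hx' : 0 < ‖x‖ := norm_pos_iff.2 hx
  have hy' : 0 < ‖y‖ := norm_pos_iff.2 hy
  have n1 : ‖(‖x‖⁻¹ : ℝ) • x‖ = 1 := by rw [norm_smul, norm_inv, norm_norm, inv_mul_cancel₀ hx'.ne']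
  have n2 : ‖(‖y‖⁻¹ : ℝ) • y‖ = 1 := by rw [norm_smul, norm_inv, norm_norm, inv_mul_cancel₀ hy'.ne']
  have n3 : ‖(-‖y‖⁻¹ : ℝ) • y‖ = 1 := by rw [norm_smul, norm_neg, norm_inv, norm_norm, inv_mul_cancel₀ hy'.ne']
  have k1 := key _ _ n1 n2
  have k2 := key _ _ n1 n3
  rw [hsmul, hsmul'] at k1 k2
  have h3 : ‖x‖⁻¹ * (‖y‖⁻¹ * B x y) = B x y / (‖x‖ * ‖y‖) := by field_simp
  have h4 : ‖x‖⁻¹ * (-‖y‖⁻¹ * B x y) = -(B x y / (‖x‖ * ‖y‖)) := by field_simp
  rw [h3, div_le_one (by positivity)] at k1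
  rw [h4, neg_le, le_div_iff₀ (by positivity)] at k2
  rw [abs_le]
  constructor <;> linarith

/-- a structure from a form and a sequence of vectors -/
def mkStr (B : V → V → ℝ) (hadd : ∀ x y z, B (x + y) z = B x z + B y z)
    (hsmul : ∀ (r : ℝ) x y, B (r • x) y = r * B x y) (hsymm : ∀ x y, B x y = B y x)
    (hnn : ∀ x, 0 ≤ B x x) (hup : ∀ x, B x x ≤ ‖x‖ ^ 2) (e : ℕ → V) (he : ∀ i, ‖e i‖ ≤ 1) : Structure S0 V where
  const := e
  norm_const_le := fun c => by simpa [S0] using he c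
  pred := fun _ v => B (v (0 : Fin 2)) (v (1 : Fin 2))
  pred_bound := by
    intro _ n v hv
    refine (cs_of_form B hadd hsmul hsymm hnn hup _ _).trans ?_
    exact mul_le_mul (hv _) (hv _) (norm_nonneg _) (Nat.cast_nonneg n)
  pred_uniform := by
    intro _ n ε hε v w hv hw hvw
    have hadd' : ∀ x y z, B x (y + z) = B x y + B x z := fun x y z => by
      rw [hsymm, hadd, hsymm y, hsymm z]
    have hsub : ∀ x y z, B (x - y) z = B x z - B y z := fun x y z => by
      have := hadd (x - y) y z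
      rw [sub_add_cancel] at this
      linarith
    have hsub' : ∀ x y z, B x (y - z) = B x y - B x z := fun x y z => by
      have := hadd' x (y - z) z
      rw [sub_add_cancel] at this
      linarith
    have e1 : B (v (0 : Fin 2)) (v (1 : Fin 2)) - B (w (0 : Fin 2)) (w (1 : Fin 2)) =
        B (v (0 : Fin 2) - w (0 : Fin 2)) (v (1 : Fin 2)) + B (w (0 : Fin 2)) (v (1 : Fin 2) - w (1 : Fin 2)) := by
      rw [hsub, hsub']; ring
    rw [e1]
    have h1 := cs_of_form B hadd hsmul hsymm hnn hup (v (0 : Fin 2) - w (0 : Fin 2)) (v (1 : Fin 2))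
    have h2 := cs_of_form B hadd hsmul hsymm hnn hup (w (0 : Fin 2)) (v (1 : Fin 2) - w (1 : Fin 2))
    have h3 : ‖v (0 : Fin 2) - w (0 : Fin 2)‖ < ε / (2 * n + 1) := hvw (0 : Fin 2)
    have h4 : ‖v (1 : Fin 2) - w (1 : Fin 2)‖ < ε / (2 * n + 1) := hvw (1 : Fin 2)
    have h5 : ‖v (1 : Fin 2)‖ ≤ n := hv (1 : Fin 2)
    have h6 : ‖w (0 : Fin 2)‖ ≤ n := hw (0 : Fin 2)
    have h7 : ‖v (0 : Fin 2) - w (0 : Fin 2)‖ * ‖v (1 : Fin 2)‖ ≤ ε / (2 * n + 1) * n :=
      mul_le_mul h3.le h5 (norm_nonneg _) (by positivity)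
    have h8 : ‖w (0 : Fin 2)‖ * ‖v (1 : Fin 2) - w (1 : Fin 2)‖ ≤ n * (ε / (2 * n + 1)) :=
      mul_le_mul h6 h4.le (norm_nonneg _) (Nat.cast_nonneg n)
    have h9 : ε / (2 * n + 1) * n + n * (ε / (2 * n + 1)) ≤ ε := by
      have h10 : (0:ℝ) < 2 * n + 1 := by positivity
      have h11 : ε / (2 * n + 1) * n + n * (ε / (2 * n + 1)) = ε * (2 * n) / (2 * n + 1) := by
        field_simp
        ring
      rw [h11, div_le_iff₀ h10]
      nlinarith
    calc _ ≤ |B (v (0 : Fin 2) - w (0 : Fin 2)) (v (1 : Fin 2))| + |B (w (0 : Fin 2)) (v (1 : Fin 2) - w (1 : Fin 2))| := abs_add_le _ _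
      _ ≤ ε := by linarith

theorem not_finiteDimensional (M : Structure S0 V) (hM : Models M T0) : ¬ FiniteDimensional ℝ V := by
  intro hfin
  have hsep := ((models_iff M).1 hM).2
  have hb : ∀ i : ℕ, M.const i ∈ Metric.closedBall (0 : V) 1 := by
    intro i
    have := M.norm_const_le i
    simpa [S0] using this
  have : ProperSpace V := FiniteDimensional.proper ℝ V
  obtain ⟨a, _, φ, hφ, hlim⟩ := (isCompact_closedBall (0 : V) 1).tendsto_subseq (x := fun i : ℕ => M.const i) hb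
  obtain ⟨N, hN⟩ := Metric.cauchySeq_iff'.1 hlim.cauchySeq 1 one_pos
  have h1 := hN (N + 1) (Nat.le_succ N)
  have h2 := hsep (φ (N + 1)) (φ N) (hφ (Nat.lt_succ_self N)).ne'
  rw [dist_eq_norm] at h1
  simp only [Function.comp_apply] at h1
  linarith

theorem exists_form (M : Structure S0 V) (hM : Models M T0) :
    ∃ (B : V → V → ℝ) (c : ℝ), 0 < c ∧ (∀ x y, B x y = B y x) ∧ (∀ x y z, B (x + y) z = B x z + B y z) ∧
      (∀ (r : ℝ) x y, B (r • x) y = r * B x y) ∧ (∀ x, c * ‖x‖ ^ 2 ≤ B x x) ∧ ∀ x, B x x ≤ ‖x‖ ^ 2 := by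
  have hB := ((models_iff M).1 hM).1
  by_cases hδ : 0 < (par 0).eval M Fin.elim0
  · exact ⟨form M, min ((par 0).eval M Fin.elim0) 1, lt_min hδ one_pos, hB.symm, hB.add, hB.smul, hB.low, hB.up⟩
  · have h0 : (par 0).eval M Fin.elim0 = 0 := le_antisymm (not_lt.1 hδ) (par_nonneg M _)
    have h1 : ∀ x y : V, ‖x‖ ≤ 1 → ‖y‖ ≤ 1 → pdef x y = 0 := fun x y hx hy =>
      le_antisymm (h0 ▸ le_par M _ hx hy) (abs_nonneg _)
    have h2 : ∀ x y : V, ‖x + y‖ ^ 2 + ‖x - y‖ ^ 2 = 2 * (‖x‖ ^ 2 + ‖y‖ ^ 2) := by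
      intro x y
      set R : ℝ := ‖x‖ + ‖y‖ + 1 with hR
      have hR0 : 0 < R := by positivity
      have hx : ‖(R⁻¹ : ℝ) • x‖ ≤ 1 := by
        rw [norm_smul, norm_inv, Real.norm_of_nonneg hR0.le, inv_mul_le_iff₀ hR0]
        rw [hR]; linarith [norm_nonneg y]
      have hy : ‖(R⁻¹ : ℝ) • y‖ ≤ 1 := by
        rw [norm_smul, norm_inv, Real.norm_of_nonneg hR0.le, inv_mul_le_iff₀ hR0]
        rw [hR]; linarith [norm_nonneg x]
      have h3 := abs_eq_zero.1 (h1 _ _ hx hy)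
      rw [← smul_add, ← smul_sub] at h3
      simp only [norm_smul, norm_inv, Real.norm_of_nonneg hR0.le, mul_pow] at h3
      have h4 : (R⁻¹) ^ 2 * (‖x + y‖ ^ 2 + ‖x - y‖ ^ 2 - 2 * ‖x‖ ^ 2 - 2 * ‖y‖ ^ 2) = 0 := by linarith
      have h5 : (R⁻¹) ^ 2 ≠ 0 := by positivity
      have h6 := (mul_eq_zero.1 h4).resolve_left h5
      linarith
    have h3 : ∀ x y : V, ‖x + y‖ * ‖x + y‖ + ‖x - y‖ * ‖x - y‖ = 2 * (‖x‖ * ‖x‖ + ‖y‖ * ‖y‖) := by
      intro x y
      have := h2 x y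
      nlinarith
    let I : InnerProductSpace ℝ V := InnerProductSpace.ofNorm ℝ h3
    refine ⟨fun x y => I.inner x y, 1, one_pos, fun x y => ?_, fun x y z => ?_, fun r x y => ?_, fun x => ?_, fun x => ?_⟩
    · have := I.conj_inner_symm x y
      simpa using this.symm
    · exact I.add_left x y z
    · exact I.smul_left x y r
    · have := I.norm_sq_eq_re_inner x
      rw [one_mul]
      exact this.le
    · have := I.norm_sq_eq_re_inner x
      exact this.ge

end Models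

section Main

open scoped InnerProductSpace

theorem categorical : SeparablyCategorical T0 := by
  intro V W _ _ _ _ _ _ _ _ M N hM hN
  obtain ⟨B, c, hc, b1, b2, b3, b4, b5⟩ := exists_form M hM
  obtain ⟨B', c', hc', b1', b2', b3', b4', b5'⟩ := exists_form N hN
  obtain ⟨E, _, _, _, _, hE, ⟨e⟩⟩ := renorm V (not_finiteDimensional M hM) B b1 b2 b3 c hc b4 b5
  obtain ⟨F, _, _, _, _, hF, ⟨f⟩⟩ := renorm W (not_finiteDimensional N hN) B' b1' b2' b3' c' hc' b4' b5'
  obtain ⟨g⟩ := hilbert_equiv E F hE hF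
  exact ⟨(e.trans g.toContinuousLinearEquiv).trans f.symm⟩

theorem bas_sep (i j : ℕ) (h : i ≠ j) : 1 ≤ ‖bas i - bas j‖ := by
  have h1 : ‖bas i‖ = 1 := bas.orthonormal.1 i
  have h2 : ‖bas j‖ = 1 := bas.orthonormal.1 j
  have h3 : ⟪bas i, bas j⟫_ℝ = 0 := bas.orthonormal.2 h
  have h4 : ‖bas i - bas j‖ ^ 2 = 2 := by
    rw [norm_sub_sq_real, h3, h1, h2]; norm_num
  nlinarith [norm_nonneg (bas i - bas j)]

/-- the Hilbert model -/
noncomputable def MH : Structure S0 H :=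
  mkStr (fun x y => ⟪x, y⟫_ℝ) (fun x y z => inner_add_left x y z) (fun r x y => real_inner_smul_left x y r)
    (fun x y => real_inner_comm y x) (fun x => real_inner_self_nonneg) (fun x => (real_inner_self_eq_norm_sq x).le)
    (fun i => bas i) (fun i => (bas.orthonormal.1 i).le)

theorem MH_models : Models MH T0 := by
  have hf : ∀ x y, form MH x y = ⟪x, y⟫_ℝ := fun x y => rfl
  have hp : (par 0).eval MH Fin.elim0 = 0 := by
    refine le_antisymm (par_le _ _ _ fun x y _ _ => ?_) (par_nonneg _ _)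
    have := parallelogram_law_with_norm ℝ x y
    unfold pdef
    refine le_of_eq (abs_eq_zero.2 ?_)
    nlinarith
  rw [models_iff, hp]
  refine ⟨⟨?_, ?_, ?_, ?_, ?_⟩, fun i j hij => bas_sep i j hij⟩
  · intro x y z; simp only [hf]; exact inner_add_left x y z
  · intro r x y; simp only [hf]; exact real_inner_smul_left x y r
  · intro x y; simp only [hf]; exact real_inner_comm y x
  · intro x; simp only [hf]; exact (real_inner_self_eq_norm_sq x).le
  · intro x; simp only [hf]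
    have : min (0:ℝ) 1 = 0 := by norm_num
    rw [this, zero_mul]
    exact real_inner_self_nonneg

theorem ip_add {k m : ℕ} (x y z : Sp k m) : ip (x + y) z = ip x z + ip y z := by
  unfold ip
  rw [← Finset.sum_add_distrib]
  refine Finset.sum_congr rfl fun i _ => ?_
  rw [PiLp.add_apply, inner_add_left]

theorem ip_smul {k m : ℕ} (r : ℝ) (x y : Sp k m) : ip (r • x) y = r * ip x y := by
  unfold ip
  rw [Finset.mul_sum]
  refine Finset.sum_congr rfl fun i _ => ?_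
  rw [PiLp.smul_apply, real_inner_smul_left]

theorem ip_symm {k m : ℕ} (x y : Sp k m) : ip x y = ip y x := by
  unfold ip
  refine Finset.sum_congr rfl fun i _ => ?_
  exact real_inner_comm _ _

theorem ip_nonneg {k m : ℕ} (x : Sp k m) : 0 ≤ ip x x := by
  rw [ip_self]; exact Finset.sum_nonneg fun i _ => by positivity

/-- the model on `ℓ_q^m(H)` -/
noncomputable def MS (k m : ℕ) (i0 : Fin m) : Structure S0 (Sp k m) :=
  mkStr ip ip_add ip_smul ip_symm ip_nonneg ip_up (fun i => PiLp.single (qq k) i0 (bas i))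
    (fun i => by rw [PiLp.norm_single]; exact (bas.orthonormal.1 i).le)

theorem MS_models (k m : ℕ) (i0 : Fin m)
    (h : 4 * ((4 : ℝ) ^ (1 / ((k : ℝ) + 1)) - 1) * (m : ℝ) ^ (1 / ((k : ℝ) + 1)) ≤ 1) : Models (MS k m i0) T0 := by
  have hf : ∀ x y, form (MS k m i0) x y = ip x y := fun x y => rfl
  have hp : (par 0).eval (MS k m i0) Fin.elim0 ≤ 4 * ((4 : ℝ) ^ (1 / ((k : ℝ) + 1)) - 1) :=
    par_le _ _ _ fun x y hx hy => pdef_le x y hx hy
  rw [models_iff]
  refine ⟨⟨?_, ?_, ?_, ?_, ?_⟩, fun i j hij => ?_⟩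
  · intro x y z; simp only [hf]; exact ip_add x y z
  · intro r x y; simp only [hf]; exact ip_smul r x y
  · intro x y; simp only [hf]; exact ip_symm x y
  · intro x; simp only [hf]; exact ip_up x
  · intro x
    simp only [hf]
    set δ := (par 0).eval (MS k m i0) Fin.elim0 with hδ
    have h1 := ip_low x
    have h2 : min δ 1 ≤ 4 * ((4 : ℝ) ^ (1 / ((k : ℝ) + 1)) - 1) := (min_le_left _ _).trans hp
    have hK : 0 ≤ 4 * ((4 : ℝ) ^ (1 / ((k : ℝ) + 1)) - 1) := by
      have : (1:ℝ) ≤ (4 : ℝ) ^ (1 / ((k : ℝ) + 1)) := Real.one_le_rpow (by norm_num) (by positivity)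
      linarith
    calc min δ 1 * ‖x‖ ^ 2 ≤ 4 * ((4 : ℝ) ^ (1 / ((k : ℝ) + 1)) - 1) * ‖x‖ ^ 2 :=
          mul_le_mul_of_nonneg_right h2 (by positivity)
      _ ≤ 4 * ((4 : ℝ) ^ (1 / ((k : ℝ) + 1)) - 1) * ((m : ℝ) ^ (1 / ((k : ℝ) + 1)) * ip x x) :=
          mul_le_mul_of_nonneg_left h1 hK
      _ = (4 * ((4 : ℝ) ^ (1 / ((k : ℝ) + 1)) - 1) * (m : ℝ) ^ (1 / ((k : ℝ) + 1))) * ip x x := by ring
      _ ≤ 1 * ip x x := mul_le_mul_of_nonneg_right h (ip_nonneg x)
      _ = ip x x := one_mul _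
  · show 1 ≤ ‖(PiLp.single (qq k) i0 (bas i) : Sp k m) - (PiLp.single (qq k) i0 (bas j) : Sp k m)‖
    have h1 : (PiLp.single (qq k) i0 (bas i) : Sp k m) - (PiLp.single (qq k) i0 (bas j) : Sp k m) =
        PiLp.single (qq k) i0 (bas i - bas j) := (PiLp.single_sub (qq k) i0).symm
    rw [h1, PiLp.norm_single]
    exact bas_sep i j hij

/-- signs making the sum small -/
theorem exists_signs {m : ℕ} (w : Fin m → H) :
    ∃ ε : Fin m → ℝ, (∀ i, ε i = 1 ∨ ε i = -1) ∧ ‖∑ i, ε i • w i‖ ^ 2 ≤ ∑ i, ‖w i‖ ^ 2 := by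
  induction m with
  | zero => exact ⟨fun _ => 1, fun _ => Or.inl rfl, by simp⟩
  | succ m ih =>
    obtain ⟨ε, h1, h2⟩ := ih (fun i => w i.castSucc)
    set S := ∑ i, ε i • w (Fin.castSucc i) with hS
    by_cases h : ⟪S, w (Fin.last m)⟫_ℝ ≤ 0
    · refine ⟨Fin.snoc ε 1, fun i => ?_, ?_⟩
      · refine Fin.lastCases (by simp) (fun j => by simpa using h1 j) i
      · rw [Fin.sum_univ_castSucc, Fin.sum_univ_castSucc]
        simp only [Fin.snoc_castSucc, Fin.snoc_last, one_smul]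
        rw [← hS, norm_add_sq_real]
        linarith
    · refine ⟨Fin.snoc ε (-1), fun i => ?_, ?_⟩
      · refine Fin.lastCases (by simp) (fun j => by simpa using h1 j) i
      · rw [Fin.sum_univ_castSucc, Fin.sum_univ_castSucc]
        simp only [Fin.snoc_castSucc, Fin.snoc_last, neg_smul, one_smul]
        rw [← hS, ← sub_eq_add_neg, norm_sub_sq_real]
        push Not at h
        linarith

theorem distance {k m : ℕ} (hm : 0 < m) (S : Sp k m ≃L[ℝ] H) :
    (m : ℝ) ^ (1 / ((k : ℝ) + 1)) ≤ (‖(S : Sp k m →L[ℝ] H)‖ * ‖(S.symm : H →L[ℝ] Sp k m)‖) ^ 2 := by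
  obtain ⟨ε, h1, h2⟩ := exists_signs (fun i : Fin m => S (PiLp.single (qq k) i (bas 0)))
  set x : Sp k m := ∑ i, ε i • PiLp.single (qq k) i (bas 0) with hx
  have hSx : S x = ∑ i, ε i • S (PiLp.single (qq k) i (bas 0)) := by
    rw [hx, map_sum]
    simp only [map_smul]
  have hxi : ∀ i, ‖x i‖ = 1 := by
    intro i
    have : x i = ε i • bas 0 := by
      rw [hx]
      simp only [WithLp.ofLp_sum, WithLp.ofLp_smul, PiLp.ofLp_single, Finset.sum_apply, Pi.smul_apply]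
      rw [Finset.sum_eq_single i]
      · rw [Pi.single_eq_same]
      · intro j _ hj
        rw [Pi.single_eq_of_ne hj.symm, smul_zero]
      · intro h; exact absurd (Finset.mem_univ i) h
    rw [this, norm_smul, bas.orthonormal.1 0, mul_one]
    rcases h1 i with h | h <;> simp [h]
  have hnx : ‖x‖ ^ 2 = (m : ℝ) * (m : ℝ) ^ (1 / ((k : ℝ) + 1)) := by
    rw [norm_sq, NN]
    simp only [hxi, Real.one_rpow, Finset.sum_const, Finset.card_univ, Fintype.card_fin, nsmul_eq_mul, mul_one]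
    rw [rr, Real.rpow_add (by exact_mod_cast hm), Real.rpow_one]
  have h3 : ‖S x‖ ^ 2 ≤ m * ‖(S : Sp k m →L[ℝ] H)‖ ^ 2 := by
    rw [hSx]
    refine h2.trans ?_
    have : ∀ i : Fin m, ‖S (PiLp.single (qq k) i (bas 0))‖ ^ 2 ≤ ‖(S : Sp k m →L[ℝ] H)‖ ^ 2 := by
      intro i
      have h4 := (S : Sp k m →L[ℝ] H).le_opNorm (PiLp.single (qq k) i (bas 0))
      rw [PiLp.norm_single, bas.orthonormal.1 0, mul_one] at h4
      exact pow_le_pow_left₀ (norm_nonneg _) h4 2
    calc ∑ i, ‖S (PiLp.single (qq k) i (bas 0))‖ ^ 2 ≤ ∑ _i : Fin m, ‖(S : Sp k m →L[ℝ] H)‖ ^ 2 :=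
          Finset.sum_le_sum fun i _ => this i
      _ = m * ‖(S : Sp k m →L[ℝ] H)‖ ^ 2 := by simp
  have h4 : ‖x‖ ≤ ‖(S.symm : H →L[ℝ] Sp k m)‖ * ‖S x‖ := by
    have := (S.symm : H →L[ℝ] Sp k m).le_opNorm (S x)
    simpa using this
  have h5 : ‖x‖ ^ 2 ≤ ‖(S.symm : H →L[ℝ] Sp k m)‖ ^ 2 * (m * ‖(S : Sp k m →L[ℝ] H)‖ ^ 2) := by
    calc ‖x‖ ^ 2 ≤ (‖(S.symm : H →L[ℝ] Sp k m)‖ * ‖S x‖) ^ 2 := pow_le_pow_left₀ (norm_nonneg _) h4 2
      _ = ‖(S.symm : H →L[ℝ] Sp k m)‖ ^ 2 * ‖S x‖ ^ 2 := by ring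
      _ ≤ _ := mul_le_mul_of_nonneg_left h3 (by positivity)
  rw [hnx] at h5
  have hm' : (0:ℝ) < m := by exact_mod_cast hm
  have h6 : (m : ℝ) * (m : ℝ) ^ (1 / ((k : ℝ) + 1)) ≤
      m * (‖(S : Sp k m →L[ℝ] H)‖ * ‖(S.symm : H →L[ℝ] Sp k m)‖) ^ 2 := by
    calc _ ≤ _ := h5
      _ = _ := by ring
  exact le_of_mul_le_mul_left h6 hm'

theorem exists_k (N : ℕ) : ∃ k : ℕ, 4 * ((4 : ℝ) ^ (1 / ((k : ℝ) + 1)) - 1) * N ≤ 1 := by
  have h1 : Filter.Tendsto (fun k : ℕ => 4 * ((4 : ℝ) ^ (1 / ((k : ℝ) + 1)) - 1) * N) Filter.atTop (nhds 0) := by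
    have h2 : Filter.Tendsto (fun k : ℕ => 1 / ((k : ℝ) + 1)) Filter.atTop (nhds 0) :=
      tendsto_one_div_add_atTop_nhds_zero_nat
    have h3 : Filter.Tendsto (fun k : ℕ => (4 : ℝ) ^ (1 / ((k : ℝ) + 1))) Filter.atTop (nhds 1) := by
      have := (Real.continuous_const_rpow (by norm_num : (4:ℝ) ≠ 0)).tendsto 0
      rw [Real.rpow_zero] at this
      exact this.comp h2
    have h4 := ((h3.sub_const 1).const_mul 4).mul_const (N : ℝ)
    simpa using h4
  obtain ⟨k, hk⟩ := (h1.eventually (gt_mem_nhds one_pos)).exists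
  exact ⟨k, hk.le⟩

theorem unbounded (C : ℝ) : ¬ DistortionAtMost T0 C := by
  intro h
  obtain ⟨N, hN⟩ := exists_nat_gt (max (C ^ 2) 1)
  obtain ⟨k, hk⟩ := exists_k N
  have hN1 : (1:ℝ) < N := (le_max_right _ _).trans_lt hN
  have hN2 : C ^ 2 < N := (le_max_left _ _).trans_lt hN
  have hNpos : 0 < N := by
    have : (0:ℝ) < N := by linarith
    exact_mod_cast this
  have hm : 0 < N ^ (k + 1) := Nat.pow_pos hNpos
  have hpow : ((N ^ (k + 1) : ℕ) : ℝ) ^ (1 / ((k : ℝ) + 1)) = N := by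
    push_cast
    rw [← Real.rpow_natCast, ← Real.rpow_mul (by positivity)]
    push_cast
    rw [mul_one_div_cancel (by positivity), Real.rpow_one]
  have hM := MS_models k (N ^ (k + 1)) ⟨0, hm⟩ (by rw [hpow]; exact hk)
  obtain ⟨S, hS⟩ := h (Sp k (N ^ (k + 1))) H (MS k (N ^ (k + 1)) ⟨0, hm⟩) MH hM MH_models
  have hd := distance hm S
  rw [hpow] at hd
  have h0 : 0 ≤ ‖(S : Sp k (N ^ (k + 1)) →L[ℝ] H)‖ * ‖(S.symm : H →L[ℝ] Sp k (N ^ (k + 1)))‖ := by positivity
  have h1 := pow_le_pow_left₀ h0 hS 2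
  linarith

/-- The uniform isomorphism constant fails. -/
theorem main_theorem : ∃ (L : Signature) (T : Set (Formula L 0)),
    SeparablyCategorical T ∧ ∀ C : ℝ, ¬ DistortionAtMost T C :=
  ⟨S0, T0, categorical, unbounded⟩

end Main

end Pool.Agent.Helper302.CL
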