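import Mathlib

open Nat.Partrec (Code)
open FirstOrder FirstOrder.Language Encodable

namespace Pool.Agent.Helper302.Jump

/-- The initial segment `[a 0, ..., a (n-1)]` of `a`. -/
def init (a : ℕ → ℕ) (n : ℕ) : List ℕ := (List.range n).map a

/-- The characteristic function of a set of natural numbers. -/
noncomputable def chi (A : Set ℕ) (n : ℕ) : ℕ := open Classical in if n ∈ A then 1 else 0

/-- The Turing jump of `A`: the set of all `⟨c, x⟩` such that, for some `n`, the program with index `c`
halts on `⟨code of the initial segment of length n of A, x⟩`.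
(Lemma jump_spec in JumpMain.lean: `B` is c.e. in `A` iff `B` is many-one reducible to `jump A`.) -/
def jump (A : Set ℕ) : Set ℕ :=
  {p | ∃ n, ((Denumerable.ofNat Code p.unpair.1).eval
    (Nat.pair (Encodable.encode (init (chi A) n)) p.unpair.2)).Dom}

/-- The `n`-th Turing jump of the empty set. -/
def J (n : ℕ) : Set ℕ := jump^[n] ∅

/-- The set `{⟨n, x⟩ : x ∈ ∅^(n)}`, of Turing degree `0^(ω)`. -/
def omegaJump : Set ℕ := {p | p.unpair.2 ∈ J p.unpair.1}

/-- Turing reducibility of sets of natural numbers. -/
def SetLE (A B : Set ℕ) : Prop := TuringReducible (chi A : ℕ →. ℕ) (chi B : ℕ →. ℕ)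

/-- Two sets of natural numbers have the same Turing degree. -/
def SameDegree (A B : Set ℕ) : Prop := TuringEquivalent (chi A : ℕ →. ℕ) (chi B : ℕ →. ℕ)

section ModelTheory

variable {L : FirstOrder.Language.{0, 0}}
variable [Encodable (Σ n, L.Functions n)] [Encodable (Σ n, L.Relations n)]

/-- Goedel number of a term with variables `x_0, ..., x_{n-1}`. -/
def termCode {n : ℕ} : L.Term (Empty ⊕ Fin n) → ℕ
  | .var (.inl e) => e.elim
  | .var (.inr i) => Nat.pair 0 i
  | .func (l := m) f ts =>
      Nat.pair 1 (Nat.pair (encode (⟨m, f⟩ : Σ k, L.Functions k)) (encode (List.ofFn fun i => termCode (ts i))))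

/-- Goedel number of a formula with free variables `x_0, ..., x_{n-1}`. -/
def formulaCode : ∀ {n : ℕ}, L.BoundedFormula Empty n → ℕ
  | _, .falsum => Nat.pair 0 0
  | _, .equal t₁ t₂ => Nat.pair 1 (Nat.pair (termCode t₁) (termCode t₂))
  | _, .rel (l := m) R ts =>
      Nat.pair 2 (Nat.pair (encode (⟨m, R⟩ : Σ k, L.Relations k)) (encode (List.ofFn fun i => termCode (ts i))))
  | _, .imp φ ψ => Nat.pair 3 (Nat.pair (formulaCode φ) (formulaCode ψ))
  | _, .all φ => Nat.pair 4 (formulaCode φ)

/-- The set of Goedel numbers of the sentences in `T`. -/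
def theoryCodes (T : L.Theory) : Set ℕ := {k | ∃ φ ∈ T, k = formulaCode φ}

/-- The atomic diagram of a structure whose universe is a set `U` of natural numbers: the codes of all
facts `f(x_1, ..., x_n) = y` and `R(x_1, ..., x_n)` that hold in the structure. -/
def atomicDiagram (L : FirstOrder.Language.{0, 0}) [Encodable (Σ n, L.Functions n)] [Encodable (Σ n, L.Relations n)]
    (U : Set ℕ) [L.Structure U] : Set ℕ :=
  {k | (∃ (n : ℕ) (f : L.Functions n) (xs : Fin n → U),
          k = Nat.pair 0 (Nat.pair (encode (⟨n, f⟩ : Σ m, L.Functions m))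
            (Nat.pair (encode (List.ofFn fun i => (xs i : ℕ))) ((Structure.funMap f xs : U) : ℕ)))) ∨
       (∃ (n : ℕ) (r : L.Relations n) (xs : Fin n → U),
          k = Nat.pair 1 (Nat.pair (encode (⟨n, r⟩ : Σ m, L.Relations m))
            (encode (List.ofFn fun i => (xs i : ℕ)))) ∧ Structure.RelMap r xs)}

/-- The signature `L`, with its symbols coded by natural numbers, is computable: it is decidable which
numbers are codes of function symbols (relation symbols), and the arity is computable. -/
def ComputableSignature (L : FirstOrder.Language.{0, 0}) [Encodable (Σ n, L.Functions n)]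
    [Encodable (Σ n, L.Relations n)] : Prop :=
  (∃ ar : ℕ → Option ℕ, Computable ar ∧
    ∀ k n, ar k = some n ↔ ∃ f : L.Functions n, encode (⟨n, f⟩ : Σ m, L.Functions m) = k) ∧
  (∃ ar : ℕ → Option ℕ, Computable ar ∧
    ∀ k n, ar k = some n ↔ ∃ R : L.Relations n, encode (⟨n, R⟩ : Σ m, L.Relations m) = k)

/-- `T` has a computable model: a model whose universe is a nonempty computable set of natural numbers
and whose atomic diagram is computable. -/
def HasComputableModel (T : L.Theory) : Prop :=
  ∃ (U : Set ℕ) (_ : L.Structure U), U.Nonempty ∧ ComputablePred (fun k => k ∈ U) ∧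
    ComputablePred (fun k => k ∈ atomicDiagram L U) ∧ U ⊨ T

end ModelTheory

end Pool.Agent.Helper302.Jump
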