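import Pool.Agent.Helper302.JumpDefs

open Nat.Partrec (Code)
open Computable

namespace Pool.Agent.Helper302.Jump

theorem init_prefix (a : ℕ → ℕ) {m n : ℕ} (h : m ≤ n) : init a m <+: init a n := by
  obtain ⟨k, rfl⟩ := Nat.exists_eq_add_of_le h
  unfold init
  rw [List.range_add, List.map_append]
  exact List.prefix_append _ _

theorem getElem?_init (a : ℕ → ℕ) (n k : ℕ) : (init a n)[k]? = if k < n then some (a k) else none := by
  unfold init
  by_cases h : k < n
  · simp [h]
  · simp [h]

theorem length_init (a : ℕ → ℕ) (n : ℕ) : (init a n).length = n := by simp [init]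

theorem init_succ (a : ℕ → ℕ) (n : ℕ) : init a (n+1) = init a n ++ [a n] := by
  simp [init, List.range_succ]

/-- The properties of a functional approximating `f` along initial segments of `a`. -/
structure Approx (a : ℕ → ℕ) (f : ℕ → Part ℕ) (F : List ℕ → ℕ → Part ℕ) : Prop where
  part : Partrec₂ (α := List ℕ) (β := ℕ) (σ := ℕ) F
  mono : ∀ σ τ, σ <+: τ → ∀ k y, y ∈ F σ k → y ∈ F τ k
  spec : ∀ k y, y ∈ f k ↔ ∃ n, y ∈ F (init a n) k

theorem Approx.mono_init {a : ℕ → ℕ} {f F} (h : Approx a f F) {m n : ℕ} (hmn : m ≤ n) {k y}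
    (hy : y ∈ F (init a m) k) : y ∈ F (init a n) k :=
  h.mono _ _ (init_prefix a hmn) _ _ hy

theorem approx_of_partrec {a : ℕ → ℕ} {f : ℕ →. ℕ} (hf : Nat.Partrec f) :
    Approx a f (fun _ k => f k) where
  part := (Partrec.nat_iff.2 hf).comp Computable.snd
  mono := fun _ _ _ _ _ h => h
  spec := fun k y => by simp

theorem nf {a : ℕ → ℕ} {f : ℕ →. ℕ} (hf : Nat.RecursiveIn {(a : ℕ →. ℕ)} f) :
    ∃ F : List ℕ → ℕ → Part ℕ, Approx a f F := by
  induction hf with
  | zero => exact ⟨_, approx_of_partrec Nat.Partrec.zero⟩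
  | succ => exact ⟨_, approx_of_partrec Nat.Partrec.succ⟩
  | left => exact ⟨_, approx_of_partrec Nat.Partrec.left⟩
  | right => exact ⟨_, approx_of_partrec Nat.Partrec.right⟩
  | oracle g hg =>
    rw [Set.mem_singleton_iff] at hg
    subst hg
    refine ⟨fun σ k => (σ[k]? : Part ℕ), ?_, ?_, ?_⟩
    · exact (Computable.list_getElem?.comp Computable.fst Computable.snd).ofOption
    · intro σ τ h k y hy
      obtain ⟨t, rfl⟩ := h
      simp only [Part.mem_coe, Option.mem_def] at hy ⊢
      rw [List.getElem?_append_left]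
      · exact hy
      · by_contra hlt
        rw [List.getElem?_eq_none (by omega)] at hy
        cases hy
    · intro k y
      simp only [PFun.coe_val, Part.mem_some_iff, Part.mem_coe, Option.mem_def, getElem?_init]
      constructor
      · rintro rfl
        exact ⟨k+1, by simp⟩
      · rintro ⟨n, hn⟩
        by_cases h : k < n
        · simp [h] at hn; exact hn.symm
        · simp [h] at hn
  | @pair f h _ _ ihf ihh =>
    obtain ⟨F, hF⟩ := ihf
    obtain ⟨H, hH⟩ := ihh
    refine ⟨fun σ n => (Nat.pair <$> F σ n <*> H σ n), ?_, ?_, ?_⟩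
    · have h1 : Partrec fun p : List ℕ × ℕ => (F p.1 p.2).bind fun x => (H p.1 p.2).map fun y => Nat.pair x y :=
        hF.part.bind (Partrec.map (hH.part.comp (Computable.fst.comp Computable.fst) (Computable.snd.comp Computable.fst))
          (Primrec₂.natPair.to_comp.comp (Computable.snd.comp Computable.fst) Computable.snd))
      refine h1.of_eq fun p => ?_
      simp [Seq.seq, Part.map_eq_map]
    · intro σ τ hst k y hy
      simp only [Seq.seq, Part.map_eq_map, Part.mem_bind_iff, Part.mem_map_iff, exists_exists_and_eq_and] at hy ⊢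
      obtain ⟨x, hx, z, hz, rfl⟩ := hy
      exact ⟨x, hF.mono _ _ hst _ _ hx, z, hH.mono _ _ hst _ _ hz, rfl⟩
    · intro k y
      simp only [Seq.seq, Part.map_eq_map, Part.mem_bind_iff, Part.mem_map_iff, exists_exists_and_eq_and]
      constructor
      · rintro ⟨x, hx, z, hz, rfl⟩
        obtain ⟨n1, hn1⟩ := (hF.spec _ _).1 hx
        obtain ⟨n2, hn2⟩ := (hH.spec _ _).1 hz
        exact ⟨max n1 n2, x, hF.mono_init (le_max_left _ _) hn1, z, hH.mono_init (le_max_right _ _) hn2, rfl⟩
      · rintro ⟨n, x, hx, z, hz, rfl⟩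
        exact ⟨x, (hF.spec _ _).2 ⟨n, hx⟩, z, (hH.spec _ _).2 ⟨n, hz⟩, rfl⟩
  | @comp f h _ _ ihf ihh =>
    obtain ⟨F, hF⟩ := ihf
    obtain ⟨H, hH⟩ := ihh
    refine ⟨fun σ n => (H σ n).bind (F σ), ?_, ?_, ?_⟩
    · exact hH.part.bind (hF.part.comp (Computable.fst.comp Computable.fst) Computable.snd)
    · intro σ τ hst k y hy
      simp only [Part.mem_bind_iff] at hy ⊢
      obtain ⟨x, hx, hy⟩ := hy
      exact ⟨x, hH.mono _ _ hst _ _ hx, hF.mono _ _ hst _ _ hy⟩
    · intro k y
      refine (Part.mem_bind_iff (f := h k) (g := f)).trans ?_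
      simp only [Part.mem_bind_iff]
      constructor
      · rintro ⟨x, hx, hy⟩
        obtain ⟨n1, hn1⟩ := (hH.spec _ _).1 hx
        obtain ⟨n2, hn2⟩ := (hF.spec _ _).1 hy
        exact ⟨max n1 n2, x, hH.mono_init (le_max_left _ _) hn1, hF.mono_init (le_max_right _ _) hn2⟩
      · rintro ⟨n, x, hx, hy⟩
        exact ⟨x, (hH.spec _ _).2 ⟨n, hx⟩, (hF.spec _ _).2 ⟨n, hy⟩⟩
  | @prec f h _ _ ihf ihh =>
    obtain ⟨F, hF⟩ := ihf
    obtain ⟨H, hH⟩ := ihh
    refine ⟨fun σ p => p.unpair.2.rec (F σ p.unpair.1) fun y IH => IH.bind fun i => H σ (Nat.pair p.unpair.1 (Nat.pair y i)), ?_, ?_, ?_⟩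
    · refine Partrec.nat_rec (Computable.snd.comp (Computable.unpair.comp Computable.snd))
        (hF.part.comp Computable.fst (Computable.fst.comp (Computable.unpair.comp Computable.snd)))
        (h := fun a : List ℕ × ℕ => fun b : ℕ × ℕ => H a.1 (Nat.pair a.2.unpair.1 (Nat.pair b.1 b.2))) ?_
      refine hH.part.comp (Computable.fst.comp Computable.fst) ?_
      exact Primrec₂.natPair.to_comp.comp (Computable.fst.comp (Computable.unpair.comp (Computable.snd.comp Computable.fst)))
        (Primrec₂.natPair.to_comp.comp (Computable.fst.comp Computable.snd) (Computable.snd.comp Computable.snd))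
    · intro σ τ hst k
      generalize k.unpair.2 = m
      induction m with
      | zero => intro y hy; exact hF.mono _ _ hst _ _ hy
      | succ m ih =>
        intro y hy
        simp only [Part.mem_bind_iff] at hy ⊢
        obtain ⟨x, hx, hy⟩ := hy
        exact ⟨x, ih _ hx, hH.mono _ _ hst _ _ hy⟩
    · intro k
      simp only
      generalize k.unpair.2 = m
      induction m with
      | zero => intro y; exact hF.spec _ _
      | succ m ih =>
        intro y
        simp only [Part.bind_eq_bind, Part.mem_bind_iff]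
        constructor
        · rintro ⟨x, hx, hy⟩
          obtain ⟨n1, hn1⟩ := (ih _).1 hx
          obtain ⟨n2, hn2⟩ := (hH.spec _ _).1 hy
          refine ⟨max n1 n2, x, ?_, hH.mono_init (le_max_right _ _) hn2⟩
          have hmono : ∀ m x, x ∈ (Nat.rec (F (init a n1) k.unpair.1) (fun y IH => IH.bind fun i => H (init a n1) (Nat.pair k.unpair.1 (Nat.pair y i))) m : Part ℕ) →
            x ∈ (Nat.rec (F (init a (max n1 n2)) k.unpair.1) (fun y IH => IH.bind fun i => H (init a (max n1 n2)) (Nat.pair k.unpair.1 (Nat.pair y i))) m : Part ℕ) := by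
            intro m
            induction m with
            | zero => intro y hy; exact hF.mono_init (le_max_left _ _) hy
            | succ m ih =>
              intro y hy
              simp only [Part.mem_bind_iff] at hy ⊢
              obtain ⟨x, hx, hy⟩ := hy
              exact ⟨x, ih _ hx, hH.mono_init (le_max_left _ _) hy⟩
          exact hmono _ _ hn1
        · rintro ⟨n, x, hx, hy⟩
          exact ⟨x, (ih _).2 ⟨n, hx⟩, (hH.spec _ _).2 ⟨n, hy⟩⟩
  | @rfind f _ ihf =>
    obtain ⟨F, hF⟩ := ihf
    refine ⟨fun σ p => Nat.rfind fun n => (fun m => decide (m = 0)) <$> F σ (Nat.pair p n), ?_, ?_, ?_⟩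
    · refine Partrec.rfind (p := fun (a : List ℕ × ℕ) (n : ℕ) => (fun m => decide (m = 0)) <$> F a.1 (Nat.pair a.2 n)) ?_
      refine Partrec.map (hF.part.comp (Computable.fst.comp Computable.fst) (Primrec₂.natPair.to_comp.comp (Computable.snd.comp Computable.fst) Computable.snd)) ?_
      exact ((Primrec.eq (α := ℕ)).decide.to_comp).comp Computable.snd (Computable.const 0)
    · intro σ τ hst k y hy
      refine Nat.mem_rfind.2 ?_
      replace hy := Nat.mem_rfind.1 hy
      simp only [Part.map_eq_map, Part.mem_map_iff] at hy ⊢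
      obtain ⟨⟨x, hx, hx0⟩, hy⟩ := hy
      refine ⟨⟨x, hF.mono _ _ hst _ _ hx, hx0⟩, fun {m} hm => ?_⟩
      obtain ⟨x, hx, hx0⟩ := hy hm
      exact ⟨x, hF.mono _ _ hst _ _ hx, hx0⟩
    · intro k y
      refine (Nat.mem_rfind (p := fun n => (fun m => decide (m = 0)) <$> f (Nat.pair k n))).trans ?_
      refine Iff.trans ?_ (exists_congr fun n => (Nat.mem_rfind (p := fun m => (fun m => decide (m = 0)) <$> F (init a n) (Nat.pair k m))).symm)
      simp only [Part.map_eq_map, Part.mem_map_iff]
      constructor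
      · rintro ⟨⟨x, hx, hx0⟩, hy⟩
        obtain ⟨n0, hn0⟩ := (hF.spec _ _).1 hx
        have hbd : ∀ b, b ≤ y → ∃ n, ∀ m, m < b → ∃ z, z ∈ F (init a n) (Nat.pair k m) ∧ decide (z = 0) = false := by
          intro b
          induction b with
          | zero => intro _; exact ⟨0, fun m hm => absurd hm (Nat.not_lt_zero _)⟩
          | succ b ih =>
            intro hb
            obtain ⟨n, hn⟩ := ih (by omega)
            obtain ⟨z, hz, hz0⟩ := hy (m := b) (by omega)
            obtain ⟨n', hn'⟩ := (hF.spec _ _).1 hz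
            refine ⟨max n n', fun m hm => ?_⟩
            rcases Nat.lt_succ_iff_lt_or_eq.1 hm with h | h
            · obtain ⟨z, hz, hz0⟩ := hn m h
              exact ⟨z, hF.mono_init (le_max_left _ _) hz, hz0⟩
            · subst h
              exact ⟨z, hF.mono_init (le_max_right _ _) hn', hz0⟩
        obtain ⟨n, hn⟩ := hbd y le_rfl
        refine ⟨max n0 n, ⟨x, hF.mono_init (le_max_left _ _) hn0, hx0⟩, fun {m} hm => ?_⟩
        obtain ⟨z, hz, hz0⟩ := hn m hm
        exact ⟨z, hF.mono_init (le_max_right _ _) hz, hz0⟩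
      · rintro ⟨n, ⟨x, hx, hx0⟩, hy⟩
        refine ⟨⟨x, (hF.spec _ _).2 ⟨n, hx⟩, hx0⟩, fun {m} hm => ?_⟩
        obtain ⟨z, hz, hz0⟩ := hy hm
        exact ⟨z, (hF.spec _ _).2 ⟨n, hz⟩, hz0⟩


/-- total functions recursive in `a` -/
def RI (a : ℕ → ℕ) (f : ℕ → ℕ) : Prop := Nat.RecursiveIn {(a : ℕ →. ℕ)} (fun n => Part.some (f n))

theorem RI.of_primrec {a f : ℕ → ℕ} (hf : Nat.Primrec f) : RI a f := hf.recursiveIn

theorem RI.self (a : ℕ → ℕ) : RI a a := Nat.RecursiveIn.oracle _ (Set.mem_singleton _)

theorem RI.comp {a f g : ℕ → ℕ} (hf : RI a f) (hg : RI a g) : RI a (fun n => f (g n)) := by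
  have := Nat.RecursiveIn.comp hf hg
  refine this.of_eq fun n => ?_
  exact Part.bind_some _ _

theorem RI.pair {a f g : ℕ → ℕ} (hf : RI a f) (hg : RI a g) : RI a (fun n => Nat.pair (f n) (g n)) := by
  have := Nat.RecursiveIn.pair hf hg
  refine this.of_eq fun n => ?_
  simp [Seq.seq]

theorem RI.prec {a f h : ℕ → ℕ} (hf : RI a f) (hh : RI a h) :
    RI a (fun p => p.unpair.2.rec (f p.unpair.1) fun y i => h (Nat.pair p.unpair.1 (Nat.pair y i))) := by
  have := Nat.RecursiveIn.prec hf hh
  refine this.of_eq fun p => ?_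
  simp only
  generalize p.unpair.2 = m
  induction m with
  | zero => rfl
  | succ m ih =>
    simp only
    rw [ih]
    exact Part.bind_some _ _

theorem RI.encode_init (a : ℕ → ℕ) : RI a (fun n => Encodable.encode (init a n)) := by
  have h0 : RI a (fun _ => Encodable.encode ([] : List ℕ)) := RI.of_primrec (Nat.Primrec.const _)
  have hApp : Nat.Primrec (fun p => Encodable.encode ((Denumerable.ofNat (List ℕ) p.unpair.1) ++ [p.unpair.2])) := by
    rw [← Primrec.nat_iff]
    refine Primrec.encode.comp (Primrec.list_append.comp ((Primrec.ofNat _).comp (Primrec.fst.comp Primrec.unpair)) ?_)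
    exact Primrec.list_cons.comp (Primrec.snd.comp Primrec.unpair) (Primrec.const [])
  have hy : RI a (fun p => p.unpair.2.unpair.1) := RI.of_primrec (by
    rw [← Primrec.nat_iff]
    exact Primrec.fst.comp (Primrec.unpair.comp (Primrec.snd.comp Primrec.unpair)))
  have hi : RI a (fun p => p.unpair.2.unpair.2) := RI.of_primrec (by
    rw [← Primrec.nat_iff]
    exact Primrec.snd.comp (Primrec.unpair.comp (Primrec.snd.comp Primrec.unpair)))
  have hh := (RI.of_primrec (a := a) hApp).comp (hi.pair ((RI.self a).comp hy))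
  have := (h0.prec hh).comp ((RI.of_primrec (Nat.Primrec.const 0)).pair (RI.of_primrec Nat.Primrec.id))
  refine Nat.RecursiveIn.of_eq this fun n => ?_
  congr 1
  simp only [Nat.unpair_pair, id]
  induction n with
  | zero => simp [init]
  | succ n ih =>
    simp only [ih, Denumerable.ofNat_encode, init_succ]

theorem recursiveIn_of_partrec {a : ℕ → ℕ} {g : ℕ → Part ℕ} {F : List ℕ → ℕ → Part ℕ}
    (hF : Partrec₂ (α := List ℕ) (β := ℕ) (σ := ℕ) F)
    (h : ∀ i y, y ∈ g i ↔ ∃ n, y ∈ F (init a n) i) : Nat.RecursiveIn {(a : ℕ →. ℕ)} g := by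
  have hF' : Partrec (fun p : ℕ => F (Denumerable.ofNat (List ℕ) p.unpair.1) p.unpair.2) :=
    hF.comp ((Computable.ofNat _).comp (Computable.fst.comp Computable.unpair)) (Computable.snd.comp Computable.unpair)
  obtain ⟨c, hc⟩ := Nat.Partrec.Code.exists_code.1 (Partrec.nat_iff.1 hF')
  let T : ℕ → ℕ := fun p => (Nat.Partrec.Code.evaln p.unpair.2.unpair.1 c (Nat.pair p.unpair.1 p.unpair.2.unpair.2)).elim 0 Nat.succ
  have hT : Nat.Primrec T := by
    rw [← Primrec.nat_iff]
    have h : Primrec (fun p : ℕ => Nat.Partrec.Code.evaln p.unpair.2.unpair.1 c (Nat.pair p.unpair.1 p.unpair.2.unpair.2)) := by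
      refine Nat.Partrec.Code.primrec_evaln.comp (((Primrec.fst.comp (Primrec.unpair.comp (Primrec.snd.comp Primrec.unpair))).pair (Primrec.const c)).pair ?_)
      exact Primrec₂.natPair.comp (Primrec.fst.comp Primrec.unpair) (Primrec.snd.comp (Primrec.unpair.comp (Primrec.snd.comp Primrec.unpair)))
    exact (Primrec.option_casesOn h (Primrec.const 0) (Primrec.succ.comp Primrec.snd).to₂).of_eq (fun p => by
      simp only [T]; cases Nat.Partrec.Code.evaln p.unpair.2.unpair.1 c (Nat.pair p.unpair.1 p.unpair.2.unpair.2) <;> rfl)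
  let V : ℕ → ℕ := fun p => T (Nat.pair (Encodable.encode (init a p.unpair.2.unpair.1)) (Nat.pair p.unpair.2.unpair.2 p.unpair.1))
  have hV : RI a V := by
    refine (RI.of_primrec hT).comp (RI.pair ?_ ?_)
    · refine (RI.encode_init a).comp (RI.of_primrec ?_)
      rw [← Primrec.nat_iff]
      exact Primrec.fst.comp (Primrec.unpair.comp (Primrec.snd.comp Primrec.unpair))
    · refine RI.of_primrec ?_
      rw [← Primrec.nat_iff]
      exact Primrec₂.natPair.comp (Primrec.snd.comp (Primrec.unpair.comp (Primrec.snd.comp Primrec.unpair))) (Primrec.fst.comp Primrec.unpair)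
  have hV1 : RI a (fun p => 1 - V p) := by
    refine RI.comp (f := fun n => 1 - n) (RI.of_primrec ?_) hV
    rw [← Primrec.nat_iff]
    exact Primrec.nat_sub.comp (Primrec.const 1) Primrec.id
  have hR := Nat.RecursiveIn.rfind hV1
  have hid : RI a (fun n => n) := RI.of_primrec Nat.Primrec.id
  have hP := Nat.RecursiveIn.pair hid hR
  have hV2 : RI a (fun p => V p - 1) := by
    refine RI.comp (f := fun n => n - 1) (RI.of_primrec ?_) hV
    rw [← Primrec.nat_iff]
    exact Primrec.nat_sub.comp Primrec.id (Primrec.const 1)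
  have hC := Nat.RecursiveIn.comp hV2 hP
  refine hC.of_eq fun i => ?_
  have hVs : ∀ q, V (Nat.pair i q) ≠ 0 → V (Nat.pair i q) - 1 ∈ g i := by
    intro q hq
    simp only [V, T, Nat.unpair_pair] at hq ⊢
    cases h' : Nat.Partrec.Code.evaln q.unpair.2 c (Nat.pair (Encodable.encode (init a q.unpair.1)) i) with
    | none => simp [h'] at hq
    | some y =>
      simp only [Option.elim_some, Nat.succ_sub_one]
      have := Nat.Partrec.Code.evaln_sound (Option.mem_def.2 h')
      rw [hc] at this
      simp only [Nat.unpair_pair, Denumerable.ofNat_encode] at this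
      exact (h _ _).2 ⟨_, this⟩
  have hVe : ∀ y ∈ g i, ∃ q, V (Nat.pair i q) ≠ 0 := by
    intro y hy
    obtain ⟨n, hn⟩ := (h i y).1 hy
    have : y ∈ c.eval (Nat.pair (Encodable.encode (init a n)) i) := by
      rw [hc]; simpa using hn
    obtain ⟨k, hk⟩ := Nat.Partrec.Code.evaln_complete.1 this
    refine ⟨Nat.pair n k, ?_⟩
    simp only [V, T, Nat.unpair_pair]
    rw [Option.mem_def.1 hk]
    simp
  let pp : ℕ →. Bool := fun n => Part.some (decide (1 - V (Nat.pair i n) = 0))
  have e2 : (Nat.rfind fun n => (fun m => decide (m = 0)) <$> (fun p => (Part.some (1 - V p) : Part ℕ)) (Nat.pair i n)) = Nat.rfind pp := by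
    congr 1
  show Part.bind (Nat.pair <$> (Part.some i) <*> (Nat.rfind fun n => (fun m => decide (m = 0)) <$> (fun p => (Part.some (1 - V p) : Part ℕ)) (Nat.pair i n))) (fun n => Part.some (V n - 1)) = _
  rw [e2]
  have key : ∀ q, q ∈ Nat.rfind pp → V (Nat.pair i q) - 1 ∈ g i := by
    intro q hq
    have hq1 := Nat.rfind_spec hq
    simp only [pp, Part.mem_some_iff] at hq1
    refine hVs q ?_
    have := (decide_eq_true_iff.1 hq1.symm); omega
  refine Part.ext fun y => ?_
  simp only [Seq.seq, Part.map_eq_map, Part.map_some, Part.bind_some, Part.mem_bind_iff, Part.mem_map_iff, Part.mem_some_iff]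
  constructor
  · rintro ⟨_, ⟨q, hq, rfl⟩, rfl⟩
    exact key q hq
  · intro hy
    have hdom : (Nat.rfind pp).Dom := by
      obtain ⟨q, hq⟩ := hVe y hy
      refine Nat.rfind_dom'.2 ⟨q, ?_, fun {m} _ => trivial⟩
      simp only [pp, Part.mem_some_iff]
      symm
      rw [decide_eq_true_iff]; omega
    obtain ⟨q, hq⟩ := Part.dom_iff_mem.1 hdom
    exact ⟨_, ⟨q, hq, rfl⟩, Part.mem_unique hy (key q hq)⟩

/-- sanity: the jump is a complete c.e. in A set -/
theorem jump_spec (A B : Set ℕ) :
    (∃ f : ℕ →. ℕ, RecursiveIn {(chi A : ℕ →. ℕ)} f ∧ ∀ k, k ∈ B ↔ (f k).Dom) ↔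
      (fun k => k ∈ B) ≤₀ (fun k => k ∈ jump A) := by
  constructor
  · rintro ⟨f, hf, hB⟩
    rw [RecursiveIn.iff_nat] at hf
    obtain ⟨F, hF⟩ := nf hf
    have hF' : Partrec (fun p : ℕ => F (Denumerable.ofNat (List ℕ) p.unpair.1) p.unpair.2) :=
      hF.part.comp ((Computable.ofNat _).comp (Computable.fst.comp Computable.unpair)) (Computable.snd.comp Computable.unpair)
    obtain ⟨c, hc⟩ := Nat.Partrec.Code.exists_code.1 (Partrec.nat_iff.1 hF')
    refine ⟨fun k => Nat.pair (Encodable.encode c) k, Primrec₂.natPair.to_comp.comp (Computable.const _) Computable.id, fun k => ?_⟩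
    show k ∈ B ↔ Nat.pair (Encodable.encode c) k ∈ jump A
    rw [hB k]
    simp only [jump, Set.mem_ofPred_eq, Nat.unpair_pair, Denumerable.ofNat_encode, hc]
    constructor
    · intro h
      obtain ⟨y, hy⟩ := Part.dom_iff_mem.1 h
      obtain ⟨n, hn⟩ := (hF.spec _ _).1 hy
      exact ⟨n, Part.dom_iff_mem.2 ⟨y, hn⟩⟩
    · rintro ⟨n, hn⟩
      obtain ⟨y, hy⟩ := Part.dom_iff_mem.1 hn
      exact Part.dom_iff_mem.2 ⟨y, (hF.spec _ _).2 ⟨n, hy⟩⟩
  · rintro ⟨r, hr, h⟩
    let F : List ℕ → ℕ → Part ℕ := fun σ k => ((Denumerable.ofNat Code (r k).unpair.1).eval (Nat.pair (Encodable.encode σ) (r k).unpair.2)).map (fun _ => 0)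
    have hF : Partrec₂ (α := List ℕ) (β := ℕ) (σ := ℕ) F := by
      refine Partrec.map ?_ (Computable.const 0).to₂
      refine Nat.Partrec.Code.eval_part.comp ((Computable.ofNat _).comp (Computable.fst.comp (Computable.unpair.comp (hr.comp Computable.snd)))) ?_
      exact Primrec₂.natPair.to_comp.comp (Computable.encode.comp Computable.fst) (Computable.snd.comp (Computable.unpair.comp (hr.comp Computable.snd)))
    let g : ℕ → Part ℕ := fun k => ⟨k ∈ B, fun _ => 0⟩
    refine ⟨g, RecursiveIn.iff_nat.2 (recursiveIn_of_partrec hF fun k y => ?_), fun k => Iff.rfl⟩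
    have h' : k ∈ B ↔ r k ∈ jump A := h k
    simp only [F, g, Part.mem_mk_iff, Part.mem_map_iff, exists_prop]
    rw [h']
    simp only [jump, Set.mem_ofPred_eq]
    constructor
    · rintro ⟨⟨n, hn⟩, rfl⟩
      obtain ⟨y, hy⟩ := Part.dom_iff_mem.1 hn
      exact ⟨n, y, hy, rfl⟩
    · rintro ⟨n, y, hy, rfl⟩
      exact ⟨⟨n, Part.dom_iff_mem.2 ⟨y, hy⟩⟩, rfl⟩

theorem J_succ (n : ℕ) : J (n+1) = jump (J n) := Function.iterate_succ_apply' _ _ _

theorem chi_eq_one {A : Set ℕ} {x : ℕ} : chi A x = 1 ↔ x ∈ A := by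
  unfold chi; split <;> simp_all

theorem chi_eq_zero {A : Set ℕ} {x : ℕ} : chi A x = 0 ↔ x ∉ A := by
  unfold chi; split <;> simp_all

/-- membership code -/
theorem exists_memCode : ∃ c : Code, ∀ (A : Set ℕ) x, x ∈ A ↔ Nat.pair (Encodable.encode c) x ∈ jump A := by
  have h : Partrec (fun p : ℕ => (((if ((Denumerable.ofNat (List ℕ) p.unpair.1)[p.unpair.2]? = some 1) then some 0 else none : Option ℕ)) : Part ℕ)) := by
    refine Computable.ofOption (Primrec.to_comp ?_)
    refine Primrec.ite ?_ (Primrec.const _) (Primrec.const _)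
    refine PrimrecRel.comp Primrec.eq ?_ (Primrec.const _)
    exact Primrec.list_getElem?.comp ((Primrec.ofNat _).comp (Primrec.fst.comp Primrec.unpair)) (Primrec.snd.comp Primrec.unpair)
  obtain ⟨c, hc⟩ := Nat.Partrec.Code.exists_code.1 (Partrec.nat_iff.1 h)
  refine ⟨c, fun A x => ?_⟩
  simp only [jump, Set.mem_ofPred_eq, Nat.unpair_pair, Denumerable.ofNat_encode, hc, getElem?_init]
  constructor
  · intro hx
    refine ⟨x+1, ?_⟩
    rw [if_pos (Nat.lt_succ_self x), if_pos (by rw [chi_eq_one.2 hx])]
    trivial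
  · rintro ⟨n, hn⟩
    by_contra hx
    rw [if_neg] at hn
    · exact hn
    · split
      · rw [chi_eq_zero.2 hx]; simp
      · simp

/-- index of the membership code -/
noncomputable def mc : ℕ := Encodable.encode exists_memCode.choose

theorem mc_spec (A : Set ℕ) (x : ℕ) : x ∈ A ↔ Nat.pair mc x ∈ jump A := exists_memCode.choose_spec A x

noncomputable def lift (d x : ℕ) : ℕ := (fun z => Nat.pair mc z)^[d] x

theorem lift_spec (m d x : ℕ) : x ∈ J m ↔ lift d x ∈ J (m + d) := by
  induction d with
  | zero => rfl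
  | succ d ih =>
    rw [ih]
    unfold lift
    rw [Function.iterate_succ_apply', ← add_assoc, J_succ]
    exact mc_spec _ _

theorem primrec_lift : Primrec₂ lift := by
  refine Primrec.nat_iterate Primrec.fst Primrec.snd ?_
  exact Primrec₂.natPair.comp (Primrec.const mc) Primrec.snd

/-- The reduction lemma. -/
theorem tree_reduce (g : ℕ → ℕ → Option (List (ℕ × Bool))) (hg : Computable₂ g)
    (μ : ℕ → ℕ) (hμ : Primrec μ)
    (hlt : ∀ s y l, g s y = some l → ∀ q ∈ l, μ q.1 < μ s)
    (V : ℕ → Prop) (hV : ∀ s, V s ↔ ∃ y l, g s y = some l ∧ ∀ q ∈ l, (V q.1 ↔ q.2 = true)) :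
    ∃ r : ℕ → ℕ, Computable r ∧ ∀ s, V s ↔ r s ∈ omegaJump := by
  let idx : ℕ → ℕ → ℕ → ℕ := fun e k t => lift (k - μ t - 1) (Nat.pair e (Nat.pair e t))
  let chk : List ℕ → ℕ → ℕ → (ℕ × Bool) → Bool := fun σ e k q =>
    decide (σ[idx e k q.1]? = some (bif q.2 then 1 else 0))
  -- program
  let P : ℕ → ℕ → Option ℕ := fun p y =>
    (g p.unpair.2.unpair.2 y).bind fun l =>
      if (l.foldl (fun (b : Bool) q => b && chk (Denumerable.ofNat (List ℕ) p.unpair.1) p.unpair.2.unpair.1 (μ p.unpair.2.unpair.2) q) true) = true then some 0 else none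
  have hchk : Primrec (fun x : (List ℕ × ℕ × ℕ) × (ℕ × Bool) => chk x.1.1 x.1.2.1 x.1.2.2 x.2) := by
    refine PrimrecRel.decide (R := fun (a b : Option ℕ) => a = b) Primrec.eq |>.comp ?_ ?_
    · refine Primrec.list_getElem?.comp (Primrec.fst.comp Primrec.fst) ?_
      refine primrec_lift.comp ?_ ?_
      · refine Primrec.nat_sub.comp (Primrec.nat_sub.comp (Primrec.snd.comp (Primrec.snd.comp Primrec.fst)) (hμ.comp (Primrec.fst.comp Primrec.snd))) (Primrec.const 1)
      · exact Primrec₂.natPair.comp (Primrec.fst.comp (Primrec.snd.comp Primrec.fst)) (Primrec₂.natPair.comp (Primrec.fst.comp (Primrec.snd.comp Primrec.fst)) (Primrec.fst.comp Primrec.snd))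
    · exact Primrec.option_some.comp (Primrec.cond (Primrec.snd.comp Primrec.snd) (Primrec.const 1) (Primrec.const 0))
  have hPc : Computable₂ P := by
    refine Computable.option_bind (hg.comp ?_ Computable.snd) ?_
    · exact Computable.snd.comp (Computable.unpair.comp (Computable.snd.comp (Computable.unpair.comp Computable.fst)))
    · refine Primrec.to_comp ?_
      refine Primrec.ite ?_ (Primrec.const _) (Primrec.const _)
      refine PrimrecRel.comp Primrec.eq ?_ (Primrec.const _)
      refine Primrec.list_foldl (h := fun (p : (ℕ × ℕ) × List (ℕ × Bool)) (x : Bool × (ℕ × Bool)) => x.1 &&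
          chk (Denumerable.ofNat (List ℕ) (Nat.unpair p.1.1).1) (Nat.unpair (Nat.unpair p.1.1).2).1
            (μ (Nat.unpair (Nat.unpair p.1.1).2).2) x.2) (Primrec.snd (α := ℕ × ℕ) (β := List (ℕ × Bool))) (Primrec.const true) ?_
      refine Primrec.and.comp (Primrec.fst.comp Primrec.snd) ?_
      refine hchk.comp (Primrec.pair (Primrec.pair ?_ (Primrec.pair ?_ ?_)) (Primrec.snd.comp Primrec.snd))
      · exact (Primrec.ofNat _).comp (Primrec.fst.comp (Primrec.unpair.comp (Primrec.fst.comp (Primrec.fst.comp Primrec.fst))))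
      · exact Primrec.fst.comp (Primrec.unpair.comp (Primrec.snd.comp (Primrec.unpair.comp (Primrec.fst.comp (Primrec.fst.comp Primrec.fst)))))
      · exact hμ.comp (Primrec.snd.comp (Primrec.unpair.comp (Primrec.snd.comp (Primrec.unpair.comp (Primrec.fst.comp (Primrec.fst.comp Primrec.fst))))))
  obtain ⟨c, hc⟩ := Nat.Partrec.Code.exists_code.1 (Partrec.nat_iff.1 (Partrec.rfindOpt hPc))
  set e := Encodable.encode c with he
  have hfold : ∀ (l : List (ℕ × Bool)) (f : ℕ × Bool → Bool) (b : Bool), (l.foldl (fun (b : Bool) q => b && f q) b) = true ↔ (b = true ∧ ∀ q ∈ l, f q = true) := by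
    intro l f
    induction l with
    | nil => intro b; simp
    | cons q l ih => intro b; simp [ih, and_assoc]
  have main : ∀ k s, μ s = k → (V s ↔ Nat.pair e (Nat.pair e s) ∈ J (k + 1)) := by
    intro k
    induction k using Nat.strong_induction_on with
    | _ k ih =>
      intro s hs
      have hidx : ∀ t, μ t < k → (V t ↔ idx e k t ∈ J k) := by
        intro t ht
        rw [ih _ ht t rfl, lift_spec (μ t + 1) (k - μ t - 1)]
        have : μ t + 1 + (k - μ t - 1) = k := by omega
        rw [this]
      rw [J_succ, hV s]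
      simp only [jump, Set.mem_ofPred_eq, Nat.unpair_pair, he, Denumerable.ofNat_encode, hc, Nat.rfindOpt_dom]
      constructor
      · rintro ⟨y, l, hl, hq⟩
        -- choose bound
        obtain ⟨n, hn⟩ : ∃ n, ∀ q ∈ l, idx e k q.1 < n := by
          clear hq hl
          induction l with
          | nil => exact ⟨0, by simp⟩
          | cons q l ih =>
            obtain ⟨n, hn⟩ := ih
            refine ⟨max n (idx e k q.1 + 1), fun q' hq' => ?_⟩
            rcases List.mem_cons.1 hq' with rfl | h
            · omega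
            · have := hn _ h; omega
        refine ⟨n, y, 0, ?_⟩
        simp only [P, Nat.unpair_pair, Denumerable.ofNat_encode, hl, Option.bind_some, Option.mem_def]
        rw [if_pos]
        rw [hfold]
        refine ⟨rfl, fun q hql => ?_⟩
        simp only [chk, hs, decide_eq_true_eq]
        rw [getElem?_init, if_pos (hn q hql)]
        have h1 := hidx q.1 (hs ▸ hlt s y l hl q hql)
        have h2 := hq q hql
        cases hb : q.2 with
        | true =>
          rw [hb] at h2
          rw [chi_eq_one.2 (h1.1 (h2.2 rfl))]; rfl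
        | false =>
          rw [hb] at h2
          rw [chi_eq_zero.2 (fun h => by simpa using h2.1 (h1.2 h))]; rfl
      · rintro ⟨n, y, a, ha⟩
        simp only [P, Nat.unpair_pair, Denumerable.ofNat_encode, Option.mem_def, Option.bind_eq_some_iff] at ha
        obtain ⟨l, hl, hif⟩ := ha
        refine ⟨y, l, hl, fun q hql => ?_⟩
        split at hif
        · rename_i hf
          rw [hfold] at hf
          have hq := hf.2 q hql
          simp only [chk, hs, decide_eq_true_eq] at hq
          rw [getElem?_init] at hq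
          split at hq
          · have h1 := hidx q.1 (hs ▸ hlt s y l hl q hql)
            have hq' : chi (J k) (idx e k q.1) = bif q.2 then 1 else 0 := by simpa using hq
            rw [h1]
            cases hb : q.2 with
            | true => rw [hb] at hq'; simp [chi_eq_one.1 hq']
            | false => rw [hb] at hq'; simp [chi_eq_zero.1 hq']
          · cases hq
        · cases hif
  refine ⟨fun s => Nat.pair (μ s + 1) (Nat.pair e (Nat.pair e s)), ?_, fun s => ?_⟩
  · refine Primrec.to_comp ?_
    exact Primrec₂.natPair.comp (Primrec.succ.comp hμ) (Primrec₂.natPair.comp (Primrec.const e) (Primrec₂.natPair.comp (Primrec.const e) Primrec.id))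
  · rw [main (μ s) s rfl]
    simp [omegaJump]

section ModelTheory

open FirstOrder FirstOrder.Language Encodable

variable {L : FirstOrder.Language.{0, 0}}

section codes
variable [Encodable (Σ n, L.Functions n)] [Encodable (Σ n, L.Relations n)]

omit [Encodable (Σ n, L.Relations n)] in
theorem termCode_injective (n : ℕ) : Function.Injective (termCode : L.Term (Empty ⊕ Fin n) → ℕ) := by
  intro s
  induction s with
  | var x =>
    rcases x with e | i
    · exact e.elim
    · intro t h
      cases t with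
      | var y =>
        rcases y with e | j
        · exact e.elim
        · simp only [termCode, Nat.pair_eq_pair, true_and] at h
          rw [Fin.ext h]
      | func f ts => simp [termCode] at h
  | @func m f ts ih =>
    intro t h
    cases t with
    | var y =>
      rcases y with e | j
      · exact e.elim
      · simp [termCode] at h
    | @func m' f' ts' =>
      simp only [termCode, Nat.pair_eq_pair, true_and, Encodable.encode_inj] at h
      obtain ⟨h1, h2⟩ := h
      obtain ⟨rfl, h1⟩ := Sigma.mk.inj_iff.1 h1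
      rw [eq_of_heq h1]
      congr 1
      funext i
      have := List.ofFn_injective h2
      exact ih i (congrFun this i)

theorem formulaCode_injective (n : ℕ) : Function.Injective (formulaCode : L.BoundedFormula Empty n → ℕ) := by
  intro φ
  induction φ with
  | falsum =>
    intro ψ h
    cases ψ <;> simp [formulaCode] at h ⊢
  | equal t₁ t₂ =>
    intro ψ h
    cases ψ with
    | equal s₁ s₂ =>
      simp only [formulaCode, Nat.pair_eq_pair, true_and] at h
      rw [termCode_injective _ h.1, termCode_injective _ h.2]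
    | _ => simp [formulaCode] at h
  | @rel n m R ts =>
    intro ψ h
    cases ψ with
    | @rel _ m' R' ts' =>
      simp only [formulaCode, Nat.pair_eq_pair, true_and, Encodable.encode_inj] at h
      obtain ⟨h1, h2⟩ := h
      obtain ⟨rfl, h1⟩ := Sigma.mk.inj_iff.1 h1
      rw [eq_of_heq h1]
      congr 1
      funext i
      have := List.ofFn_injective h2
      exact termCode_injective _ (congrFun this i)
    | _ => simp [formulaCode] at h
  | imp f g ihf ihg =>
    intro ψ h
    cases ψ with
    | imp f' g' =>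
      simp only [formulaCode, Nat.pair_eq_pair, true_and] at h
      rw [ihf h.1, ihg h.2]
    | _ => simp [formulaCode] at h
  | all f ihf =>
    intro ψ h
    cases ψ with
    | all f' =>
      simp only [formulaCode, Nat.pair_eq_pair, true_and] at h
      rw [ihf h]
    | _ => simp [formulaCode] at h

end codes

end ModelTheory

section Tree

open Encodable Denumerable

theorem p1 {α} [Primcodable α] {f : α → ℕ} (h : Primrec f) : Primrec fun a => (f a).unpair.1 :=
  Primrec.fst.comp (Primrec.unpair.comp h)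
theorem p2 {α} [Primcodable α] {f : α → ℕ} (h : Primrec f) : Primrec fun a => (f a).unpair.2 :=
  Primrec.snd.comp (Primrec.unpair.comp h)
theorem pq {α} [Primcodable α] {f g : α → ℕ} (h : Primrec f) (h' : Primrec g) :
    Primrec fun a => Nat.pair (f a) (g a) := Primrec₂.natPair.comp h h'
theorem peq {α β} [Primcodable α] [Primcodable β] [DecidableEq β] {f g : α → β} (h : Primrec f) (h' : Primrec g) :
    Primrec fun a => (f a == g a) := Primrec.beq.comp h h'

/-- codes of statements -/
def st (t c q : ℕ) : ℕ := Nat.pair t (Nat.pair c q)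

theorem pst {α} [Primcodable α] {f g h : α → ℕ} (hf : Primrec f) (hg : Primrec g) (hh : Primrec h) :
    Primrec fun a => st (f a) (g a) (h a) := pq hf (pq hg hh)

/-- append to an environment -/
def snoc (e x : ℕ) : ℕ := encode (ofNat (List ℕ) e ++ [x])

theorem psnoc {α} [Primcodable α] {f g : α → ℕ} (hf : Primrec f) (hg : Primrec g) :
    Primrec fun a => snoc (f a) (g a) := by
  refine Primrec.encode.comp (Primrec.list_append.comp ((Primrec.ofNat _).comp hf) ?_)
  exact Primrec.list_cons.comp hg (Primrec.const [])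

theorem plit {α} [Primcodable α] {f : α → ℕ} (hf : Primrec f) (b : Bool) (l : α → List (ℕ × Bool)) (hl : Primrec l) :
    Primrec fun a => (f a, b) :: l a :=
  Primrec.list_cons.comp (Primrec.pair hf (Primrec.const b)) hl

/-- checks whether all entries of the list coded by `e` satisfy `u` -/
def vl (u : ℕ → Bool) (e : ℕ) : Bool :=
  Nat.rec true (fun i b => b && u (((ofNat (List ℕ) e)[i]?).getD 0)) (ofNat (List ℕ) e).length

theorem vl_computable {u : ℕ → Bool} (hu : Computable u) : Computable (vl u) := by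
  refine Computable.nat_rec (h := fun (e : ℕ) (x : ℕ × Bool) => x.2 && u (((ofNat (List ℕ) e)[x.1]?).getD 0)) ?_ (Computable.const true) ?_
  · exact (Primrec.list_length.comp (Primrec.ofNat _)).to_comp
  · refine Primrec.and.to_comp.comp (Computable.snd.comp Computable.snd) (hu.comp ?_)
    refine (Primrec.option_getD.comp (Primrec.list_getElem?.comp ((Primrec.ofNat _).comp Primrec.fst) (Primrec.fst.comp Primrec.snd)) (Primrec.const 0)).to_comp

theorem vl_spec (u : ℕ → Bool) (e : ℕ) : vl u e = true ↔ ∀ x ∈ ofNat (List ℕ) e, u x = true := by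
  unfold vl
  generalize ofNat (List ℕ) e = l
  have : ∀ n, n ≤ l.length → ((Nat.rec true (fun i b => b && u ((l[i]?).getD 0)) n : Bool) = true ↔ ∀ x ∈ l.take n, u x = true) := by
    intro n
    induction n with
    | zero => intro _; simp
    | succ n ih =>
      intro hn
      have h2 : l[n]? = some l[n] := List.getElem?_eq_getElem (by omega)
      have h3 : (l[n]?).getD 0 = l[n] := by rw [h2]; rfl
      rw [List.take_add_one, h2]
      simp only [Bool.and_eq_true, ih (by omega), h3, Option.toList_some, List.mem_append, List.mem_singleton]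
      constructor
      · rintro ⟨h, h'⟩ x (hx | rfl)
        · exact h x hx
        · exact h'
      · intro h
        exact ⟨fun x hx => h x (Or.inl hx), h _ (Or.inr rfl)⟩
  have := this l.length le_rfl
  rwa [List.take_length] at this

variable (D uU : ℕ → Bool) (ar : ℕ → Option ℕ)

/-- one step of unfolding of a statement; the number `y` is a possible witness -/
def G0 (s y : ℕ) : Option (List (ℕ × Bool)) :=
  bif s.unpair.2.unpair.1.unpair.1 == 0 then
    (bif vl uU s.unpair.2.unpair.2.unpair.1 && decide ((ofNat (List ℕ) s.unpair.2.unpair.2.unpair.1)[s.unpair.2.unpair.1.unpair.2]? = some s.unpair.2.unpair.2.unpair.2) then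
      some [] else none)
  else (bif s.unpair.2.unpair.1.unpair.1 == 1 &&
      D (Nat.pair 0 (Nat.pair s.unpair.2.unpair.1.unpair.2.unpair.1 (Nat.pair y s.unpair.2.unpair.2.unpair.2))) then
      some [(st 1 s.unpair.2.unpair.1.unpair.2.unpair.2 (Nat.pair s.unpair.2.unpair.2.unpair.1 y), true)] else none)

def G1 (s : ℕ) : Option (List (ℕ × Bool)) :=
  bif s.unpair.2.unpair.1 == 0 then
    (bif s.unpair.2.unpair.2.unpair.2 == 0 && vl uU s.unpair.2.unpair.2.unpair.1 then some [] else none)
  else (bif s.unpair.2.unpair.2.unpair.2 == 0 then none else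
    some [(st 0 (s.unpair.2.unpair.1 - 1).unpair.1 (Nat.pair s.unpair.2.unpair.2.unpair.1 (s.unpair.2.unpair.2.unpair.2 - 1).unpair.1), true),
      (st 1 (s.unpair.2.unpair.1 - 1).unpair.2 (Nat.pair s.unpair.2.unpair.2.unpair.1 (s.unpair.2.unpair.2.unpair.2 - 1).unpair.2), true)])

def G2 (s y : ℕ) : Option (List (ℕ × Bool)) :=
  bif s.unpair.2.unpair.1.unpair.1 == 1 then
    some [(st 0 s.unpair.2.unpair.1.unpair.2.unpair.1 (Nat.pair s.unpair.2.unpair.2 y), true),
      (st 0 s.unpair.2.unpair.1.unpair.2.unpair.2 (Nat.pair s.unpair.2.unpair.2 y), true)]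
  else bif s.unpair.2.unpair.1.unpair.1 == 2 then
    (bif D (Nat.pair 1 (Nat.pair s.unpair.2.unpair.1.unpair.2.unpair.1 y)) then
      some [(st 1 s.unpair.2.unpair.1.unpair.2.unpair.2 (Nat.pair s.unpair.2.unpair.2 y), true)] else none)
  else bif s.unpair.2.unpair.1.unpair.1 == 3 then
    (bif y == 0 then
      some [(st 3 s.unpair.2.unpair.1.unpair.2.unpair.1 s.unpair.2.unpair.2, true),
        (st 2 s.unpair.2.unpair.1.unpair.2.unpair.2 s.unpair.2.unpair.2, true)]
    else bif y == 1 then
      some [(st 3 s.unpair.2.unpair.1.unpair.2.unpair.1 s.unpair.2.unpair.2, true),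
        (st 3 s.unpair.2.unpair.1.unpair.2.unpair.2 s.unpair.2.unpair.2, true)]
    else
      some [(st 2 s.unpair.2.unpair.1.unpair.2.unpair.1 s.unpair.2.unpair.2, true),
        (st 2 s.unpair.2.unpair.1.unpair.2.unpair.2 s.unpair.2.unpair.2, true)])
  else bif s.unpair.2.unpair.1.unpair.1 == 4 then
    some [(st 4 s.unpair.2.unpair.1.unpair.2 s.unpair.2.unpair.2, false)]
  else none

def G3 (s y : ℕ) : Option (List (ℕ × Bool)) :=
  bif s.unpair.2.unpair.1.unpair.1 == 0 then
    (bif s.unpair.2.unpair.1.unpair.2 == 0 && vl uU s.unpair.2.unpair.2 then some [] else none)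
  else bif s.unpair.2.unpair.1.unpair.1 == 1 then
    (bif y.unpair.1 == y.unpair.2 then none else
    some [(st 0 s.unpair.2.unpair.1.unpair.2.unpair.1 (Nat.pair s.unpair.2.unpair.2 y.unpair.1), true),
      (st 0 s.unpair.2.unpair.1.unpair.2.unpair.2 (Nat.pair s.unpair.2.unpair.2 y.unpair.2), true)])
  else bif s.unpair.2.unpair.1.unpair.1 == 2 then
    (bif !D (Nat.pair 1 (Nat.pair s.unpair.2.unpair.1.unpair.2.unpair.1 y)) &&
        decide (ar s.unpair.2.unpair.1.unpair.2.unpair.1 = some (ofNat (List ℕ) y).length) then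
      some [(st 1 s.unpair.2.unpair.1.unpair.2.unpair.2 (Nat.pair s.unpair.2.unpair.2 y), true)] else none)
  else bif s.unpair.2.unpair.1.unpair.1 == 3 then
      some [(st 2 s.unpair.2.unpair.1.unpair.2.unpair.1 s.unpair.2.unpair.2, true),
        (st 3 s.unpair.2.unpair.1.unpair.2.unpair.2 s.unpair.2.unpair.2, true)]
  else bif s.unpair.2.unpair.1.unpair.1 == 4 && uU y then
    some [(st 3 s.unpair.2.unpair.1.unpair.2 (snoc s.unpair.2.unpair.2 y), true)]
  else none

def G4 (s y : ℕ) : Option (List (ℕ × Bool)) :=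
  bif uU y then some [(st 2 s.unpair.2.unpair.1 (snoc s.unpair.2.unpair.2 y), false)] else none

def G (s y : ℕ) : Option (List (ℕ × Bool)) :=
  bif s.unpair.1 == 0 then G0 D uU s y
  else bif s.unpair.1 == 1 then G1 uU s
  else bif s.unpair.1 == 2 then G2 D s y
  else bif s.unpair.1 == 3 then G3 D uU ar s y
  else bif s.unpair.1 == 4 then G4 uU s y
  else none

/-- measure of statements -/
def mu (s : ℕ) : ℕ := bif s.unpair.1 == 4 then 2 * s.unpair.2.unpair.1 + 2 else 2 * s.unpair.2.unpair.1 + 1

variable {D uU ar}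

theorem G_computable (hD : Computable D) (hu : Computable uU) (har : Computable ar) : Computable₂ (G D uU ar) := by
  have hs : Primrec (fun p : ℕ × ℕ => p.1) := Primrec.fst
  have hy : Primrec (fun p : ℕ × ℕ => p.2) := Primrec.snd
  have hc := p1 (p2 hs)
  have hq := p2 (p2 hs)
  have hq1 := p1 hq
  have hq2 := p2 hq
  have hct := p1 hc
  have hcd := p2 hc
  have hcd1 := p1 hcd
  have hcd2 := p2 hcd
  have hv := vl_computable hu
  have none_c : Computable (fun _ : ℕ × ℕ => (none : Option (List (ℕ × Bool)))) := Computable.const _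
  have hk : ∀ n : ℕ, Primrec (fun _ : ℕ × ℕ => n) := fun n => Primrec.const n
  have hnil : Primrec (fun _ : ℕ × ℕ => ([] : List (ℕ × Bool))) := Primrec.const _
  have some_p : ∀ {f : ℕ × ℕ → List (ℕ × Bool)}, Primrec f → Computable (fun p => some (f p)) := fun h => (Primrec.option_some.comp h).to_comp
  have h0 : Computable (fun p : ℕ × ℕ => G0 D uU p.1 p.2) := by
    refine Computable.cond (peq hct (hk 0)).to_comp ?_ ?_
    · refine Computable.cond (Primrec.and.to_comp.comp (hv.comp hq1.to_comp) (Primrec.to_comp ?_)) (some_p hnil) none_c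
      exact (PrimrecRel.decide (R := fun (a b : Option ℕ) => a = b) Primrec.eq).comp (Primrec.list_getElem?.comp ((Primrec.ofNat _).comp hq1) hcd) (Primrec.option_some.comp hq2)
    · refine Computable.cond (Primrec.and.to_comp.comp (peq hct (hk 1)).to_comp (hD.comp (Primrec.to_comp ?_))) ?_ none_c
      · exact pq (hk 0) (pq hcd1 (pq hy hq2))
      · exact some_p (plit (pst (hk 1) hcd2 (pq hq1 hy)) true _ hnil)
  have h1 : Computable (fun p : ℕ × ℕ => G1 uU p.1) := by
    refine Computable.cond (peq hc (hk 0)).to_comp ?_ ?_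
    · exact Computable.cond (Primrec.and.to_comp.comp (peq hq2 (hk 0)).to_comp (hv.comp hq1.to_comp)) (some_p hnil) none_c
    · refine Computable.cond (peq hq2 (hk 0)).to_comp none_c ?_
      have hcm : Primrec (fun p : ℕ × ℕ => p.1.unpair.2.unpair.1 - 1) := Primrec.nat_sub.comp hc (hk 1)
      have hqm : Primrec (fun p : ℕ × ℕ => p.1.unpair.2.unpair.2.unpair.2 - 1) := Primrec.nat_sub.comp hq2 (hk 1)
      exact some_p (plit (pst (hk 0) (p1 hcm) (pq hq1 (p1 hqm))) true _
        (plit (pst (hk 1) (p2 hcm) (pq hq1 (p2 hqm))) true _ hnil))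
  have h2 : Computable (fun p : ℕ × ℕ => G2 D p.1 p.2) := by
    refine Computable.cond (peq hct (hk 1)).to_comp ?_ (Computable.cond (peq hct (hk 2)).to_comp ?_ (Computable.cond (peq hct (hk 3)).to_comp ?_ (Computable.cond (peq hct (hk 4)).to_comp ?_ none_c)))
    · exact some_p (plit (pst (hk 0) hcd1 (pq hq hy)) true _ (plit (pst (hk 0) hcd2 (pq hq hy)) true _ hnil))
    · refine Computable.cond (hD.comp (pq (hk 1) (pq hcd1 hy)).to_comp) ?_ none_c
      exact some_p (plit (pst (hk 1) hcd2 (pq hq hy)) true _ hnil)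
    · refine Computable.cond (peq hy (hk 0)).to_comp ?_ (Computable.cond (peq hy (hk 1)).to_comp ?_ ?_)
      · exact some_p (plit (pst (hk 3) hcd1 hq) true _ (plit (pst (hk 2) hcd2 hq) true _ hnil))
      · exact some_p (plit (pst (hk 3) hcd1 hq) true _ (plit (pst (hk 3) hcd2 hq) true _ hnil))
      · exact some_p (plit (pst (hk 2) hcd1 hq) true _ (plit (pst (hk 2) hcd2 hq) true _ hnil))
    · exact some_p (plit (pst (hk 4) hcd hq) false _ hnil)
  have h3 : Computable (fun p : ℕ × ℕ => G3 D uU ar p.1 p.2) := by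
    refine Computable.cond (peq hct (hk 0)).to_comp ?_ (Computable.cond (peq hct (hk 1)).to_comp ?_ (Computable.cond (peq hct (hk 2)).to_comp ?_ (Computable.cond (peq hct (hk 3)).to_comp ?_ (Computable.cond (Primrec.and.to_comp.comp (peq hct (hk 4)).to_comp (hu.comp hy.to_comp)) ?_ none_c))))
    · exact Computable.cond (Primrec.and.to_comp.comp (peq hcd (hk 0)).to_comp (hv.comp hq.to_comp)) (some_p hnil) none_c
    · refine Computable.cond (peq (p1 hy) (p2 hy)).to_comp none_c ?_
      exact some_p (plit (pst (hk 0) hcd1 (pq hq (p1 hy))) true _ (plit (pst (hk 0) hcd2 (pq hq (p2 hy))) true _ hnil))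
    · refine Computable.cond (Primrec.and.to_comp.comp (Primrec.not.to_comp.comp (hD.comp (pq (hk 1) (pq hcd1 hy)).to_comp)) ?_) ?_ none_c
      · exact (PrimrecRel.decide (R := fun (a b : Option ℕ) => a = b) Primrec.eq).to_comp.comp (har.comp hcd1.to_comp) (Primrec.option_some.comp (Primrec.list_length.comp ((Primrec.ofNat _).comp hy))).to_comp
      · exact some_p (plit (pst (hk 1) hcd2 (pq hq hy)) true _ hnil)
    · exact some_p (plit (pst (hk 2) hcd1 hq) true _ (plit (pst (hk 3) hcd2 hq) true _ hnil))
    · exact some_p (plit (pst (hk 3) hcd (psnoc hq hy)) true _ hnil)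
  have h4 : Computable (fun p : ℕ × ℕ => G4 uU p.1 p.2) := by
    refine Computable.cond (hu.comp hy.to_comp) ?_ none_c
    exact some_p (plit (pst (hk 2) hc (psnoc hq hy)) false _ hnil)
  have ht := p1 hs
  exact Computable.cond (peq ht (hk 0)).to_comp h0 (Computable.cond (peq ht (hk 1)).to_comp h1
    (Computable.cond (peq ht (hk 2)).to_comp h2 (Computable.cond (peq ht (hk 3)).to_comp h3
    (Computable.cond (peq ht (hk 4)).to_comp h4 none_c))))

theorem mu_primrec : Primrec mu := by
  refine Primrec.cond (peq (p1 Primrec.id) (Primrec.const 4)) ?_ ?_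
  · exact Primrec.nat_add.comp (Primrec.nat_mul.comp (Primrec.const 2) (p1 (p2 Primrec.id))) (Primrec.const 2)
  · exact Primrec.nat_add.comp (Primrec.nat_mul.comp (Primrec.const 2) (p1 (p2 Primrec.id))) (Primrec.const 1)

end Tree

section Sem

open FirstOrder FirstOrder.Language Encodable Denumerable

variable (L : FirstOrder.Language.{0, 0}) [Encodable (Σ n, L.Functions n)] [Encodable (Σ n, L.Relations n)]
variable (U : Set ℕ) [L.Structure U]

/-- value of a term -/
def TV (c e y : ℕ) : Prop := ∃ (n : ℕ) (v : Fin n → U) (t : L.Term (Empty ⊕ Fin n)),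
  ofNat (List ℕ) e = List.ofFn (fun i => (v i : ℕ)) ∧ termCode t = c ∧
    ((t.realize (Sum.elim (default : Empty → U) v) : U) : ℕ) = y

/-- values of a list of terms -/
def LV (l e w : ℕ) : Prop := ∃ (n : ℕ) (v : Fin n → U) (m : ℕ) (ts : Fin m → L.Term (Empty ⊕ Fin n)),
  ofNat (List ℕ) e = List.ofFn (fun i => (v i : ℕ)) ∧
    ofNat (List ℕ) l = List.ofFn (fun i => termCode (ts i)) ∧
    ofNat (List ℕ) w = List.ofFn (fun i => (((ts i).realize (Sum.elim (default : Empty → U) v) : U) : ℕ))

/-- the formula is true -/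
def TR (k e : ℕ) : Prop := ∃ (n : ℕ) (v : Fin n → U) (φ : L.BoundedFormula Empty n),
  ofNat (List ℕ) e = List.ofFn (fun i => (v i : ℕ)) ∧ formulaCode φ = k ∧ φ.Realize default v

/-- the formula is false -/
def FL (k e : ℕ) : Prop := ∃ (n : ℕ) (v : Fin n → U) (φ : L.BoundedFormula Empty n),
  ofNat (List ℕ) e = List.ofFn (fun i => (v i : ℕ)) ∧ formulaCode φ = k ∧ ¬ φ.Realize default v

/-- some instance of the formula is not true -/
def NA (k e : ℕ) : Prop := ∃ x : U, ¬ TR L U k (snoc e x)

variable {L U}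

theorem env_inj {n m : ℕ} {v : Fin n → U} {w : Fin m → U}
    (h : List.ofFn (fun i => (v i : ℕ)) = List.ofFn (fun i => (w i : ℕ))) :
    (⟨n, v⟩ : Σ n, Fin n → U) = ⟨m, w⟩ := by
  have h1 : n = m := by simpa using congrArg List.length h
  subst h1
  have h2 := List.ofFn_injective h
  have : v = w := by
    funext i
    exact Subtype.ext (congrFun h2 i)
  rw [this]

theorem env_exists {e : List ℕ} (h : ∀ x ∈ e, x ∈ U) : ∃ v : Fin e.length → U, e = List.ofFn (fun i => (v i : ℕ)) := by
  refine ⟨fun i => ⟨e[i], h _ (by simp)⟩, ?_⟩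
  apply List.ext_getElem
  · simp
  · intro i h1 h2
    simp

theorem env_valid {n : ℕ} {v : Fin n → U} {e : List ℕ} (h : e = List.ofFn (fun i => (v i : ℕ))) : ∀ x ∈ e, x ∈ U := by
  intro x hx
  rw [h, List.mem_ofFn] at hx
  obtain ⟨i, rfl⟩ := hx
  exact (v i).2

theorem env_snoc {n : ℕ} {v : Fin n → U} {e : ℕ} (h : ofNat (List ℕ) e = List.ofFn (fun i => (v i : ℕ))) (x : U) :
    ofNat (List ℕ) (snoc e x) = List.ofFn (fun i => ((Fin.snoc (α := fun _ => U) v x i : U) : ℕ)) := by
  unfold snoc
  rw [ofNat_encode, h, List.ofFn_succ']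
  simp

theorem env_of_snoc {n : ℕ} {v : Fin n → U} {e x : ℕ} (h : ofNat (List ℕ) (snoc e x) = List.ofFn (fun i => (v i : ℕ))) :
    ∃ (n' : ℕ) (v' : Fin n' → U) (y : U), (y : ℕ) = x ∧ ofNat (List ℕ) e = List.ofFn (fun i => (v' i : ℕ)) ∧
      (⟨n, v⟩ : Σ n, Fin n → U) = ⟨n' + 1, Fin.snoc (α := fun _ => U) v' y⟩ := by
  have hv := env_valid h
  have h1 : ∀ z ∈ ofNat (List ℕ) e, z ∈ U := fun z hz => hv z (by unfold snoc; simp [hz])
  have hx : x ∈ U := hv x (by unfold snoc; simp)
  obtain ⟨v', hv'⟩ := env_exists h1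
  refine ⟨_, v', ⟨x, hx⟩, rfl, hv', ?_⟩
  apply env_inj
  rw [← h, env_snoc hv' ⟨x, hx⟩]

theorem TV_iff (c e y : ℕ) : TV L U c e y ↔
    (c.unpair.1 = 0 ∧ (∀ x ∈ ofNat (List ℕ) e, x ∈ U) ∧ (ofNat (List ℕ) e)[c.unpair.2]? = some y) ∨
    (c.unpair.1 = 1 ∧ ∃ w, Nat.pair 0 (Nat.pair c.unpair.2.unpair.1 (Nat.pair w y)) ∈ atomicDiagram L U ∧
      LV L U c.unpair.2.unpair.2 e w) := by
  constructor
  · rintro ⟨n, v, t, he, rfl, rfl⟩
    cases t with
    | var x =>
      rcases x with x | i
      · exact x.elim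
      · left
        refine ⟨by simp [termCode], env_valid he, ?_⟩
        rw [he]
        simp [termCode]
    | @func m f ts =>
      right
      refine ⟨by simp [termCode], encode (List.ofFn fun i => (((ts i).realize (Sum.elim (default : Empty → U) v) : U) : ℕ)), ?_, ?_⟩
      · left
        refine ⟨m, f, fun i => (ts i).realize (Sum.elim (default : Empty → U) v), ?_⟩
        simp [termCode]
      · exact ⟨n, v, m, ts, he, by simp [termCode], by simp⟩
  · rintro (⟨hc, hv, hy⟩ | ⟨hc, w, hd, hl⟩)
    · obtain ⟨v, he⟩ := env_exists hv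
      have hlt : c.unpair.2 < (ofNat (List ℕ) e).length := by
        by_contra hlt
        rw [List.getElem?_eq_none (by omega)] at hy
        cases hy
      refine ⟨_, v, Term.var (Sum.inr ⟨c.unpair.2, hlt⟩), he, ?_, ?_⟩
      · rw [termCode]
        show Nat.pair 0 c.unpair.2 = c
        rw [← hc, Nat.pair_unpair]
      · rw [he] at hy
        simp only [List.getElem?_ofFn] at hy
        rw [dif_pos hlt] at hy
        simpa using hy
    · rcases hd with ⟨m, f, xs, hk⟩ | ⟨m, r, xs, hk, _⟩
      · simp only [Nat.pair_eq_pair, true_and] at hk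
        obtain ⟨h1, h2, h3⟩ := hk
        obtain ⟨n, v, m', ts, he, hl, hw⟩ := hl
        rw [h2, ofNat_encode] at hw
        have := env_inj hw
        obtain ⟨rfl, h4⟩ := Sigma.mk.inj_iff.1 this
        have h5 := eq_of_heq h4
        subst h5
        refine ⟨n, v, Term.func f ts, he, ?_, h3.symm⟩
        rw [termCode, ← h1, ← hl, encode_ofNat, Nat.pair_unpair, ← hc, Nat.pair_unpair]
      · simp at hk

omit [Encodable (Σ n, L.Relations n)] in
theorem LV_iff (l e w : ℕ) : LV L U l e w ↔
    (l = 0 ∧ w = 0 ∧ (∀ x ∈ ofNat (List ℕ) e, x ∈ U)) ∨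
    (l ≠ 0 ∧ w ≠ 0 ∧ TV L U (l-1).unpair.1 e (w-1).unpair.1 ∧ LV L U (l-1).unpair.2 e (w-1).unpair.2) := by
  constructor
  · rintro ⟨n, v, m, ts, he, hl, hw⟩
    cases m with
    | zero =>
      left
      simp only [List.ofFn_zero] at hl hw
      refine ⟨?_, ?_, env_valid he⟩
      · have := congrArg encode hl; simpa using this
      · have := congrArg encode hw; simpa using this
    | succ m =>
      right
      rw [List.ofFn_succ] at hl hw
      cases l with
      | zero => simp at hl
      | succ l =>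
        cases w with
        | zero => simp at hw
        | succ w =>
          simp only [list_ofNat_succ, List.cons.injEq, ofNat_nat] at hl hw
          refine ⟨by simp, by simp, ?_, ?_⟩
          · exact ⟨n, v, ts 0, he, by simp [hl.1], by simp [hw.1]⟩
          · exact ⟨n, v, m, fun i => ts i.succ, he, by simp [hl.2], by simp [hw.2]⟩
  · rintro (⟨rfl, rfl, hv⟩ | ⟨hl, hw, ht, hlv⟩)
    · obtain ⟨v, he⟩ := env_exists hv
      exact ⟨_, v, 0, Fin.elim0, he, by simp, by simp⟩
    · cases l with
      | zero => exact absurd rfl hl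
      | succ l =>
        cases w with
        | zero => exact absurd rfl hw
        | succ w =>
          obtain ⟨n, v, t, he, htc, hty⟩ := ht
          obtain ⟨n', v', m, ts, he', hlc, hlw⟩ := hlv
          obtain ⟨rfl, h4⟩ := Sigma.mk.inj_iff.1 (env_inj (he.symm.trans he'))
          have h5 := eq_of_heq h4
          subst h5
          refine ⟨n, v, m+1, Fin.cons t ts, he, ?_, ?_⟩
          · rw [List.ofFn_succ, list_ofNat_succ]
            simp only [Fin.cons_zero, Fin.cons_succ, ofNat_nat]
            rw [htc]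
            simpa using hlc
          · rw [List.ofFn_succ, list_ofNat_succ]
            simp only [Fin.cons_zero, Fin.cons_succ, ofNat_nat]
            rw [hty]
            simpa using hlw

theorem TR_iff (hU : U.Nonempty) (k e : ℕ) : TR L U k e ↔
    (k.unpair.1 = 1 ∧ ∃ y, TV L U k.unpair.2.unpair.1 e y ∧ TV L U k.unpair.2.unpair.2 e y) ∨
    (k.unpair.1 = 2 ∧ ∃ w, Nat.pair 1 (Nat.pair k.unpair.2.unpair.1 w) ∈ atomicDiagram L U ∧ LV L U k.unpair.2.unpair.2 e w) ∨
    (k.unpair.1 = 3 ∧ ((FL L U k.unpair.2.unpair.1 e ∧ TR L U k.unpair.2.unpair.2 e) ∨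
      (FL L U k.unpair.2.unpair.1 e ∧ FL L U k.unpair.2.unpair.2 e) ∨
      (TR L U k.unpair.2.unpair.1 e ∧ TR L U k.unpair.2.unpair.2 e))) ∨
    (k.unpair.1 = 4 ∧ ¬ NA L U k.unpair.2 e) := by
  constructor
  · rintro ⟨n, v, φ, he, rfl, hφ⟩
    cases φ with
    | falsum => exact hφ.elim
    | equal t₁ t₂ =>
      left
      simp only [formulaCode, Nat.unpair_pair, true_and]
      exact ⟨_, ⟨n, v, t₁, he, rfl, rfl⟩, ⟨n, v, t₂, he, rfl, congrArg _ hφ.symm⟩⟩
    | @rel _ m R ts =>
      right; left
      simp only [formulaCode, Nat.unpair_pair, true_and]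
      refine ⟨encode (List.ofFn fun i => (((ts i).realize (Sum.elim (default : Empty → U) v) : U) : ℕ)), ?_, ?_⟩
      · right
        exact ⟨m, R, fun i => (ts i).realize (Sum.elim (default : Empty → U) v), rfl, hφ⟩
      · exact ⟨n, v, m, ts, he, by simp, by simp⟩
    | imp φ ψ =>
      right; right; left
      simp only [formulaCode, Nat.unpair_pair, true_and]
      by_cases h1 : φ.Realize default v
      · have h2 := hφ h1
        right; right
        exact ⟨⟨n, v, φ, he, rfl, h1⟩, ⟨n, v, ψ, he, rfl, h2⟩⟩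
      · by_cases h2 : ψ.Realize default v
        · left; exact ⟨⟨n, v, φ, he, rfl, h1⟩, ⟨n, v, ψ, he, rfl, h2⟩⟩
        · right; left; exact ⟨⟨n, v, φ, he, rfl, h1⟩, ⟨n, v, ψ, he, rfl, h2⟩⟩
    | all φ =>
      right; right; right
      simp only [formulaCode, Nat.unpair_pair, true_and]
      rintro ⟨x, hx⟩
      refine hx ⟨n+1, Fin.snoc v x, φ, env_snoc he x, rfl, hφ x⟩
  · rintro (⟨hc, y, ⟨n, v, t, he, ht, hy⟩, ⟨n', v', t', he', ht', hy'⟩⟩ | ⟨hc, w, hd, ⟨n, v, m, ts, he, hl, hw⟩⟩ | ⟨hc, hh⟩ | ⟨hc, hh⟩)
    · obtain ⟨rfl, h4⟩ := Sigma.mk.inj_iff.1 (env_inj (he.symm.trans he'))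
      have h5 := eq_of_heq h4
      subst h5
      refine ⟨n, v, BoundedFormula.equal t t', he, ?_, ?_⟩
      · rw [formulaCode, ht, ht', Nat.pair_unpair, ← hc, Nat.pair_unpair]
      · exact Subtype.ext (hy.trans hy'.symm)
    · rcases hd with ⟨m, f, xs, hk⟩ | ⟨m', r, xs, hk, hr⟩
      · simp at hk
      · simp only [Nat.pair_eq_pair, true_and] at hk
        obtain ⟨h1, h2⟩ := hk
        rw [h2, ofNat_encode] at hw
        obtain ⟨rfl, h4⟩ := Sigma.mk.inj_iff.1 (env_inj hw)
        have h5 := eq_of_heq h4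
        subst h5
        refine ⟨n, v, BoundedFormula.rel r ts, he, ?_, hr⟩
        rw [formulaCode, ← h1, ← hl, encode_ofNat, Nat.pair_unpair, ← hc, Nat.pair_unpair]
    · rcases hh with ⟨⟨n, v, φ, he, h1, h2⟩, ⟨n', v', ψ, he', h1', h2'⟩⟩ | ⟨⟨n, v, φ, he, h1, h2⟩, ⟨n', v', ψ, he', h1', h2'⟩⟩ | ⟨⟨n, v, φ, he, h1, h2⟩, ⟨n', v', ψ, he', h1', h2'⟩⟩
      all_goals
        obtain ⟨rfl, h4⟩ := Sigma.mk.inj_iff.1 (env_inj (he.symm.trans he'))
        have h5 := eq_of_heq h4
        subst h5
        refine ⟨n, v, BoundedFormula.imp φ ψ, he, ?_, ?_⟩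
        · rw [formulaCode, h1, h1', Nat.pair_unpair, ← hc, Nat.pair_unpair]
        · intro h
          first | exact absurd h h2 | exact h2'
    · have hh' : ∀ x : U, TR L U k.unpair.2 (snoc e x) := by
        intro x
        by_contra hx
        exact hh ⟨x, hx⟩
      obtain ⟨x0, hx0⟩ := hU
      obtain ⟨n, v, φ, he, h1, h2⟩ := hh' ⟨x0, hx0⟩
      obtain ⟨n', v', y, hy, he', h6⟩ := env_of_snoc he
      obtain ⟨rfl, h4⟩ := Sigma.mk.inj_iff.1 h6
      refine ⟨n', v', φ.all, he', ?_, ?_⟩
      · rw [formulaCode, h1, ← hc, Nat.pair_unpair]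
      · intro x
        obtain ⟨n2, v2, φ2, he2, h12, h22⟩ := hh' x
        obtain ⟨rfl, h42⟩ := Sigma.mk.inj_iff.1 (env_inj (he2.symm.trans (env_snoc he' x)))
        have h52 := eq_of_heq h42
        subst h52
        have : φ2 = φ := formulaCode_injective _ (h12.trans h1.symm)
        rw [← this]
        exact h22

theorem FL_iff (k e : ℕ) : FL L U k e ↔
    (k.unpair.1 = 0 ∧ k.unpair.2 = 0 ∧ (∀ x ∈ ofNat (List ℕ) e, x ∈ U)) ∨
    (k.unpair.1 = 1 ∧ ∃ y : ℕ, y.unpair.1 ≠ y.unpair.2 ∧ TV L U k.unpair.2.unpair.1 e y.unpair.1 ∧ TV L U k.unpair.2.unpair.2 e y.unpair.2) ∨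
    (k.unpair.1 = 2 ∧ ∃ w, Nat.pair 1 (Nat.pair k.unpair.2.unpair.1 w) ∉ atomicDiagram L U ∧
      (∃ R : L.Relations (ofNat (List ℕ) w).length, encode (⟨_, R⟩ : Σ n, L.Relations n) = k.unpair.2.unpair.1) ∧
      LV L U k.unpair.2.unpair.2 e w) ∨
    (k.unpair.1 = 3 ∧ TR L U k.unpair.2.unpair.1 e ∧ FL L U k.unpair.2.unpair.2 e) ∨
    (k.unpair.1 = 4 ∧ ∃ y ∈ U, FL L U k.unpair.2 (snoc e y)) := by
  constructor
  · rintro ⟨n, v, φ, he, rfl, hφ⟩
    cases φ with
    | falsum => left; exact ⟨by simp [formulaCode], by simp [formulaCode], env_valid he⟩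
    | equal t₁ t₂ =>
      right; left
      simp only [formulaCode, Nat.unpair_pair, true_and]
      refine ⟨Nat.pair ((t₁.realize (Sum.elim (default : Empty → U) v) : U) : ℕ) ((t₂.realize (Sum.elim (default : Empty → U) v) : U) : ℕ), ?_, ?_, ?_⟩
      · simp only [Nat.unpair_pair]
        intro h
        exact hφ (Subtype.ext h)
      · exact ⟨n, v, t₁, he, rfl, by simp⟩
      · exact ⟨n, v, t₂, he, rfl, by simp⟩
    | @rel _ m R ts =>
      right; right; left
      simp only [formulaCode, Nat.unpair_pair, true_and]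
      refine ⟨encode (List.ofFn fun i => (((ts i).realize (Sum.elim (default : Empty → U) v) : U) : ℕ)), ?_, ?_, ?_⟩
      · rintro (⟨m, f, xs, hk⟩ | ⟨m', r, xs, hk, hr⟩)
        · simp at hk
        · simp only [Nat.pair_eq_pair, true_and, encode_inj] at hk
          obtain ⟨h1, h2⟩ := hk
          obtain ⟨rfl, h4⟩ := Sigma.mk.inj_iff.1 (env_inj h2)
          have h5 := eq_of_heq h4
          obtain ⟨_, h6⟩ := Sigma.mk.inj_iff.1 h1
          have h7 := eq_of_heq h6
          subst h7
          rw [← h5] at hr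
          exact hφ hr
      · rw [ofNat_encode, List.length_ofFn]
        exact ⟨R, rfl⟩
      · exact ⟨n, v, m, ts, he, by simp, by simp⟩
    | imp φ ψ =>
      right; right; right; left
      simp only [formulaCode, Nat.unpair_pair, true_and]
      simp only [BoundedFormula.Realize, not_forall] at hφ
      obtain ⟨h1, h2⟩ := hφ
      exact ⟨⟨n, v, φ, he, rfl, h1⟩, ⟨n, v, ψ, he, rfl, h2⟩⟩
    | all φ =>
      right; right; right; right
      simp only [formulaCode, Nat.unpair_pair, true_and]
      simp only [BoundedFormula.Realize, not_forall] at hφ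
      obtain ⟨x, hx⟩ := hφ
      exact ⟨x, x.2, n+1, Fin.snoc v x, φ, env_snoc he x, rfl, hx⟩
  · rintro (⟨hc, hc2, hv⟩ | ⟨hc, y, hne, ⟨n, v, t, he, ht, hy⟩, ⟨n', v', t', he', ht', hy'⟩⟩ | ⟨hc, w, hd, ⟨R, hR⟩, ⟨n, v, m, ts, he, hl, hw⟩⟩ | ⟨hc, ⟨n, v, φ, he, h1, h2⟩, ⟨n', v', ψ, he', h1', h2'⟩⟩ | ⟨hc, x, hxU, ⟨n, v, φ, he, h1, h2⟩⟩)
    · obtain ⟨v, he⟩ := env_exists hv
      refine ⟨_, v, BoundedFormula.falsum, he, ?_, fun h => h⟩
      rw [formulaCode, ← Nat.pair_unpair k, hc, hc2]
    · obtain ⟨rfl, h4⟩ := Sigma.mk.inj_iff.1 (env_inj (he.symm.trans he'))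
      have h5 := eq_of_heq h4
      subst h5
      refine ⟨n, v, BoundedFormula.equal t t', he, ?_, ?_⟩
      · rw [formulaCode, ht, ht', Nat.pair_unpair, ← hc, Nat.pair_unpair]
      · intro h
        exact hne (hy.symm.trans ((congrArg _ h).trans hy'))
    · have hlen : m = (ofNat (List ℕ) w).length := by rw [hw]; simp
      subst hlen
      refine ⟨n, v, BoundedFormula.rel R ts, he, ?_, ?_⟩
      · rw [formulaCode, hR, ← hl, encode_ofNat, Nat.pair_unpair, ← hc, Nat.pair_unpair]
      · intro h
        apply hd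
        right
        refine ⟨_, R, fun i => (ts i).realize (Sum.elim (default : Empty → U) v), ?_, h⟩
        rw [hR, ← hw, encode_ofNat]
    · obtain ⟨rfl, h4⟩ := Sigma.mk.inj_iff.1 (env_inj (he.symm.trans he'))
      have h5 := eq_of_heq h4
      subst h5
      refine ⟨n, v, BoundedFormula.imp φ ψ, he, ?_, ?_⟩
      · rw [formulaCode, h1, h1', Nat.pair_unpair, ← hc, Nat.pair_unpair]
      · intro h
        exact h2' (h h2)
    · obtain ⟨n', v', y, hy, he', h6⟩ := env_of_snoc he
      obtain ⟨rfl, h4⟩ := Sigma.mk.inj_iff.1 h6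
      have h5 := eq_of_heq h4
      subst h5
      refine ⟨n', v', φ.all, he', ?_, ?_⟩
      · rw [formulaCode, h1, ← hc, Nat.pair_unpair]
      · intro h
        exact h2 (h y)

end Sem

section Red

open FirstOrder FirstOrder.Language Encodable Denumerable

variable (L : FirstOrder.Language.{0, 0}) [Encodable (Σ n, L.Functions n)] [Encodable (Σ n, L.Relations n)]
variable (U : Set ℕ) [L.Structure U]

/-- truth of the statement coded by `s` -/
def VV (s : ℕ) : Prop :=
  (s.unpair.1 = 0 ∧ TV L U s.unpair.2.unpair.1 s.unpair.2.unpair.2.unpair.1 s.unpair.2.unpair.2.unpair.2) ∨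
  (s.unpair.1 = 1 ∧ LV L U s.unpair.2.unpair.1 s.unpair.2.unpair.2.unpair.1 s.unpair.2.unpair.2.unpair.2) ∨
  (s.unpair.1 = 2 ∧ TR L U s.unpair.2.unpair.1 s.unpair.2.unpair.2) ∨
  (s.unpair.1 = 3 ∧ FL L U s.unpair.2.unpair.1 s.unpair.2.unpair.2) ∨
  (s.unpair.1 = 4 ∧ NA L U s.unpair.2.unpair.1 s.unpair.2.unpair.2)

variable {L U}

theorem VV0 (c q : ℕ) : VV L U (st 0 c q) ↔ TV L U c q.unpair.1 q.unpair.2 := by simp [VV, st]
theorem VV1 (c q : ℕ) : VV L U (st 1 c q) ↔ LV L U c q.unpair.1 q.unpair.2 := by simp [VV, st]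
theorem VV2 (c q : ℕ) : VV L U (st 2 c q) ↔ TR L U c q := by simp [VV, st]
theorem VV3 (c q : ℕ) : VV L U (st 3 c q) ↔ FL L U c q := by simp [VV, st]
theorem VV4 (c q : ℕ) : VV L U (st 4 c q) ↔ NA L U c q := by simp [VV, st]

variable {D uU : ℕ → Bool} {ar : ℕ → Option ℕ}

theorem beq_false' {a b : ℕ} (h : ¬ a = b) : (a == b) = false := by simpa using h

theorem st_eta (s : ℕ) : s = st s.unpair.1 s.unpair.2.unpair.1 s.unpair.2.unpair.2 := by
  unfold st; rw [Nat.pair_unpair, Nat.pair_unpair]

theorem VV_iff (hU : U.Nonempty) (hD : ∀ k, D k = true ↔ k ∈ atomicDiagram L U)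
    (hu : ∀ k, uU k = true ↔ k ∈ U)
    (har : ∀ k n, ar k = some n ↔ ∃ R : L.Relations n, encode (⟨n, R⟩ : Σ n, L.Relations n) = k) (s : ℕ) :
    VV L U s ↔ ∃ y l, G D uU ar s y = some l ∧ ∀ q ∈ l, (VV L U q.1 ↔ q.2 = true) := by
  have hvl : ∀ e, vl uU e = true ↔ ∀ x ∈ ofNat (List ℕ) e, x ∈ U := by
    intro e; rw [vl_spec]; simp only [hu]
  obtain ⟨t, c, q, rfl⟩ : ∃ t c q, s = st t c q := ⟨_, _, _, st_eta s⟩
  by_cases h0 : t = 0
  · subst h0
    rw [VV0, TV_iff]
    have hG : ∀ y, G D uU ar (st 0 c q) y = G0 D uU (st 0 c q) y := by intro y; simp [G, st]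
    simp only [hG, G0]
    simp only [st, Nat.unpair_pair]
    by_cases hc0 : c.unpair.1 = 0
    · simp only [hc0, beq_self_eq_true, cond_true, true_and, zero_ne_one, false_and, or_false]
      constructor
      · rintro ⟨h1, h2⟩
        refine ⟨0, [], ?_, by simp⟩
        rw [(hvl _).2 h1, h2]; simp
      · rintro ⟨y, l, hl, _⟩
        cases hb : (vl uU q.unpair.1 && decide ((ofNat (List ℕ) q.unpair.1)[c.unpair.2]? = some q.unpair.2)) with
        | false => rw [hb] at hl; simp at hl
        | true =>
          simp only [Bool.and_eq_true, hvl, decide_eq_true_eq] at hb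
          exact hb
    · by_cases hc1 : c.unpair.1 = 1
      · simp only [hc1, one_ne_zero, false_and, false_or, true_and]
        constructor
        · rintro ⟨w, h1, h2⟩
          refine ⟨w, [(st 1 c.unpair.2.unpair.2 (Nat.pair q.unpair.1 w), true)], ?_, ?_⟩
          · rw [(hD _).2 h1]; rfl
          · intro q' hq'
            simp only [List.mem_singleton] at hq'
            subst hq'
            simp only [iff_true]
            exact (VV1 _ _).2 (by simpa using h2)
        · rintro ⟨w, l, hl, hq⟩
          simp only [show ((1:ℕ) == 0) = false from rfl, cond_false, beq_self_eq_true, Bool.true_and] at hl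
          cases hb : D (Nat.pair 0 (Nat.pair c.unpair.2.unpair.1 (Nat.pair w q.unpair.2))) with
          | false => rw [hb] at hl; simp at hl
          | true =>
            rw [hb] at hl
            simp only [cond_true, Option.some.injEq] at hl
            subst hl
            refine ⟨w, (hD _).1 hb, ?_⟩
            have := (hq _ (List.mem_singleton_self _)).2 rfl
            have := (VV1 _ _).1 this
            simpa using this
      · have f0 := beq_false' hc0
        have f1 := beq_false' hc1
        simp only [hc0, hc1, false_and, or_false, false_iff]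
        rintro ⟨y, l, hl, _⟩
        simp [f0, f1] at hl
  by_cases h1 : t = 1
  · subst h1
    rw [VV1, LV_iff]
    have hG : ∀ y, G D uU ar (st 1 c q) y = G1 uU (st 1 c q) := by intro y; simp [G, st]
    simp only [hG, G1]
    simp only [st, Nat.unpair_pair]
    by_cases hc0 : c = 0
    · subst hc0
      simp only [beq_self_eq_true, cond_true, true_and, ne_eq, not_true_eq_false, false_and, or_false]
      constructor
      · rintro ⟨h1, h2⟩
        refine ⟨0, [], ?_, by simp⟩
        rw [(hvl _).2 h2, h1]; simp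
      · rintro ⟨y, l, hl, _⟩
        cases hb : (q.unpair.2 == 0 && vl uU q.unpair.1) with
        | false => rw [hb] at hl; simp at hl
        | true =>
          simp only [Bool.and_eq_true, hvl, beq_iff_eq] at hb
          exact hb
    · by_cases hq0 : q.unpair.2 = 0
      · simp only [hc0, hq0, false_and, ne_eq, not_true_eq_false, and_false, or_false, false_iff]
        rintro ⟨y, l, hl, _⟩
        simp [beq_false' hc0] at hl
      · have e1 : (c == 0) = false := by simpa using hc0
        have e2 : (q.unpair.2 == 0) = false := by simpa using hq0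
        simp only [e1, e2, cond_false, hc0, hq0, false_and, false_or, ne_eq, not_false_eq_true, true_and, Option.some.injEq, exists_const, exists_eq_left', List.mem_cons, List.not_mem_nil, or_false, forall_eq_or_imp, forall_eq, iff_true]
        have a1 := VV0 (L := L) (U := U) (c-1).unpair.1 (Nat.pair q.unpair.1 (q.unpair.2 - 1).unpair.1)
        have a2 := VV1 (L := L) (U := U) (c-1).unpair.2 (Nat.pair q.unpair.1 (q.unpair.2 - 1).unpair.2)
        simp only [st, Nat.unpair_pair] at a1 a2
        rw [a1, a2]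
  by_cases h2 : t = 2
  · subst h2
    rw [VV2, TR_iff hU]
    have hG : ∀ y, G D uU ar (st 2 c q) y = G2 D (st 2 c q) y := by intro y; simp [G, st]
    simp only [hG, G2]
    simp only [st, Nat.unpair_pair]
    by_cases hc1 : c.unpair.1 = 1
    · simp only [hc1, show ((1:ℕ) == 1) = true from rfl, cond_true, true_and, OfNat.one_ne_ofNat, false_and, or_false, Option.some.injEq, exists_eq_left', List.mem_cons, List.not_mem_nil, forall_eq_or_imp, forall_eq, iff_true]
      refine exists_congr fun y => ?_
      have a1 := VV0 (L := L) (U := U) c.unpair.2.unpair.1 (Nat.pair q y)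
      have a2 := VV0 (L := L) (U := U) c.unpair.2.unpair.2 (Nat.pair q y)
      simp only [st, Nat.unpair_pair] at a1 a2
      rw [a1, a2]
    have e1 : (c.unpair.1 == 1) = false := by simpa using hc1
    simp only [e1, cond_false, hc1, false_and, false_or]
    by_cases hc2 : c.unpair.1 = 2
    · simp only [hc2, show ((2:ℕ) == 2) = true from rfl, cond_true, true_and, show ((2:ℕ) = 3) = False by simp, show ((2:ℕ) = 4) = False by simp, false_and, or_false]
      constructor
      · rintro ⟨w, h1, h2⟩
        refine ⟨w, [(st 1 c.unpair.2.unpair.2 (Nat.pair q w), true)], ?_, ?_⟩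
        · rw [(hD _).2 h1]; rfl
        · intro q' hq'
          simp only [List.mem_singleton] at hq'
          subst hq'
          simp only [iff_true]
          exact (VV1 _ _).2 (by simpa using h2)
      · rintro ⟨w, l, hl, hq⟩
        cases hb : D (Nat.pair 1 (Nat.pair c.unpair.2.unpair.1 w)) with
        | false => rw [hb] at hl; simp at hl
        | true =>
          rw [hb] at hl
          simp only [cond_true, Option.some.injEq] at hl
          subst hl
          refine ⟨w, (hD _).1 hb, ?_⟩
          have := (hq _ (List.mem_singleton_self _)).2 rfl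
          have := (VV1 _ _).1 this
          simpa using this
    have e2 : (c.unpair.1 == 2) = false := by simpa using hc2
    simp only [e2, cond_false, hc2, false_and, false_or]
    by_cases hc3 : c.unpair.1 = 3
    · simp only [hc3, show ((3:ℕ) == 3) = true from rfl, cond_true, true_and, show ((3:ℕ) = 4) = False by simp, false_and, or_false]
      have a1 := VV3 (L := L) (U := U) c.unpair.2.unpair.1 q
      have a2 := VV3 (L := L) (U := U) c.unpair.2.unpair.2 q
      have a3 := VV2 (L := L) (U := U) c.unpair.2.unpair.1 q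
      have a4 := VV2 (L := L) (U := U) c.unpair.2.unpair.2 q
      simp only [st] at a1 a2 a3 a4
      constructor
      · rintro (h | h | h)
        · refine ⟨0, _, rfl, ?_⟩
          simp only [List.mem_cons, List.not_mem_nil, or_false, forall_eq_or_imp, forall_eq, iff_true]
          rw [a1, a4]; exact h
        · refine ⟨1, _, rfl, ?_⟩
          simp only [List.mem_cons, List.not_mem_nil, or_false, forall_eq_or_imp, forall_eq, iff_true]
          rw [a1, a2]; exact h
        · refine ⟨2, _, rfl, ?_⟩
          simp only [List.mem_cons, List.not_mem_nil, or_false, forall_eq_or_imp, forall_eq, iff_true]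
          rw [a3, a4]; exact h
      · rintro ⟨y, l, hl, hq⟩
        by_cases hy0 : y = 0
        · subst hy0
          simp only [beq_self_eq_true, cond_true, Option.some.injEq] at hl
          subst hl
          simp only [List.mem_cons, List.not_mem_nil, or_false, forall_eq_or_imp, forall_eq, iff_true] at hq
          rw [a1, a4] at hq; exact Or.inl hq
        · by_cases hy1 : y = 1
          · subst hy1
            simp only [show ((1:ℕ) == 0) = false from rfl, cond_false, beq_self_eq_true, cond_true, Option.some.injEq] at hl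
            subst hl
            simp only [List.mem_cons, List.not_mem_nil, or_false, forall_eq_or_imp, forall_eq, iff_true] at hq
            rw [a1, a2] at hq; exact Or.inr (Or.inl hq)
          · have f0 : (y == 0) = false := by simpa using hy0
            have f1 : (y == 1) = false := by simpa using hy1
            simp only [f0, f1, cond_false, Option.some.injEq] at hl
            subst hl
            simp only [List.mem_cons, List.not_mem_nil, or_false, forall_eq_or_imp, forall_eq, iff_true] at hq
            rw [a3, a4] at hq; exact Or.inr (Or.inr hq)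
    have e3 : (c.unpair.1 == 3) = false := by simpa using hc3
    simp only [e3, cond_false, hc3, false_and, false_or]
    by_cases hc4 : c.unpair.1 = 4
    · have a1 := VV4 (L := L) (U := U) c.unpair.2 q
      simp only [st] at a1
      simp only [hc4, show ((4:ℕ) == 4) = true from rfl, cond_true, true_and, Option.some.injEq, exists_const, exists_eq_left', List.mem_singleton, forall_eq, Bool.false_eq_true, iff_false]
      rw [a1]
    · have e4 : (c.unpair.1 == 4) = false := by simpa using hc4
      simp [e4, hc4]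
  by_cases h3 : t = 3
  · subst h3
    rw [VV3, FL_iff]
    have hG : ∀ y, G D uU ar (st 3 c q) y = G3 D uU ar (st 3 c q) y := by intro y; simp [G, st]
    simp only [hG, G3]
    simp only [st, Nat.unpair_pair]
    by_cases hc0 : c.unpair.1 = 0
    · simp only [hc0, beq_self_eq_true, cond_true, true_and, zero_ne_one, false_and, or_false, show ((0:ℕ) = 2) = False by simp, show ((0:ℕ) = 3) = False by simp, show ((0:ℕ) = 4) = False by simp]
      constructor
      · rintro ⟨h1, h2⟩
        refine ⟨0, [], ?_, by simp⟩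
        rw [(hvl _).2 h2, h1]; simp
      · rintro ⟨y, l, hl, _⟩
        cases hb : (c.unpair.2 == 0 && vl uU q) with
        | false => rw [hb] at hl; simp at hl
        | true =>
          simp only [Bool.and_eq_true, hvl, beq_iff_eq] at hb
          exact hb
    have e0 : (c.unpair.1 == 0) = false := by simpa using hc0
    simp only [e0, cond_false, hc0, false_and, false_or]
    by_cases hc1 : c.unpair.1 = 1
    · simp only [hc1, show ((1:ℕ) == 1) = true from rfl, cond_true, true_and, OfNat.one_ne_ofNat, false_and, or_false]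
      refine exists_congr fun y => ?_
      have a1 := VV0 (L := L) (U := U) c.unpair.2.unpair.1 (Nat.pair q y.unpair.1)
      have a2 := VV0 (L := L) (U := U) c.unpair.2.unpair.2 (Nat.pair q y.unpair.2)
      simp only [st, Nat.unpair_pair] at a1 a2
      by_cases hy : y.unpair.1 = y.unpair.2
      · simp [hy]
      · have hy' : (y.unpair.1 == y.unpair.2) = false := by simpa using hy
        simp only [hy', cond_false, Option.some.injEq, exists_eq_left', List.mem_cons, List.not_mem_nil, or_false, forall_eq_or_imp, forall_eq, iff_true]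
        rw [a1, a2]
        simp [hy]
    have e1 : (c.unpair.1 == 1) = false := by simpa using hc1
    simp only [e1, cond_false, hc1, false_and, false_or]
    by_cases hc2 : c.unpair.1 = 2
    · simp only [hc2, show ((2:ℕ) == 2) = true from rfl, cond_true, true_and, show ((2:ℕ) = 3) = False by simp, show ((2:ℕ) = 4) = False by simp, false_and, or_false]
      constructor
      · rintro ⟨w, h1, hR, h2⟩
        refine ⟨w, [(st 1 c.unpair.2.unpair.2 (Nat.pair q w), true)], ?_, ?_⟩
        · have : D (Nat.pair 1 (Nat.pair c.unpair.2.unpair.1 w)) = false := by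
            rw [Bool.eq_false_iff, ne_eq, hD]; exact h1
          rw [this, (har _ _).2 hR]
          simp only [Bool.not_false, decide_true, Bool.and_self, cond_true]
          rfl
        · intro q' hq'
          simp only [List.mem_singleton] at hq'
          subst hq'
          simp only [iff_true]
          exact (VV1 _ _).2 (by simpa using h2)
      · rintro ⟨w, l, hl, hq⟩
        cases hb : (!D (Nat.pair 1 (Nat.pair c.unpair.2.unpair.1 w)) && decide (ar c.unpair.2.unpair.1 = some (ofNat (List ℕ) w).length)) with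
        | false => rw [hb] at hl; simp at hl
        | true =>
          rw [hb] at hl
          simp only [cond_true, Option.some.injEq] at hl
          subst hl
          simp only [Bool.and_eq_true, Bool.not_eq_true', decide_eq_true_eq] at hb
          refine ⟨w, ?_, (har _ _).1 hb.2, ?_⟩
          · rw [← hD, hb.1]; simp
          · have := (hq _ (List.mem_singleton_self _)).2 rfl
            have := (VV1 _ _).1 this
            simpa using this
    have e2 : (c.unpair.1 == 2) = false := by simpa using hc2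
    simp only [e2, cond_false, hc2, false_and, false_or]
    by_cases hc3 : c.unpair.1 = 3
    · simp only [hc3, show ((3:ℕ) == 3) = true from rfl, cond_true, true_and, show ((3:ℕ) = 4) = False by simp, false_and, or_false, Option.some.injEq, exists_const, exists_eq_left', List.mem_cons, List.not_mem_nil, forall_eq_or_imp, forall_eq, iff_true]
      have a2 := VV3 (L := L) (U := U) c.unpair.2.unpair.2 q
      have a3 := VV2 (L := L) (U := U) c.unpair.2.unpair.1 q
      simp only [st] at a2 a3
      rw [a2, a3]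
    have e3 : (c.unpair.1 == 3) = false := by simpa using hc3
    simp only [e3, cond_false, hc3, false_and, false_or]
    by_cases hc4 : c.unpair.1 = 4
    · simp only [hc4, show ((4:ℕ) == 4) = true from rfl, Bool.true_and, true_and]
      refine exists_congr fun y => ?_
      have a1 := VV3 (L := L) (U := U) c.unpair.2 (snoc q y)
      simp only [st] at a1
      cases hb : uU y with
      | false =>
        have : y ∉ U := by rw [← hu, hb]; simp
        simp [this]
      | true =>
        simp only [(hu y).1 hb, true_and, cond_true, Option.some.injEq, exists_eq_left', List.mem_singleton, forall_eq, iff_true]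
        rw [a1]
    · have e4 : (c.unpair.1 == 4) = false := by simpa using hc4
      simp [e4, hc4]
  by_cases h4 : t = 4
  · subst h4
    rw [VV4, NA]
    have hG : ∀ y, G D uU ar (st 4 c q) y = G4 uU (st 4 c q) y := by intro y; simp [G, st]
    simp only [hG, G4]
    simp only [st, Nat.unpair_pair]
    constructor
    · rintro ⟨x, hx⟩
      refine ⟨x, [(st 2 c (snoc q x), false)], ?_, ?_⟩
      · rw [(hu _).2 x.2]; rfl
      · intro q' hq'
        simp only [List.mem_singleton] at hq'
        subst hq'
        simp only [Bool.false_eq_true, iff_false]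
        exact fun h => hx ((VV2 _ _).1 h)
    · rintro ⟨y, l, hl, hq⟩
      cases hb : uU y with
      | false => rw [hb] at hl; simp at hl
      | true =>
        rw [hb] at hl
        simp only [cond_true, Option.some.injEq] at hl
        subst hl
        refine ⟨⟨y, (hu _).1 hb⟩, fun h => ?_⟩
        have := (hq _ (List.mem_singleton_self _)).1 ((VV2 _ _).2 h)
        simp at this
  · have : ∀ y, G D uU ar (st t c q) y = none := by
      intro y; simp [G, st, beq_false' h0, beq_false' h1, beq_false' h2, beq_false' h3, beq_false' h4]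
    constructor
    · intro h
      simp [VV, st, h0, h1, h2, h3, h4] at h
    · rintro ⟨y, l, hl, _⟩
      rw [this] at hl
      cases hl

theorem lt_of_tag {c : ℕ} (h : c.unpair.1 ≠ 0) : c.unpair.2 < c := by
  conv_rhs => rw [← Nat.pair_unpair c]
  generalize c.unpair.1 = a at *
  generalize c.unpair.2 = b at *
  have h1 := Nat.pos_of_ne_zero h
  unfold Nat.pair
  split
  · nlinarith [Nat.le_mul_self b]
  · nlinarith

theorem mu_st (t c q : ℕ) (h : t ≠ 4) : mu (st t c q) = 2 * c + 1 := by
  simp [mu, st, beq_false' h]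

theorem mu_st4 (c q : ℕ) : mu (st 4 c q) = 2 * c + 2 := by
  simp [mu, st]

theorem G_mu (s y : ℕ) (l : List (ℕ × Bool)) (hl : G D uU ar s y = some l) : ∀ q ∈ l, mu q.1 < mu s := by
  obtain ⟨t, c, q, rfl⟩ : ∃ t c q, s = st t c q := ⟨_, _, _, st_eta s⟩
  have hc1 : c.unpair.2.unpair.1 ≤ c.unpair.2 := Nat.unpair_left_le _
  have hc2 : c.unpair.2.unpair.2 ≤ c.unpair.2 := Nat.unpair_right_le _
  by_cases h0 : t = 0
  · subst h0
    have hG : G D uU ar (st 0 c q) y = G0 D uU (st 0 c q) y := by simp [G, st]
    rw [hG, G0] at hl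
    simp only [Bool.cond_eq_ite] at hl
    have e1 : (st 0 c q).unpair.2.unpair.1 = c := by simp [st]
    rw [e1] at hl
    split at hl
    · split at hl
      · cases hl; simp
      · cases hl
    · split at hl
      · rename_i hh
        cases hl
        simp only [Bool.and_eq_true, beq_iff_eq] at hh
        have := lt_of_tag (c := c) (by omega)
        simp only [List.mem_singleton, forall_eq]
        rw [mu_st _ _ _ (by simp), mu_st _ _ _ (by simp)]
        omega
      · cases hl
  by_cases h1 : t = 1
  · subst h1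
    have hG : G D uU ar (st 1 c q) y = G1 uU (st 1 c q) := by simp [G, st]
    rw [hG, G1] at hl
    simp only [Bool.cond_eq_ite] at hl
    have e1 : (st 1 c q).unpair.2.unpair.1 = c := by simp [st]
    rw [e1] at hl
    split at hl
    · split at hl
      · cases hl; simp
      · cases hl
    · rename_i hh
      have hh' : c ≠ 0 := by simpa using hh
      have b1 := Nat.unpair_left_le (c - 1)
      have b2 := Nat.unpair_right_le (c - 1)
      split at hl
      · cases hl
      · cases hl
        simp only [List.mem_cons, List.not_mem_nil, or_false, forall_eq_or_imp, forall_eq]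
        rw [mu_st _ _ _ (by simp), mu_st _ _ _ (by simp), mu_st _ _ _ (by simp)]
        omega
  by_cases h2 : t = 2
  · subst h2
    have hG : G D uU ar (st 2 c q) y = G2 D (st 2 c q) y := by simp [G, st]
    rw [hG, G2] at hl
    simp only [Bool.cond_eq_ite] at hl
    have e1 : (st 2 c q).unpair.2.unpair.1 = c := by simp [st]
    rw [e1] at hl
    split at hl
    · rename_i hh
      have := lt_of_tag (c := c) (by rw [beq_iff_eq] at hh; omega)
      cases hl
      simp only [List.mem_cons, List.not_mem_nil, or_false, forall_eq_or_imp, forall_eq]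
      rw [mu_st _ _ _ (by simp), mu_st _ _ _ (by simp), mu_st _ _ _ (by simp)]
      omega
    split at hl
    · rename_i hh
      have := lt_of_tag (c := c) (by rw [beq_iff_eq] at hh; omega)
      split at hl
      · cases hl
        simp only [List.mem_cons, List.not_mem_nil, or_false, forall_eq_or_imp, forall_eq]
        rw [mu_st _ _ _ (by simp), mu_st _ _ _ (by simp)]
        omega
      · cases hl
    split at hl
    · rename_i hh
      have := lt_of_tag (c := c) (by rw [beq_iff_eq] at hh; omega)
      split at hl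
      · cases hl
        simp only [List.mem_cons, List.not_mem_nil, or_false, forall_eq_or_imp, forall_eq]
        rw [mu_st _ _ _ (by simp), mu_st _ _ _ (by simp), mu_st _ _ _ (by simp)]
        omega
      split at hl
      · cases hl
        simp only [List.mem_cons, List.not_mem_nil, or_false, forall_eq_or_imp, forall_eq]
        rw [mu_st _ _ _ (by simp), mu_st _ _ _ (by simp), mu_st _ _ _ (by simp)]
        omega
      · cases hl
        simp only [List.mem_cons, List.not_mem_nil, or_false, forall_eq_or_imp, forall_eq]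
        rw [mu_st _ _ _ (by simp), mu_st _ _ _ (by simp), mu_st _ _ _ (by simp)]
        omega
    split at hl
    · rename_i hh
      have := lt_of_tag (c := c) (by rw [beq_iff_eq] at hh; omega)
      cases hl
      simp only [List.mem_cons, List.not_mem_nil, or_false, forall_eq]
      rw [mu_st4, mu_st _ _ _ (by simp)]
      omega
    · cases hl
  by_cases h3 : t = 3
  · subst h3
    have hG : G D uU ar (st 3 c q) y = G3 D uU ar (st 3 c q) y := by simp [G, st]
    rw [hG, G3] at hl
    simp only [Bool.cond_eq_ite] at hl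
    have e1 : (st 3 c q).unpair.2.unpair.1 = c := by simp [st]
    rw [e1] at hl
    split at hl
    · split at hl
      · cases hl; simp
      · cases hl
    split at hl
    · rename_i hh
      have := lt_of_tag (c := c) (by rw [beq_iff_eq] at hh; omega)
      split at hl
      · cases hl
      · cases hl
        simp only [List.mem_cons, List.not_mem_nil, or_false, forall_eq_or_imp, forall_eq]
        rw [mu_st _ _ _ (by simp), mu_st _ _ _ (by simp), mu_st _ _ _ (by simp)]
        omega
    split at hl
    · rename_i hh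
      have := lt_of_tag (c := c) (by rw [beq_iff_eq] at hh; omega)
      split at hl
      · cases hl
        simp only [List.mem_cons, List.not_mem_nil, or_false, forall_eq]
        rw [mu_st _ _ _ (by simp), mu_st _ _ _ (by simp)]
        omega
      · cases hl
    split at hl
    · rename_i hh
      have := lt_of_tag (c := c) (by rw [beq_iff_eq] at hh; omega)
      cases hl
      simp only [List.mem_cons, List.not_mem_nil, or_false, forall_eq_or_imp, forall_eq]
      rw [mu_st _ _ _ (by simp), mu_st _ _ _ (by simp), mu_st _ _ _ (by simp)]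
      omega
    split at hl
    · rename_i hh
      have := lt_of_tag (c := c) (by rw [Bool.and_eq_true, beq_iff_eq] at hh; omega)
      cases hl
      simp only [List.mem_cons, List.not_mem_nil, or_false, forall_eq]
      rw [mu_st _ _ _ (by simp), mu_st _ _ _ (by simp)]
      omega
    · cases hl
  by_cases h4 : t = 4
  · subst h4
    have hG : G D uU ar (st 4 c q) y = G4 uU (st 4 c q) y := by simp [G, st]
    rw [hG, G4] at hl
    simp only [Bool.cond_eq_ite] at hl
    have e1 : (st 4 c q).unpair.2.unpair.1 = c := by simp [st]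
    rw [e1] at hl
    split at hl
    · cases hl
      simp only [List.mem_cons, List.not_mem_nil, or_false, forall_eq]
      rw [mu_st _ _ _ (by simp), mu_st4]
      omega
    · cases hl
  · have : G D uU ar (st t c q) y = none := by
      simp [G, st, beq_false' h0, beq_false' h1, beq_false' h2, beq_false' h3, beq_false' h4]
    rw [this] at hl
    cases hl

/-- The complete theory of a computable structure is many-one reducible to the `omega`-jump. -/
theorem theory_reduce (hU : U.Nonempty) (hDc : Computable D) (hD : ∀ k, D k = true ↔ k ∈ atomicDiagram L U)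
    (huc : Computable uU) (hu : ∀ k, uU k = true ↔ k ∈ U) (harc : Computable ar)
    (har : ∀ k n, ar k = some n ↔ ∃ R : L.Relations n, encode (⟨n, R⟩ : Σ n, L.Relations n) = k) :
    ∃ r : ℕ → ℕ, Computable r ∧ ∀ k, k ∈ theoryCodes (L.completeTheory U) ↔ r k ∈ omegaJump := by
  obtain ⟨r, hr, h⟩ := tree_reduce (G D uU ar) (G_computable hDc huc harc) mu mu_primrec
    (fun s y l hl => G_mu s y l hl) (VV L U) (VV_iff hU hD hu har)
  refine ⟨fun k => r (st 2 k (encode ([] : List ℕ))), hr.comp (pst (Primrec.const 2) Primrec.id (Primrec.const _)).to_comp, fun k => ?_⟩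
  rw [← h, VV2]
  constructor
  · rintro ⟨φ, hφ, rfl⟩
    have h0 : BoundedFormula.Realize φ (default : Empty → U) (default : Fin 0 → U) := hφ
    exact ⟨0, default, φ, by simp, rfl, h0⟩
  · rintro ⟨n, v, φ, he, hk, hφ⟩
    rw [ofNat_encode] at he
    have hn : n = 0 := by
      have := congrArg List.length he
      simpa using this.symm
    subst hn
    refine ⟨φ, ?_, hk.symm⟩
    have hv : v = default := funext fun i => i.elim0
    rw [hv] at hφ
    exact hφ

end Red

section Dom

open Encodable Denumerable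

/-- the halting problem is reducible to the omega jump -/
theorem dom_reduce {α σ} [Primcodable α] [Primcodable σ] {f : α →. σ} (hf : Partrec f) :
    ∃ h : α → ℕ, Computable h ∧ ∀ x, (f x).Dom ↔ h x ∈ omegaJump := by
  obtain ⟨c0, hc0⟩ := Nat.Partrec.Code.exists_code.1 hf
  have h1 : Partrec (fun q : ℕ => c0.eval q.unpair.2) :=
    Nat.Partrec.Code.eval_part.comp (Computable.const c0) (Computable.snd.comp Computable.unpair)
  obtain ⟨c, hc⟩ := Nat.Partrec.Code.exists_code.1 (Partrec.nat_iff.1 h1)
  refine ⟨fun x => Nat.pair 1 (Nat.pair (encode c) (encode x)), ?_, fun x => ?_⟩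
  · exact (pq (Primrec.const 1) (pq (Primrec.const _) Primrec.encode)).to_comp
  · have h2 : J 1 = jump ∅ := J_succ 0
    simp only [omegaJump, Set.mem_ofPred_eq, Nat.unpair_pair, h2, jump, ofNat_encode, hc, hc0, encodek]
    simp

end Dom

section Ev

/-- eventually along initial segments -/
def Ev {σ : Type} (a : ℕ → ℕ) (P : List ℕ → Part σ) (y : σ) : Prop := ∃ n, y ∈ P (init a n)

/-- monotone in the oracle string -/
def Mono {σ : Type} (P : List ℕ → Part σ) : Prop := ∀ l l', l <+: l' → ∀ y, y ∈ P l → y ∈ P l'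

/-- look up an oracle value -/
def lk (q : ℕ) (l : List ℕ) : Part ℕ := (l[q]? : Option ℕ)

theorem Mono.lk (q : ℕ) : Mono (lk q) := by
  intro l l' h y hy
  obtain ⟨t, rfl⟩ := h
  simp only [Jump.lk, Part.mem_coe, Option.mem_def] at hy ⊢
  rw [List.getElem?_append_left]
  · exact hy
  · by_contra hlt
    rw [List.getElem?_eq_none (by omega)] at hy
    cases hy

theorem Ev.lk (a : ℕ → ℕ) (q : ℕ) : Ev a (lk q) (a q) := by
  refine ⟨q+1, ?_⟩
  simp [Jump.lk, getElem?_init]

theorem Mono.const {σ : Type} (p : Part σ) : Mono (fun _ => p) := fun _ _ _ _ h => h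

theorem Ev.const {σ : Type} (a : ℕ → ℕ) {p : Part σ} {y : σ} (h : y ∈ p) : Ev a (fun _ => p) y := ⟨0, h⟩

theorem Mono.bind {σ τ : Type} {P : List ℕ → Part σ} {Q : σ → List ℕ → Part τ} (hP : Mono P) (hQ : ∀ x, Mono (Q x)) :
    Mono (fun l => (P l).bind fun x => Q x l) := by
  intro l l' h y hy
  simp only [Part.mem_bind_iff] at hy ⊢
  obtain ⟨x, hx, hy⟩ := hy
  exact ⟨x, hP _ _ h _ hx, hQ _ _ _ h _ hy⟩

theorem Ev.bind {σ τ : Type} {a : ℕ → ℕ} {P : List ℕ → Part σ} {Q : σ → List ℕ → Part τ} (hP : Mono P) (hQ : ∀ x, Mono (Q x))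
    {x : σ} {y : τ} (h1 : Ev a P x) (h2 : Ev a (Q x) y) :
    Ev a (fun l => (P l).bind fun x => Q x l) y := by
  obtain ⟨n1, h1⟩ := h1
  obtain ⟨n2, h2⟩ := h2
  refine ⟨max n1 n2, ?_⟩
  simp only [Part.mem_bind_iff]
  exact ⟨x, hP _ _ (init_prefix a (le_max_left _ _)) _ h1, hQ _ _ _ (init_prefix a (le_max_right _ _)) _ h2⟩

theorem Mono.map {σ τ : Type} {P : List ℕ → Part σ} (f : σ → τ) (hP : Mono P) :
    Mono (fun l => (P l).map f) := by
  intro l l' h y hy
  simp only [Part.mem_map_iff] at hy ⊢
  obtain ⟨x, hx, hy⟩ := hy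
  exact ⟨x, hP _ _ h _ hx, hy⟩

theorem Ev.map {σ τ : Type} {a : ℕ → ℕ} {P : List ℕ → Part σ} (f : σ → τ) {x : σ} (h1 : Ev a P x) :
    Ev a (fun l => (P l).map f) (f x) := by
  obtain ⟨n1, h1⟩ := h1
  exact ⟨n1, Part.mem_map _ h1⟩

theorem Mono.cond {σ : Type} {P Q : List ℕ → Part σ} (b : Bool) (hP : Mono P) (hQ : Mono Q) :
    Mono (fun l => bif b then P l else Q l) := by
  cases b
  · exact hQ
  · exact hP

theorem Ev.unique {σ : Type} {a : ℕ → ℕ} {P : List ℕ → Part σ} (hP : Mono P) {x y : σ} (hx : Ev a P x) (hy : Ev a P y) : x = y := by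
  obtain ⟨n1, h1⟩ := hx
  obtain ⟨n2, h2⟩ := hy
  exact Part.mem_unique (hP _ _ (init_prefix a (le_max_left n1 n2)) _ h1) (hP _ _ (init_prefix a (le_max_right n1 n2)) _ h2)

end Ev

section KP

open Encodable Denumerable

/-- code of a binary string -/
def en (σ : List Bool) : ℕ := encode (σ.map Bool.toNat)

theorem pen {α} [Primcodable α] {f : α → List Bool} (hf : Primrec f) : Primrec fun a => en (f a) := by
  refine Primrec.encode.comp (Primrec.list_map hf ?_)
  exact ((Primrec.dom_finite (α := Bool) Bool.toNat).comp Primrec.snd).to₂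

/-- search for a splitting -/
def sp (p : ℕ × List Bool) (w : ℕ) : Option ((List Bool × List Bool) × (ℕ × ℕ)) :=
  (decode (α := (List Bool × List Bool) × (ℕ × ℕ)) w).bind fun u =>
    (Nat.Partrec.Code.evaln u.2.2 (ofNat Code p.1) (Nat.pair (en (p.2 ++ u.1.1)) u.2.1)).bind fun y0 =>
      (Nat.Partrec.Code.evaln u.2.2 (ofNat Code p.1) (Nat.pair (en (p.2 ++ u.1.2)) u.2.1)).bind fun y1 =>
        bif y0 == y1 then none else some (u.1, (u.2.1, y0))

theorem sp_primrec : Primrec₂ sp := by
  refine Primrec.option_bind (Primrec.decode.comp Primrec.snd) ?_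
  have e1 : Primrec (fun x : ((ℕ × List Bool) × ℕ) × (List Bool × List Bool) × ℕ × ℕ =>
      Nat.Partrec.Code.evaln x.2.2.2 (ofNat Code x.1.1.1) (Nat.pair (en (x.1.1.2 ++ x.2.1.1)) x.2.2.1)) := by
    refine Nat.Partrec.Code.primrec_evaln.comp (((Primrec.snd.comp (Primrec.snd.comp Primrec.snd)).pair ((Primrec.ofNat _).comp (Primrec.fst.comp (Primrec.fst.comp Primrec.fst)))).pair ?_)
    refine pq (pen ?_) (Primrec.fst.comp (Primrec.snd.comp Primrec.snd))
    exact Primrec.list_append.comp (Primrec.snd.comp (Primrec.fst.comp Primrec.fst)) (Primrec.fst.comp (Primrec.fst.comp Primrec.snd))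
  have e2 : Primrec (fun x : ((ℕ × List Bool) × ℕ) × (List Bool × List Bool) × ℕ × ℕ =>
      Nat.Partrec.Code.evaln x.2.2.2 (ofNat Code x.1.1.1) (Nat.pair (en (x.1.1.2 ++ x.2.1.2)) x.2.2.1)) := by
    refine Nat.Partrec.Code.primrec_evaln.comp (((Primrec.snd.comp (Primrec.snd.comp Primrec.snd)).pair ((Primrec.ofNat _).comp (Primrec.fst.comp (Primrec.fst.comp Primrec.fst)))).pair ?_)
    refine pq (pen ?_) (Primrec.fst.comp (Primrec.snd.comp Primrec.snd))
    exact Primrec.list_append.comp (Primrec.snd.comp (Primrec.fst.comp Primrec.fst)) (Primrec.snd.comp (Primrec.fst.comp Primrec.snd))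
  refine Primrec.option_bind e1 ?_
  refine Primrec.option_bind (e2.comp Primrec.fst) ?_
  refine Primrec.cond (peq (Primrec.snd.comp Primrec.fst) Primrec.snd) (Primrec.const none) ?_
  refine Primrec.option_some.comp ?_
  have hu : Primrec (fun x : ((((ℕ × List Bool) × ℕ) × (List Bool × List Bool) × ℕ × ℕ) × ℕ) × ℕ => x.1.1.2) :=
    Primrec.snd.comp (Primrec.fst.comp Primrec.fst)
  exact (Primrec.fst.comp hu).pair ((Primrec.fst.comp (Primrec.snd.comp hu)).pair (Primrec.snd.comp Primrec.fst))

theorem sp_spec {p : ℕ × List Bool} {w : ℕ} {r : (List Bool × List Bool) × (ℕ × ℕ)} (h : r ∈ sp p w) :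
    r.2.2 ∈ (ofNat Code p.1).eval (Nat.pair (en (p.2 ++ r.1.1)) r.2.1) ∧
    ∃ y1, y1 ∈ (ofNat Code p.1).eval (Nat.pair (en (p.2 ++ r.1.2)) r.2.1) ∧ r.2.2 ≠ y1 := by
  simp only [sp, Option.mem_def, Option.bind_eq_some_iff] at h
  obtain ⟨u, _, y0, h0, y1, h1, h2⟩ := h
  by_cases hy : y0 = y1
  · rw [hy] at h2; simp at h2
  · rw [beq_false' hy] at h2
    simp only [cond_false, Option.some.injEq] at h2
    subst h2
    exact ⟨Nat.Partrec.Code.evaln_sound h0, y1, Nat.Partrec.Code.evaln_sound h1, hy⟩

theorem sp_complete {p : ℕ × List Bool} {t0 t1 : List Bool} {k y0 y1 : ℕ}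
    (h0 : y0 ∈ (ofNat Code p.1).eval (Nat.pair (en (p.2 ++ t0)) k))
    (h1 : y1 ∈ (ofNat Code p.1).eval (Nat.pair (en (p.2 ++ t1)) k)) (hne : y0 ≠ y1) :
    ∃ w r, r ∈ sp p w := by
  obtain ⟨n0, h0⟩ := Nat.Partrec.Code.evaln_complete.1 h0
  obtain ⟨n1, h1⟩ := Nat.Partrec.Code.evaln_complete.1 h1
  refine ⟨encode ((t0, t1), (k, max n0 n1)), ((t0, t1), (k, y0)), ?_⟩
  have h0' := Nat.Partrec.Code.evaln_mono (le_max_left n0 n1) h0
  have h1' := Nat.Partrec.Code.evaln_mono (le_max_right n0 n1) h1
  simp only [sp, encodek, Option.bind_some]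
  rw [Option.mem_def.1 h0', Option.bind_some, Option.mem_def.1 h1', Option.bind_some, beq_false' hne]
  rfl

/-- a splitting above a string, if there is one -/
def spl (p : ℕ × List Bool) : Part ((List Bool × List Bool) × (ℕ × ℕ)) := Nat.rfindOpt (sp p)

theorem spl_partrec : Partrec spl := Partrec.rfindOpt sp_primrec.to_comp

/-- run the program with index `p.1` on input `p.2` -/
def run (p : ℕ × ℕ) : Part ℕ := (ofNat Code p.1).eval p.2

theorem run_partrec : Partrec run :=
  Nat.Partrec.Code.eval_part.comp ((Computable.ofNat _).comp Computable.fst) Computable.snd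

noncomputable def q1 : ℕ × List Bool → ℕ := (dom_reduce spl_partrec).choose
theorem q1_comp : Computable q1 := (dom_reduce spl_partrec).choose_spec.1
theorem q1_spec (p) : (spl p).Dom ↔ q1 p ∈ omegaJump := (dom_reduce spl_partrec).choose_spec.2 p

noncomputable def q2 : ℕ × ℕ → ℕ := (dom_reduce run_partrec).choose
theorem q2_comp : Computable q2 := (dom_reduce run_partrec).choose_spec.1
theorem q2_spec (p) : (run p).Dom ↔ q2 p ∈ omegaJump := (dom_reduce run_partrec).choose_spec.2 p

/-- the oracle -/
noncomputable abbrev orc : ℕ → ℕ := chi omegaJump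

/-- first half of a stage -/
noncomputable def ext (s : ℕ) (σ : List Bool) (l : List ℕ) : Part (List Bool) :=
  (lk (q1 (s.unpair.1, σ)) l).bind fun b1 => bif b1 == 1 then
    ((spl (s.unpair.1, σ)).bind fun w => (lk (q2 (s.unpair.2, w.2.1)) l).bind fun b2 => bif b2 == 1 then
      ((run (s.unpair.2, w.2.1)).bind fun m => (lk m l).map fun b3 => bif w.2.2 == b3 then σ ++ w.1.2 else σ ++ w.1.1)
      else Part.some σ)
    else Part.some σ

/-- second half of a stage -/
noncomputable def dg (c : ℕ) (τ : List Bool) (l : List ℕ) : Part (List Bool) :=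
  (lk (q2 (c, τ.length)) l).bind fun b => bif b == 1 then
    ((run (c, τ.length)).map fun v => τ ++ [!(v == 1)])
    else Part.some (τ ++ [false])

/-- one stage -/
noncomputable def nxt (s : ℕ) (σ : List Bool) (l : List ℕ) : Part (List Bool) :=
  (ext s σ l).bind fun τ => dg s.unpair.1 τ l

/-- stages -/
noncomputable def stg (s : ℕ) (l : List ℕ) : Part (List Bool) :=
  Nat.rec (Part.some []) (fun s ih => ih.bind fun σ => nxt s σ l) s

/-- value at `i` -/
noncomputable def val (l : List ℕ) (i : ℕ) : Part ℕ :=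
  (stg (i+1) l).map fun σ => ((σ[i]?).getD false).toNat

theorem ext_mono (s σ) : Mono (ext s σ) := by
  refine Mono.bind (Mono.lk _) fun b1 => Mono.cond _ (Mono.bind (Mono.const _) fun w => Mono.bind (Mono.lk _) fun b2 => Mono.cond _ (Mono.bind (Mono.const _) fun m => Mono.map _ (Mono.lk _)) (Mono.const _)) (Mono.const _)

theorem dg_mono (c τ) : Mono (dg c τ) :=
  Mono.bind (Mono.lk _) fun _ => Mono.cond _ (Mono.map _ (Mono.const _)) (Mono.const _)

theorem nxt_mono (s σ) : Mono (nxt s σ) := Mono.bind (ext_mono _ _) fun _ => dg_mono _ _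

theorem stg_mono (s) : Mono (stg s) := by
  induction s with
  | zero => exact Mono.const _
  | succ s ih => exact Mono.bind ih fun σ => nxt_mono s σ

theorem lk_part {α} [Primcodable α] {f : α → ℕ} {g : α → List ℕ} (hf : Computable f) (hg : Computable g) :
    Partrec fun a => lk (f a) (g a) :=
  (Computable.list_getElem?.comp hg hf).ofOption

theorem ext_part : Partrec (fun p : (ℕ × List Bool) × List ℕ => ext p.1.1 p.1.2 p.2) := by
  have hs : Computable (fun p : (ℕ × List Bool) × List ℕ => p.1.1) := Computable.fst.comp Computable.fst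
  have hσ : Computable (fun p : (ℕ × List Bool) × List ℕ => p.1.2) := Computable.snd.comp Computable.fst
  have hl : Computable (fun p : (ℕ × List Bool) × List ℕ => p.2) := Computable.snd
  have hc : Computable (fun p : (ℕ × List Bool) × List ℕ => p.1.1.unpair.1) := Computable.fst.comp (Computable.unpair.comp hs)
  have hj : Computable (fun p : (ℕ × List Bool) × List ℕ => p.1.1.unpair.2) := Computable.snd.comp (Computable.unpair.comp hs)
  unfold ext
  refine Partrec.bind (lk_part (q1_comp.comp (hc.pair hσ)) hl) ?_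
  refine Partrec.cond (Primrec.beq.to_comp.comp Computable.snd (Computable.const 1)) ?_ (Partrec.some.comp (hσ.comp Computable.fst))
  refine Partrec.bind (spl_partrec.comp ((hc.pair hσ).comp Computable.fst)) ?_
  have hw : Computable (fun p : ((((ℕ × List Bool) × List ℕ) × ℕ) × ((List Bool × List Bool) × (ℕ × ℕ))) => p.2) := Computable.snd
  have hp : Computable (fun p : ((((ℕ × List Bool) × List ℕ) × ℕ) × ((List Bool × List Bool) × (ℕ × ℕ))) => p.1.1) := Computable.fst.comp Computable.fst
  have hk : Computable (fun p : ((((ℕ × List Bool) × List ℕ) × ℕ) × ((List Bool × List Bool) × (ℕ × ℕ))) => p.2.2.1) := Computable.fst.comp (Computable.snd.comp Computable.snd)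
  refine Partrec.bind (lk_part (q2_comp.comp ((hj.comp hp).pair hk)) (hl.comp hp)) ?_
  refine Partrec.cond (Primrec.beq.to_comp.comp Computable.snd (Computable.const 1)) ?_ (Partrec.some.comp (hσ.comp (hp.comp Computable.fst)))
  refine Partrec.bind (run_partrec.comp (((hj.comp hp).pair hk).comp Computable.fst)) ?_
  refine Partrec.map (lk_part Computable.snd (hl.comp (hp.comp (Computable.fst.comp Computable.fst)))) ?_
  have hq : Computable (fun p : (((((((ℕ × List Bool) × List ℕ) × ℕ) × ((List Bool × List Bool) × (ℕ × ℕ))) × ℕ) × ℕ) × ℕ) => p.1.1.1) :=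
    Computable.fst.comp (Computable.fst.comp Computable.fst)
  refine Computable.cond (Primrec.beq.to_comp.comp ((Computable.snd.comp (Computable.snd.comp Computable.snd)).comp hq) Computable.snd) ?_ ?_
  · exact (Computable.list_append.comp (hσ.comp (hp.comp hq)) ((Computable.snd.comp (Computable.fst.comp Computable.snd)).comp hq))
  · exact (Computable.list_append.comp (hσ.comp (hp.comp hq)) ((Computable.fst.comp (Computable.fst.comp Computable.snd)).comp hq))

theorem dg_part : Partrec (fun p : (ℕ × List Bool) × List ℕ => dg p.1.1 p.1.2 p.2) := by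
  have hc : Computable (fun p : (ℕ × List Bool) × List ℕ => p.1.1) := Computable.fst.comp Computable.fst
  have hτ : Computable (fun p : (ℕ × List Bool) × List ℕ => p.1.2) := Computable.snd.comp Computable.fst
  have hl : Computable (fun p : (ℕ × List Bool) × List ℕ => p.2) := Computable.snd
  have hlen : Computable (fun p : (ℕ × List Bool) × List ℕ => p.1.2.length) := Computable.list_length.comp hτ
  unfold dg
  refine Partrec.bind (lk_part (q2_comp.comp (hc.pair hlen)) hl) ?_
  refine Partrec.cond (Primrec.beq.to_comp.comp Computable.snd (Computable.const 1)) ?_ ?_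
  · refine Partrec.map (run_partrec.comp ((hc.pair hlen).comp Computable.fst)) ?_
    refine Computable.list_append.comp (hτ.comp (Computable.fst.comp Computable.fst)) ?_
    refine Computable.list_cons.comp ?_ (Computable.const [])
    exact Primrec.not.to_comp.comp (Primrec.beq.to_comp.comp Computable.snd (Computable.const 1))
  · exact Partrec.some.comp (Computable.list_append.comp (hτ.comp Computable.fst) (Computable.const _))

theorem nxt_part : Partrec (fun p : (ℕ × List Bool) × List ℕ => nxt p.1.1 p.1.2 p.2) := by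
  have h : Partrec₂ (fun (p : (ℕ × List Bool) × List ℕ) (τ : List Bool) => dg p.1.1.unpair.1 τ p.2) := by
    have := dg_part.comp (g := fun (y : ((ℕ × List Bool) × List ℕ) × List Bool) => ((y.1.1.1.unpair.1, y.2), y.1.2))
      (((Computable.fst.comp (Computable.unpair.comp (Computable.fst.comp (Computable.fst.comp Computable.fst)))).pair Computable.snd).pair (Computable.snd.comp Computable.fst))
    exact this
  exact Partrec.bind ext_part h

theorem stg_part : Partrec (fun p : ℕ × List ℕ => stg p.1 p.2) := by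
  have h1 : Partrec (fun _ : ℕ × List ℕ => (Part.some [] : Part (List Bool))) :=
    (Computable.const ([] : List Bool)).partrec
  have h2 : Partrec₂ (fun (p : ℕ × List ℕ) (x : ℕ × List Bool) => nxt x.1 x.2 p.2) := by
    have := nxt_part.comp (g := fun (y : (ℕ × List ℕ) × (ℕ × List Bool)) => (y.2, y.1.2))
      (Computable.snd.pair (Computable.snd.comp Computable.fst))
    exact this
  have h3 := Partrec.nat_rec (f := fun p : ℕ × List ℕ => p.1) Computable.fst h1 h2
  exact h3

theorem val_part : Partrec₂ (α := List ℕ) (β := ℕ) (σ := ℕ) val := by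
  have h1 : Partrec (fun p : List ℕ × ℕ => stg (p.2 + 1) p.1) := by
    have := stg_part.comp (g := fun p : List ℕ × ℕ => (p.2 + 1, p.1)) ((Computable.succ.comp Computable.snd).pair Computable.fst)
    exact this
  have h2 : Computable₂ (fun (p : List ℕ × ℕ) (σ : List Bool) => ((σ[p.2]?).getD false).toNat) := by
    refine (Primrec.to_comp ?_)
    refine (Primrec.dom_finite (α := Bool) Bool.toNat).comp (Primrec.option_getD.comp (Primrec.list_getElem?.comp Primrec.snd (Primrec.snd.comp Primrec.fst)) (Primrec.const false))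
  exact Partrec.map h1 h2

end KP

section KP2

open Encodable Denumerable

theorem orc_one {q : ℕ} (h : q ∈ omegaJump) : (orc q == 1) = true := by
  rw [orc, chi_eq_one.2 h]; rfl

theorem orc_zero {q : ℕ} (h : q ∉ omegaJump) : (orc q == 1) = false := by
  rw [orc, chi_eq_zero.2 h]; rfl

theorem ext_spec (s : ℕ) (σ : List Bool) : ∃ τ, Ev orc (ext s σ) τ ∧ σ <+: τ ∧
    ((∃ k y m, m ∈ run (s.unpair.2, k) ∧ y ∈ (ofNat Code s.unpair.1).eval (Nat.pair (en τ) k) ∧ y ≠ orc m) ∨
    (∃ k, ¬ (run (s.unpair.2, k)).Dom) ∨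
    (∀ t0 t1 k y0 y1, y0 ∈ (ofNat Code s.unpair.1).eval (Nat.pair (en (σ ++ t0)) k) →
      y1 ∈ (ofNat Code s.unpair.1).eval (Nat.pair (en (σ ++ t1)) k) → y0 = y1)) := by
  have M1 : ∀ b1 : ℕ, Mono (fun l => bif b1 == 1 then
    ((spl (s.unpair.1, σ)).bind fun w => (lk (q2 (s.unpair.2, w.2.1)) l).bind fun b2 => bif b2 == 1 then
      ((run (s.unpair.2, w.2.1)).bind fun m => (lk m l).map fun b3 => bif w.2.2 == b3 then σ ++ w.1.2 else σ ++ w.1.1)
      else Part.some σ)
    else Part.some σ) := fun b1 => Mono.cond _ (Mono.bind (Mono.const _) fun w => Mono.bind (Mono.lk _) fun b2 => Mono.cond _ (Mono.bind (Mono.const _) fun m => Mono.map _ (Mono.lk _)) (Mono.const _)) (Mono.const _)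
  have M2 : ∀ w : (List Bool × List Bool) × (ℕ × ℕ), Mono (fun l => (lk (q2 (s.unpair.2, w.2.1)) l).bind fun b2 => bif b2 == 1 then
      ((run (s.unpair.2, w.2.1)).bind fun m => (lk m l).map fun b3 => bif w.2.2 == b3 then σ ++ w.1.2 else σ ++ w.1.1)
      else Part.some σ) := fun w => Mono.bind (Mono.lk _) fun b2 => Mono.cond _ (Mono.bind (Mono.const _) fun m => Mono.map _ (Mono.lk _)) (Mono.const _)
  have M3 : ∀ (w : (List Bool × List Bool) × (ℕ × ℕ)) (b2 : ℕ), Mono (fun l => bif b2 == 1 then
      ((run (s.unpair.2, w.2.1)).bind fun m => (lk m l).map fun b3 => bif w.2.2 == b3 then σ ++ w.1.2 else σ ++ w.1.1)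
      else Part.some σ) := fun w b2 => Mono.cond _ (Mono.bind (Mono.const _) fun m => Mono.map _ (Mono.lk _)) (Mono.const _)
  by_cases hS : (spl (s.unpair.1, σ)).Dom
  · have h1 := orc_one ((q1_spec _).1 hS)
    obtain ⟨w, hw⟩ := Part.dom_iff_mem.1 hS
    obtain ⟨n, hn⟩ := Nat.rfindOpt_spec hw
    obtain ⟨hy0, y1, hy1, hne⟩ := sp_spec hn
    by_cases hE : (run (s.unpair.2, w.2.1)).Dom
    · have h2 := orc_one ((q2_spec _).1 hE)
      obtain ⟨m, hm⟩ := Part.dom_iff_mem.1 hE
      refine ⟨bif w.2.2 == orc m then σ ++ w.1.2 else σ ++ w.1.1, ?_, ?_, Or.inl ?_⟩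
      · refine Ev.bind (Mono.lk _) M1 (Ev.lk orc _) ?_
        simp only [h1, cond_true]
        refine Ev.bind (P := fun _ => spl (s.unpair.1, σ)) (Mono.const _) M2 (Ev.const _ hw) ?_
        refine Ev.bind (Mono.lk _) (M3 w) (Ev.lk orc _) ?_
        simp only [h2, cond_true]
        refine Ev.bind (P := fun _ => run (s.unpair.2, w.2.1)) (Mono.const _) (fun m => Mono.map _ (Mono.lk _)) (Ev.const _ hm) ?_
        exact Ev.map (fun b3 => bif w.2.2 == b3 then σ ++ w.1.2 else σ ++ w.1.1) (Ev.lk orc m)
      · cases (w.2.2 == orc m)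
        · exact List.prefix_append _ _
        · exact List.prefix_append _ _
      · by_cases he : w.2.2 = orc m
        · refine ⟨w.2.1, y1, m, hm, ?_, ?_⟩
          · rw [he, beq_self_eq_true]; exact hy1
          · rw [← he]; exact hne.symm
        · refine ⟨w.2.1, w.2.2, m, hm, ?_, he⟩
          rw [beq_false' he]; exact hy0
    · have h2 := orc_zero (fun h => hE ((q2_spec _).2 h))
      refine ⟨σ, ?_, List.prefix_refl _, Or.inr (Or.inl ⟨_, hE⟩)⟩
      refine Ev.bind (Mono.lk _) M1 (Ev.lk orc _) ?_
      simp only [h1, cond_true]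
      refine Ev.bind (P := fun _ => spl (s.unpair.1, σ)) (Mono.const _) M2 (Ev.const _ hw) ?_
      refine Ev.bind (Mono.lk _) (M3 w) (Ev.lk orc _) ?_
      simp only [h2, cond_false]
      exact Ev.const _ (Part.mem_some _)
  · have h1 := orc_zero (fun h => hS ((q1_spec _).2 h))
    refine ⟨σ, ?_, List.prefix_refl _, Or.inr (Or.inr ?_)⟩
    · refine Ev.bind (Mono.lk _) M1 (Ev.lk orc _) ?_
      simp only [h1, cond_false]
      exact Ev.const _ (Part.mem_some _)
    · intro t0 t1 k y0 y1 h0 h1
      by_contra hne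
      obtain ⟨w, r, hr⟩ := sp_complete (p := (s.unpair.1, σ)) h0 h1 hne
      exact hS (Nat.rfindOpt_dom.2 ⟨w, r, hr⟩)

theorem dg_spec (c : ℕ) (τ : List Bool) : ∃ τ', Ev orc (dg c τ) τ' ∧ τ <+: τ' ∧ τ.length < τ'.length ∧
    ∃ i b, τ'[i]? = some b ∧ ∀ v ∈ (ofNat Code c).eval i, v ≠ b.toNat := by
  have M1 : ∀ b : ℕ, Mono (fun _ => bif b == 1 then
    ((run (c, τ.length)).map fun v => τ ++ [!(v == 1)])
    else Part.some (τ ++ [false])) := fun b => Mono.cond _ (Mono.map _ (Mono.const _)) (Mono.const _)
  by_cases hE : (run (c, τ.length)).Dom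
  · have h2 := orc_one ((q2_spec _).1 hE)
    obtain ⟨v, hv⟩ := Part.dom_iff_mem.1 hE
    refine ⟨τ ++ [!(v == 1)], ?_, List.prefix_append _ _, by simp, τ.length, !(v == 1), by simp, ?_⟩
    · refine Ev.bind (Mono.lk _) M1 (Ev.lk orc _) ?_
      simp only [h2, cond_true]
      exact Ev.map (P := fun _ => run (c, τ.length)) (fun v => τ ++ [!(v == 1)]) (Ev.const _ hv)
    · intro v' hv'
      have := Part.mem_unique hv' hv
      subst this
      by_cases h : v' = 1
      · subst h; simp
      · rw [beq_false' h]; simpa using h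
  · have h2 := orc_zero (fun h => hE ((q2_spec _).2 h))
    refine ⟨τ ++ [false], ?_, List.prefix_append _ _, by simp, τ.length, false, by simp, ?_⟩
    · refine Ev.bind (Mono.lk _) M1 (Ev.lk orc _) ?_
      simp only [h2, cond_false]
      exact Ev.const _ (Part.mem_some _)
    · intro v hv
      exact absurd (Part.dom_iff_mem.2 ⟨v, hv⟩) hE

/-- specification of one stage -/
def NS (s : ℕ) (σ τ' : List Bool) : Prop := Ev orc (nxt s σ) τ' ∧ σ <+: τ' ∧ σ.length < τ'.length ∧
    (∃ i b, τ'[i]? = some b ∧ ∀ v ∈ (ofNat Code s.unpair.1).eval i, v ≠ b.toNat) ∧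
    ((∃ τ k y m, τ <+: τ' ∧ m ∈ run (s.unpair.2, k) ∧ y ∈ (ofNat Code s.unpair.1).eval (Nat.pair (en τ) k) ∧ y ≠ orc m) ∨
    (∃ k, ¬ (run (s.unpair.2, k)).Dom) ∨
    (∀ t0 t1 k y0 y1, y0 ∈ (ofNat Code s.unpair.1).eval (Nat.pair (en (σ ++ t0)) k) →
      y1 ∈ (ofNat Code s.unpair.1).eval (Nat.pair (en (σ ++ t1)) k) → y0 = y1))

theorem nxt_spec (s : ℕ) (σ : List Bool) : ∃ τ', NS s σ τ' := by
  obtain ⟨τ, h1, h2, h3⟩ := ext_spec s σ
  obtain ⟨τ', h4, h5, h6, h7⟩ := dg_spec s.unpair.1 τ
  refine ⟨τ', Ev.bind (ext_mono _ _) (fun τ => dg_mono _ _) h1 h4, h2.trans h5, lt_of_le_of_lt h2.length_le h6, h7, ?_⟩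
  rcases h3 with ⟨k, y, m, h⟩ | h | h
  · exact Or.inl ⟨τ, k, y, m, h5, h⟩
  · exact Or.inr (Or.inl h)
  · exact Or.inr (Or.inr h)

/-- the sequence of strings -/
noncomputable def sq : ℕ → List Bool
  | 0 => []
  | s+1 => (nxt_spec s (sq s)).choose

theorem sq_spec (s : ℕ) : NS s (sq s) (sq (s+1)) := (nxt_spec s (sq s)).choose_spec

theorem sq_ev (s : ℕ) : Ev orc (stg s) (sq s) := by
  induction s with
  | zero => exact Ev.const _ (Part.mem_some _)
  | succ s ih => exact Ev.bind (stg_mono s) (fun σ => nxt_mono s σ) ih (sq_spec s).1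

theorem sq_le {s t : ℕ} (h : s ≤ t) : sq s <+: sq t := by
  induction h with
  | refl => exact List.prefix_refl _
  | step h ih => exact ih.trans (sq_spec _).2.1

theorem sq_length (s : ℕ) : s ≤ (sq s).length := by
  induction s with
  | zero => exact Nat.zero_le _
  | succ s ih => exact Nat.succ_le_of_lt (lt_of_le_of_lt ih (sq_spec s).2.2.1)

/-- the set -/
def X : Set ℕ := {i | (sq (i+1))[i]? = some true}

theorem getElem?_of_le {σ τ : List Bool} (h : σ <+: τ) {i : ℕ} (hi : i < σ.length) : τ[i]? = σ[i]? := by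
  obtain ⟨t, rfl⟩ := h
  exact List.getElem?_append_left hi

theorem sq_get {s i : ℕ} (h : i < (sq s).length) : (sq s)[i]? = (sq (i+1))[i]? := by
  have h1 : i < (sq (i+1)).length := lt_of_lt_of_le (Nat.lt_succ_self i) (sq_length (i+1))
  rcases le_total s (i+1) with h2 | h2
  · exact (getElem?_of_le (sq_le h2) h).symm
  · exact getElem?_of_le (sq_le h2) h1

theorem chi_X (i : ℕ) : chi X i = (((sq (i+1))[i]?).getD false).toNat := by
  have h1 : i < (sq (i+1)).length := lt_of_lt_of_le (Nat.lt_succ_self i) (sq_length (i+1))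
  rw [List.getElem?_eq_getElem h1]
  simp only [Option.getD_some]
  cases h : (sq (i+1))[i] with
  | true =>
    rw [Bool.toNat_true, chi_eq_one]
    show (sq (i+1))[i]? = some true
    rw [List.getElem?_eq_getElem h1, h]
  | false =>
    rw [Bool.toNat_false, chi_eq_zero]
    show ¬ (sq (i+1))[i]? = some true
    rw [List.getElem?_eq_getElem h1, h]
    simp

theorem init_X {s : ℕ} {τ : List Bool} (h : τ <+: sq s) : init (chi X) τ.length = τ.map Bool.toNat := by
  apply List.ext_getElem
  · simp [length_init]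
  · intro i h1 h2
    have hi : i < τ.length := by simpa using h2
    have h3 : (sq (i+1))[i]? = τ[i]? := by
      rw [← getElem?_of_le h hi]
      exact (sq_get (lt_of_lt_of_le hi h.length_le)).symm
    simp only [init, List.getElem_map, List.getElem_range]
    rw [chi_X, h3, List.getElem?_eq_getElem hi]
    simp

theorem X_recursiveIn : Nat.RecursiveIn {(chi omegaJump : ℕ →. ℕ)} (fun i => Part.some (chi X i)) := by
  refine recursiveIn_of_partrec val_part fun i y => ?_
  have hm : Mono (fun l => val l i) := Mono.map _ (stg_mono _)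
  have hev : Ev orc (fun l => val l i) (chi X i) := by
    rw [chi_X]
    exact Ev.map (P := stg (i+1)) (fun σ => ((σ[i]?).getD false).toNat) (sq_ev (i+1))
  rw [Part.mem_some_iff]
  constructor
  · rintro rfl; exact hev
  · intro h
    exact Ev.unique hm h hev

theorem X_not_computable : ¬ Nat.Partrec (fun i => Part.some (chi X i)) := by
  intro h
  obtain ⟨c, hc⟩ := Nat.Partrec.Code.exists_code.1 h
  obtain ⟨i, b, hb, hv⟩ := (sq_spec (Nat.pair (encode c) 0)).2.2.2.1
  rw [Nat.unpair_pair, ofNat_encode, hc] at hv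
  have h1 := hv _ (Part.mem_some _)
  rw [chi_X] at h1
  have hi : i < (sq (Nat.pair (encode c) 0 + 1)).length := by
    by_contra hlt
    have : (sq (Nat.pair (encode c) 0 + 1))[i]? = none := List.getElem?_eq_none (by omega)
    rw [this] at hb
    cases hb
  have h2 : (sq (i+1))[i]? = some b := by
    rw [← sq_get hi]; exact hb
  rw [h2] at h1
  exact h1 rfl

theorem X_min (f : ℕ → ℕ) (hf : Computable f)
    (h : Nat.RecursiveIn {(chi X : ℕ →. ℕ)} (fun n => Part.some (chi omegaJump (f n)))) :
    Nat.Partrec (fun n => Part.some (chi omegaJump (f n))) := by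
  obtain ⟨F, hF⟩ := nf h
  have hF' : Partrec (fun p : ℕ => F (Denumerable.ofNat (List ℕ) p.unpair.1) p.unpair.2) :=
    hF.part.comp ((Computable.ofNat _).comp (Computable.fst.comp Computable.unpair)) (Computable.snd.comp Computable.unpair)
  obtain ⟨c, hc⟩ := Nat.Partrec.Code.exists_code.1 (Partrec.nat_iff.1 hF')
  obtain ⟨cf, hcf⟩ := Nat.Partrec.Code.exists_code.1 (Partrec.nat_iff.1 hf)
  have hcF : ∀ (σ : List ℕ) k, c.eval (Nat.pair (encode σ) k) = F σ k := by
    intro σ k; rw [hc]; simp
  have hrun : ∀ k, run (encode cf, k) = Part.some (f k) := by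
    intro k; unfold run; rw [ofNat_encode, hcf]; rfl
  have hen : ∀ {s : ℕ} {τ : List Bool}, τ <+: sq s → ∀ k y, y ∈ c.eval (Nat.pair (en τ) k) → y = chi omegaJump (f k) := by
    intro s τ hτ k y hy
    unfold en at hy
    rw [hcF, ← init_X hτ] at hy
    have := (hF.spec k y).2 ⟨_, hy⟩
    exact Part.mem_some_iff.1 this
  set s := Nat.pair (encode c) (encode cf) with hs
  have hsp := (sq_spec s).2.2.2.2
  simp only [hs, Nat.unpair_pair, ofNat_encode] at hsp
  rcases hsp with ⟨τ, k, y, m, hτ, hm, hy, hne⟩ | ⟨k, hk⟩ | hC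
  · exfalso
    rw [hrun, Part.mem_some_iff] at hm
    subst hm
    have hτ' : τ <+: sq (s+1) := hτ
    exact hne (hen hτ' k y hy)
  · exfalso
    rw [hrun] at hk
    exact hk trivial
  · rw [← hs] at hC
    -- computability by search
    let S : ℕ → ℕ → Option ℕ := fun k w => (decode (α := List Bool × ℕ) w).bind fun u =>
      Nat.Partrec.Code.evaln u.2 c (Nat.pair (en (sq s ++ u.1)) k)
    have hS : Computable₂ S := by
      refine Computable.option_bind (Computable.decode.comp Computable.snd) (Primrec.to_comp ?_)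
      refine Nat.Partrec.Code.primrec_evaln.comp (((Primrec.snd.comp Primrec.snd).pair (Primrec.const c)).pair ?_)
      refine pq (pen ?_) (Primrec.fst.comp Primrec.fst)
      exact Primrec.list_append.comp (Primrec.const _) (Primrec.fst.comp Primrec.snd)
    have hP := Partrec.rfindOpt hS
    refine (Partrec.nat_iff.1 hP).of_eq fun k => ?_
    have hex : ∃ t n, chi omegaJump (f k) ∈ Nat.Partrec.Code.evaln n c (Nat.pair (en (sq s ++ t)) k) := by
      obtain ⟨n, hn⟩ := (hF.spec k _).1 (Part.mem_some (chi omegaJump (f k)))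
      have hle : sq s <+: sq (max n s) := sq_le (le_max_right _ _)
      obtain ⟨t, ht⟩ := hle
      have hlen : n ≤ (sq (max n s)).length := le_trans (le_max_left _ _) (sq_length _)
      have h1 := hF.mono_init hlen hn
      rw [init_X (List.prefix_refl _), ← hcF] at h1
      obtain ⟨m, hm⟩ := Nat.Partrec.Code.evaln_complete.1 h1
      refine ⟨t, m, ?_⟩
      rw [ht]; exact hm
    have huniq : ∀ y, y ∈ Nat.rfindOpt (S k) → y = chi omegaJump (f k) := by
      intro y hy
      obtain ⟨w, hw⟩ := Nat.rfindOpt_spec hy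
      simp only [S, Option.mem_def, Option.bind_eq_some_iff] at hw
      obtain ⟨u, _, hu⟩ := hw
      obtain ⟨t, n, htn⟩ := hex
      exact hC u.1 t k y _ (Nat.Partrec.Code.evaln_sound (Option.mem_def.2 hu)) (Nat.Partrec.Code.evaln_sound htn)
    have hdom : (Nat.rfindOpt (S k)).Dom := by
      obtain ⟨t, n, htn⟩ := hex
      refine Nat.rfindOpt_dom.2 ⟨encode (t, n), chi omegaJump (f k), ?_⟩
      simp only [S, encodek, Option.bind_some]
      exact htn
    obtain ⟨y, hy⟩ := Part.dom_iff_mem.1 hdom
    rw [huniq y hy] at hy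
    exact Part.eq_some_iff.2 hy

end KP2

section Final

open FirstOrder FirstOrder.Language Encodable Denumerable

theorem exists_decider {P : ℕ → Prop} (h : ComputablePred P) :
    ∃ D : ℕ → Bool, Computable D ∧ ∀ k, D k = true ↔ P k := by
  obtain ⟨hd, hc⟩ := h
  exact ⟨fun k => decide (P k), hc, fun k => decide_eq_true_iff⟩

theorem main_theorem : ∃ X : Set ℕ, SetLE X omegaJump ∧
    ∀ (L : FirstOrder.Language.{0, 0}) [Encodable (Σ n, L.Functions n)] [Encodable (Σ n, L.Relations n)],
      ComputableSignature L → ∀ T : L.Theory, T.IsMaximal → HasComputableModel T →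
        ¬ SameDegree (theoryCodes T) X := by
  refine ⟨X, ?_, ?_⟩
  · show RecursiveIn _ _
    rw [RecursiveIn.iff_nat]
    exact X_recursiveIn
  · intro L _ _ hL T hT hM hdeg
    obtain ⟨U, _, hU, hUc, hUd, hUT⟩ := hM
    obtain ⟨ar, harc, har⟩ := hL.2
    obtain ⟨uU, huc, hu⟩ := exists_decider hUc
    obtain ⟨D, hDc, hD⟩ := exists_decider hUd
    have : Nonempty U := hU.to_subtype
    have hTeq : T = L.completeTheory U := by
      ext φ
      constructor
      · intro h
        exact Theory.realize_sentence_of_mem (M := U) T h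
      · intro h
        rcases hT.2 φ with h1 | h1
        · exact h1
        · exfalso
          have h2 : U ⊨ φ.not := Theory.realize_sentence_of_mem (M := U) T h1
          exact (Sentence.realize_not U).1 h2 h
    obtain ⟨r, hr, hrs⟩ := theory_reduce (L := L) (U := U) hU hDc hD huc hu harc har
    rw [← hTeq] at hrs
    have hchi : ∀ k, chi (theoryCodes T) k = chi omegaJump (r k) := by
      intro k
      by_cases h : k ∈ theoryCodes T
      · rw [chi_eq_one.2 h, chi_eq_one.2 ((hrs k).1 h)]
      · rw [chi_eq_zero.2 h, chi_eq_zero.2 (fun h' => h ((hrs k).2 h'))]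
    have e : (chi (theoryCodes T) : ℕ →. ℕ) = fun n => Part.some (chi omegaJump (r n)) := by
      funext n
      show Part.some (chi (theoryCodes T) n) = _
      rw [hchi]
    have h1 : RecursiveIn {(chi X : ℕ →. ℕ)} (fun n => Part.some (chi omegaJump (r n)) : ℕ →. ℕ) := by
      rw [← e]; exact hdeg.1
    rw [RecursiveIn.iff_nat] at h1
    have h2 := X_min r hr h1
    have h3 : RecursiveIn {(fun n => Part.some (chi omegaJump (r n)) : ℕ →. ℕ)} (chi X : ℕ →. ℕ) := by
      rw [← e]; exact hdeg.2
    have h4 : Partrec (chi X : ℕ →. ℕ) := by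
      refine RecursiveIn.partrec_of_oracle ?_ h3
      intro g hg
      have hg' : g = _ := hg
      rw [hg']
      exact Partrec.nat_iff.2 h2
    exact X_not_computable (Partrec.nat_iff.1 h4)

end Final

end Pool.Agent.Helper302.Jump
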